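import Pool.Agent.MP_67f0e4_gt.R48.Max

/-! The radial flow `u_t = log (u_s u_ss) - 2 s`: hypotheses and names. -/

namespace Pool.Agent.MP_67f0e4_gt.R48

open Set

noncomputable def lam (s : ℝ) : ℝ := Real.log (1 + Real.exp s)

/-- the derivative of `lam` -/
noncomputable def sg (s : ℝ) : ℝ := Real.exp s / (1 + Real.exp s)

noncomputable def p0 (β s : ℝ) : ℝ := lam s / (lam s + β)

/-- the derivative of `p0` -/
noncomputable def th0 (β s : ℝ) : ℝ := β * sg s / (lam s + β) ^ 2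

/-- `U i s t` is the `i`-th `s`-derivative of a radial solution on `[0,τ]`; the constant of the
a priori bounds may depend on `τ`. -/
structure Rad (β τ : ℝ) (U : ℕ → ℝ → ℝ → ℝ) : Prop where
  ds : ∀ i < 5, ∀ s, ∀ t ∈ Icc 0 τ, HasDerivAt (fun s => U i s t) (U (i + 1) s t) s
  cont : ∀ i ≤ 5, ContinuousOn (fun q : ℝ × ℝ => U i q.1 q.2) (univ ×ˢ Icc 0 τ)
  dt : ∀ s, ∀ t ∈ Ioo 0 τ, HasDerivAt (U 0 s) (Real.log (U 1 s t * U 2 s t) - 2 * s) t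
  init : ∀ s, U 1 s 0 = p0 β s
  apr : ∃ K, 1 ≤ K ∧ ∀ s, ∀ t ∈ Icc 0 τ, p0 β s ≤ K * U 1 s t ∧ U 1 s t ≤ K * p0 β s ∧
    th0 β s ≤ K * U 2 s t ∧ U 2 s t ≤ K * th0 β s ∧ |U 3 s t| * (lam s + β) ≤ K * U 2 s t

/-- `p_t` -/
noncomputable def E1 (U : ℕ → ℝ → ℝ → ℝ) (s t : ℝ) : ℝ :=
  U 2 s t / U 1 s t + U 3 s t / U 2 s t - 2

/-- `Θ_t` -/
noncomputable def E2 (U : ℕ → ℝ → ℝ → ℝ) (s t : ℝ) : ℝ :=
  U 3 s t / U 1 s t - U 2 s t ^ 2 / U 1 s t ^ 2 + U 4 s t / U 2 s t - U 3 s t ^ 2 / U 2 s t ^ 2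

/-- `Θ_st` -/
noncomputable def E3 (U : ℕ → ℝ → ℝ → ℝ) (s t : ℝ) : ℝ :=
  U 4 s t / U 1 s t - 3 * (U 2 s t * U 3 s t) / U 1 s t ^ 2 + 2 * U 2 s t ^ 3 / U 1 s t ^ 3 +
    U 5 s t / U 2 s t - 3 * (U 3 s t * U 4 s t) / U 2 s t ^ 2 + 2 * U 3 s t ^ 3 / U 2 s t ^ 3

/-- `z = a - p` -/
def zz (U : ℕ → ℝ → ℝ → ℝ) (s t : ℝ) : ℝ := 1 - 2 * t - U 1 s t

lemma lam_pos (s : ℝ) : 0 < lam s := Real.log_pos (by linarith [Real.exp_pos s])

lemma exp_lam (s : ℝ) : Real.exp (lam s) = 1 + Real.exp s :=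
  Real.exp_log (by linarith [Real.exp_pos s])

lemma sg_pos (s : ℝ) : 0 < sg s := div_pos (Real.exp_pos s) (by linarith [Real.exp_pos s])

lemma one_sub_sg (s : ℝ) : 1 - sg s = Real.exp (-lam s) := by
  have : 0 < 1 + Real.exp s := by linarith [Real.exp_pos s]
  rw [Real.exp_neg, exp_lam, sg]; field_simp; ring

lemma sg_lt_one (s : ℝ) : sg s < 1 := by linarith [one_sub_sg s, Real.exp_pos (-lam s)]

lemma sg_le_lam (s : ℝ) : sg s ≤ lam s := by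
  linarith [one_sub_sg s, Real.add_one_le_exp (-lam s)]

lemma lam_le_exp (s : ℝ) : lam s ≤ Real.exp s := by
  linarith [exp_lam s, Real.add_one_le_exp (lam s)]

lemma le_lam (s : ℝ) : s ≤ lam s := by
  refine Real.exp_le_exp.mp ?_
  rw [exp_lam]; linarith

lemma lam_neg (s : ℝ) : lam (-s) = lam s - s := by
  refine Real.exp_injective ?_
  have := Real.exp_pos s
  rw [Real.exp_sub, exp_lam, exp_lam, Real.exp_neg]; field_simp; ring

lemma sg_eq (s : ℝ) : sg s = Real.exp (s - lam s) := by rw [Real.exp_sub, exp_lam, sg]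

lemma lam_mul_le (s : ℝ) : lam s * (1 - sg s) ≤ sg s := by
  have h : 0 < 1 + Real.exp s := by linarith [Real.exp_pos s]
  have h1 : 1 - sg s = 1 / (1 + Real.exp s) := by rw [sg]; field_simp; ring
  rw [h1, sg, mul_one_div]
  exact div_le_div_of_nonneg_right (lam_le_exp s) h.le

lemma lam_pow (β s : ℝ) (hβ : 0 ≤ β) : (lam s + β) ^ 4 * (1 - sg s) ≤ (β + 4) ^ 4 := by
  have h0 := lam_pos s
  have h1 := Real.add_one_le_exp (lam s / 4)
  have h2 : lam s + β ≤ (β + 4) * Real.exp (lam s / 4) := by nlinarith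
  have h3 : (lam s + β) ^ 4 ≤ ((β + 4) * Real.exp (lam s / 4)) ^ 4 :=
    pow_le_pow_left₀ (by linarith) h2 4
  have h4 : Real.exp (lam s / 4) ^ 4 * Real.exp (-lam s) = 1 := by
    rw [← Real.exp_nat_mul, ← Real.exp_add, ← Real.exp_zero]; congr 1; push_cast; ring
  rw [one_sub_sg]
  calc (lam s + β) ^ 4 * Real.exp (-lam s)
      ≤ ((β + 4) * Real.exp (lam s / 4)) ^ 4 * Real.exp (-lam s) :=
        mul_le_mul_of_nonneg_right h3 (Real.exp_pos _).le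
    _ = (β + 4) ^ 4 := by rw [mul_pow, mul_assoc, h4, mul_one]

lemma d_lam (s : ℝ) : HasDerivAt lam (sg s) s :=
  ((Real.hasDerivAt_exp s).const_add 1).log (by linarith [Real.exp_pos s])

lemma d_sg (s : ℝ) : HasDerivAt sg (sg s * (1 - sg s)) s := by
  have h : 0 < 1 + Real.exp s := by linarith [Real.exp_pos s]
  refine ((Real.hasDerivAt_exp s).div ((Real.hasDerivAt_exp s).const_add 1) h.ne').congr_deriv ?_
  rw [sg]; field_simp

lemma d_p0 {β : ℝ} (hβ : 0 < β) (s : ℝ) : HasDerivAt (p0 β) (th0 β s) s := by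
  have h : 0 < lam s + β := by linarith [lam_pos s]
  refine ((d_lam s).div ((d_lam s).add_const β) h.ne').congr_deriv ?_
  rw [th0]; field_simp; ring

lemma d_th0 {β : ℝ} (hβ : 0 < β) (s : ℝ) :
    HasDerivAt (th0 β) (th0 β s * (1 - sg s - 2 * sg s / (lam s + β))) s := by
  have h : 0 < lam s + β := by linarith [lam_pos s]
  refine (((d_sg s).const_mul β).div (((d_lam s).add_const β).pow 2)
    (pow_ne_zero 2 h.ne')).congr_deriv ?_
  simp only [Pi.pow_apply, th0]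
  field_simp
  ring

lemma p0_pos {β : ℝ} (hβ : 0 < β) (s : ℝ) : 0 < p0 β s :=
  div_pos (lam_pos s) (by linarith [lam_pos s])

lemma th0_pos {β : ℝ} (hβ : 0 < β) (s : ℝ) : 0 < th0 β s :=
  div_pos (mul_pos hβ (sg_pos s)) (pow_pos (by linarith [lam_pos s]) 2)

variable {β τ : ℝ} {U : ℕ → ℝ → ℝ → ℝ}

lemma Rad.p_pos (R : Rad β τ U) (hβ : 0 < β) (s : ℝ) {t : ℝ} (ht : t ∈ Icc 0 τ) : 0 < U 1 s t := by
  obtain ⟨K, hK, h⟩ := R.apr
  exact (mul_pos_iff_of_pos_left (one_pos.trans_le hK)).mp ((p0_pos hβ s).trans_le (h s t ht).1)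

lemma Rad.th_pos (R : Rad β τ U) (hβ : 0 < β) (s : ℝ) {t : ℝ} (ht : t ∈ Icc 0 τ) :
    0 < U 2 s t := by
  obtain ⟨K, hK, h⟩ := R.apr
  exact (mul_pos_iff_of_pos_left (one_pos.trans_le hK)).mp ((th0_pos hβ s).trans_le (h s t ht).2.2.1)

end Pool.Agent.MP_67f0e4_gt.R48
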