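import Pool.Agent.MP_67f0e4_gt.R48.Defs

/-! Time derivatives of `p`, `Θ`, `Θ_s`. -/

namespace Pool.Agent.MP_67f0e4_gt.R48

open Set Filter Topology MeasureTheory

variable {β τ : ℝ} {U : ℕ → ℝ → ℝ → ℝ}

lemma slice {E : ℝ → ℝ → ℝ} (c : ContinuousOn (fun q : ℝ × ℝ => E q.1 q.2) (univ ×ˢ Icc 0 τ))
    (s : ℝ) : ContinuousOn (E s) (Icc 0 τ) :=
  c.comp (f := fun t : ℝ => (s, t)) (by fun_prop) fun _ ht => ⟨mem_univ _, ht⟩

lemma slice_int {E : ℝ → ℝ → ℝ} (c : ContinuousOn (fun q : ℝ × ℝ => E q.1 q.2) (univ ×ˢ Icc 0 τ))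
    (s : ℝ) {t : ℝ} (ht : t ∈ Icc 0 τ) : IntervalIntegrable (E s) volume 0 t :=
  ((slice c s).mono (Icc_subset_Icc_right ht.2)).intervalIntegrable_of_Icc ht.1

/-- differentiation under the integral sign -/
lemma d_int {E E' : ℝ → ℝ → ℝ} (c : ContinuousOn (fun q : ℝ × ℝ => E q.1 q.2) (univ ×ˢ Icc 0 τ))
    (c' : ContinuousOn (fun q : ℝ × ℝ => E' q.1 q.2) (univ ×ˢ Icc 0 τ))
    (d : ∀ s, ∀ t ∈ Icc 0 τ, HasDerivAt (fun s => E s t) (E' s t) s) (s : ℝ) {t : ℝ}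
    (ht : t ∈ Icc 0 τ) : HasDerivAt (fun s => ∫ r in (0 : ℝ)..t, E s r) (∫ r in (0 : ℝ)..t, E' s r) s := by
  obtain ⟨B, hB⟩ := ((isCompact_Icc (a := s - 1) (b := s + 1)).prod
    (isCompact_Icc (a := 0) (b := τ))).exists_bound_of_continuousOn
    (c'.mono (prod_mono (subset_univ _) subset_rfl))
  have hsub : ∀ r ∈ uIoc 0 t, r ∈ Icc 0 τ := by
    intro r hr
    rw [uIoc_of_le ht.1] at hr
    exact ⟨hr.1.le, hr.2.trans ht.2⟩
  refine (intervalIntegral.hasDerivAt_integral_of_dominated_loc_of_deriv_le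
    (s := Icc (s - 1) (s + 1)) (bound := fun _ => B)
    (Icc_mem_nhds (by linarith) (by linarith))
    (Eventually.of_forall fun x => (intervalIntegrable_iff.mp (slice_int c x ht)).1)
    (slice_int c s ht) (intervalIntegrable_iff.mp (slice_int c' s ht)).1
    (Eventually.of_forall fun r hr x hx => hB (x, r) ⟨hx, hsub r hr⟩) intervalIntegrable_const
    (Eventually.of_forall fun r hr x _ => d x r (hsub r hr))).2

lemma step_int {f f' E E' : ℝ → ℝ → ℝ} (hτ : 0 ≤ τ)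
    (df : ∀ s, ∀ t ∈ Icc 0 τ, HasDerivAt (fun s => f s t) (f' s t) s)
    (c : ContinuousOn (fun q : ℝ × ℝ => E q.1 q.2) (univ ×ˢ Icc 0 τ))
    (c' : ContinuousOn (fun q : ℝ × ℝ => E' q.1 q.2) (univ ×ˢ Icc 0 τ))
    (d : ∀ s, ∀ t ∈ Icc 0 τ, HasDerivAt (fun s => E s t) (E' s t) s)
    (I : ∀ s, ∀ t ∈ Icc 0 τ, f s t = f s 0 + ∫ r in (0 : ℝ)..t, E s r) :
    ∀ s, ∀ t ∈ Icc 0 τ, f' s t = f' s 0 + ∫ r in (0 : ℝ)..t, E' s r := by
  intro s t ht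
  have h1 := (df s 0 ⟨le_rfl, hτ⟩).add (d_int c c' d s ht)
  have h2 := df s t ht
  rw [show (fun s => f s t) = fun s => f s 0 + ∫ r in (0 : ℝ)..t, E s r from
    funext fun s => I s t ht] at h2
  exact h2.unique h1

lemma dt_of_int {f E : ℝ → ℝ → ℝ}
    (c : ContinuousOn (fun q : ℝ × ℝ => E q.1 q.2) (univ ×ˢ Icc 0 τ))
    (I : ∀ s, ∀ t ∈ Icc 0 τ, f s t = f s 0 + ∫ r in (0 : ℝ)..t, E s r) :
    ∀ s, ∀ t ∈ Icc 0 τ, HasDerivWithinAt (f s) (E s t) (Icc 0 τ) t := by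
  intro s t ht
  have : Fact (t ∈ Icc 0 τ) := ⟨ht⟩
  have h1 : HasDerivWithinAt (fun u => ∫ r in (0 : ℝ)..u, E s r) (E s t) (Icc 0 τ) t :=
    intervalIntegral.integral_hasDerivWithinAt_right (t := Icc 0 τ) (slice_int c s ht)
      ((slice c s).stronglyMeasurableAtFilter_nhdsWithin measurableSet_Icc t) (slice c s t ht)
  exact (h1.const_add (f s 0)).congr (fun r hr => I s r hr) (I s t ht)

lemma Rad.c0 (R : Rad β τ U) (hβ : 0 < β) : ContinuousOn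
    (fun q : ℝ × ℝ => Real.log (U 1 q.1 q.2 * U 2 q.1 q.2) - 2 * q.1) (univ ×ˢ Icc 0 τ) :=
  (((R.cont 1 (by norm_num)).mul (R.cont 2 (by norm_num))).log fun q hq =>
    (mul_pos (R.p_pos hβ _ hq.2) (R.th_pos hβ _ hq.2)).ne').sub (by fun_prop)

lemma Rad.cE (R : Rad β τ U) (hβ : 0 < β) :
    ContinuousOn (fun q : ℝ × ℝ => E1 U q.1 q.2) (univ ×ˢ Icc 0 τ) ∧
    ContinuousOn (fun q : ℝ × ℝ => E2 U q.1 q.2) (univ ×ˢ Icc 0 τ) ∧
    ContinuousOn (fun q : ℝ × ℝ => E3 U q.1 q.2) (univ ×ˢ Icc 0 τ) := by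
  have c1 := R.cont 1 (by norm_num)
  have c2 := R.cont 2 (by norm_num)
  have c3 := R.cont 3 (by norm_num)
  have c4 := R.cont 4 (by norm_num)
  have c5 := R.cont 5 (by norm_num)
  have n1 : ∀ q ∈ (univ : Set ℝ) ×ˢ Icc 0 τ, U 1 q.1 q.2 ≠ 0 := fun q hq => (R.p_pos hβ _ hq.2).ne'
  have n2 : ∀ q ∈ (univ : Set ℝ) ×ˢ Icc 0 τ, U 2 q.1 q.2 ≠ 0 := fun q hq => (R.th_pos hβ _ hq.2).ne'
  refine ⟨((c2.div c1 n1).add (c3.div c2 n2)).sub continuousOn_const, ?_, ?_⟩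
  · exact (((c3.div c1 n1).sub ((c2.pow 2).div (c1.pow 2) fun q hq => pow_ne_zero 2 (n1 q hq))).add
      (c4.div c2 n2)).sub ((c3.pow 2).div (c2.pow 2) fun q hq => pow_ne_zero 2 (n2 q hq))
  · exact (((((c4.div c1 n1).sub ((continuousOn_const.mul (c2.mul c3)).div (c1.pow 2)
      fun q hq => pow_ne_zero 2 (n1 q hq))).add ((continuousOn_const.mul (c2.pow 3)).div (c1.pow 3)
      fun q hq => pow_ne_zero 3 (n1 q hq))).add (c5.div c2 n2)).sub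
      ((continuousOn_const.mul (c3.mul c4)).div (c2.pow 2)
      fun q hq => pow_ne_zero 2 (n2 q hq))).add ((continuousOn_const.mul (c3.pow 3)).div (c2.pow 3)
      fun q hq => pow_ne_zero 3 (n2 q hq))

lemma Rad.dE (R : Rad β τ U) (hβ : 0 < β) (s : ℝ) {t : ℝ} (ht : t ∈ Icc 0 τ) :
    HasDerivAt (fun s => Real.log (U 1 s t * U 2 s t) - 2 * s) (E1 U s t) s ∧
    HasDerivAt (fun s => E1 U s t) (E2 U s t) s ∧ HasDerivAt (fun s => E2 U s t) (E3 U s t) s := by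
  have d1 : HasDerivAt (fun s => U 1 s t) (U 2 s t) s := R.ds 1 (by norm_num) s t ht
  have d2 : HasDerivAt (fun s => U 2 s t) (U 3 s t) s := R.ds 2 (by norm_num) s t ht
  have d3 : HasDerivAt (fun s => U 3 s t) (U 4 s t) s := R.ds 3 (by norm_num) s t ht
  have d4 : HasDerivAt (fun s => U 4 s t) (U 5 s t) s := R.ds 4 (by norm_num) s t ht
  have n1 := (R.p_pos hβ s ht).ne'
  have n2 := (R.th_pos hβ s ht).ne'
  refine ⟨?_, ?_, ?_⟩
  · refine (((d1.mul d2).log (mul_ne_zero n1 n2)).sub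
      ((hasDerivAt_id s).const_mul 2)).congr_deriv ?_
    simp only [Pi.mul_apply, E1]
    field_simp
  · refine (((d2.div d1 n1).add (d3.div d2 n2)).sub_const 2).congr_deriv ?_
    simp only [E2]
    field_simp
    ring
  · refine ((((d3.div d1 n1).sub ((d2.pow 2).div (d1.pow 2) (pow_ne_zero 2 n1))).add
      (d4.div d2 n2)).sub ((d3.pow 2).div (d2.pow 2) (pow_ne_zero 2 n2))).congr_deriv ?_
    simp only [E3, Pi.pow_apply]
    field_simp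
    ring

lemma Rad.jets (R : Rad β τ U) (hβ : 0 < β) (hτ : 0 ≤ τ) :
    Jet τ (U 0) (U 1) (U 2) (fun s t => Real.log (U 1 s t * U 2 s t) - 2 * s) ∧
    Jet τ (U 1) (U 2) (U 3) (E1 U) ∧ Jet τ (U 2) (U 3) (U 4) (E2 U) ∧
    Jet τ (U 3) (U 4) (U 5) (E3 U) := by
  obtain ⟨c1, c2, c3⟩ := R.cE hβ
  have c0 := R.c0 hβ
  have I0 : ∀ s, ∀ t ∈ Icc 0 τ, U 0 s t =
      U 0 s 0 + ∫ r in (0 : ℝ)..t, (Real.log (U 1 s r * U 2 s r) - 2 * s) := by
    intro s t ht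
    have h := intervalIntegral.integral_eq_sub_of_hasDerivAt_of_le ht.1
      ((slice (R.cont 0 (by norm_num)) s).mono (Icc_subset_Icc_right ht.2))
      (fun r hr => R.dt s r ⟨hr.1, hr.2.trans_le ht.2⟩)
      (slice_int (E := fun s t => Real.log (U 1 s t * U 2 s t) - 2 * s) c0 s ht)
    rw [h]; ring
  have I1 := step_int (E := fun s t => Real.log (U 1 s t * U 2 s t) - 2 * s) hτ
    (R.ds 0 (by norm_num)) c0 c1 (fun s t ht => (R.dE hβ s ht).1) I0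
  have I2 := step_int hτ (R.ds 1 (by norm_num)) c1 c2 (fun s t ht => (R.dE hβ s ht).2.1) I1
  have I3 := step_int hτ (R.ds 2 (by norm_num)) c2 c3 (fun s t ht => (R.dE hβ s ht).2.2) I2
  exact ⟨⟨R.cont 0 (by norm_num), R.ds 0 (by norm_num), R.ds 1 (by norm_num),
      dt_of_int (E := fun s t => Real.log (U 1 s t * U 2 s t) - 2 * s) c0 I0⟩,
    ⟨R.cont 1 (by norm_num), R.ds 1 (by norm_num), R.ds 2 (by norm_num), dt_of_int c1 I1⟩,
    ⟨R.cont 2 (by norm_num), R.ds 2 (by norm_num), R.ds 3 (by norm_num), dt_of_int c2 I2⟩,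
    ⟨R.cont 3 (by norm_num), R.ds 3 (by norm_num), R.ds 4 (by norm_num), dt_of_int c3 I3⟩⟩

lemma Rad.init2 (R : Rad β τ U) (hβ : 0 < β) (hτ : 0 ≤ τ) (s : ℝ) : U 2 s 0 = th0 β s := by
  have h := R.ds 1 (by norm_num) s 0 ⟨le_rfl, hτ⟩
  rw [show (fun s => U 1 s 0) = p0 β from funext R.init] at h
  exact h.unique (d_p0 hβ s)

lemma Rad.init3 (R : Rad β τ U) (hβ : 0 < β) (hτ : 0 ≤ τ) (s : ℝ) :
    U 3 s 0 = th0 β s * (1 - sg s - 2 * sg s / (lam s + β)) := by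
  have h := R.ds 2 (by norm_num) s 0 ⟨le_rfl, hτ⟩
  rw [show (fun s => U 2 s 0) = th0 β from funext (R.init2 hβ hτ)] at h
  exact h.unique (d_th0 hβ s)

end Pool.Agent.MP_67f0e4_gt.R48
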