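import Pool.Agent.MP_67f0e4_gt.K.Spec

/-! The initial profile. -/

namespace Pool.Agent.MP_67f0e4_gt.R48

open Set Filter Topology
open scoped ContDiff

noncomputable def ig (r : ℝ) : ℝ :=
  dslope (fun r => Real.log (1 + r)) 0 r / (Real.log (1 + r) + 6)

lemma lg_an {r : ℝ} (hr : -1 / 2 < r) : AnalyticAt ℝ (fun r => Real.log (1 + r)) r :=
  (analyticAt_const.add analyticAt_id).log (by simp only [Pi.add_apply, id]; linarith)

lemma lg_pos {r : ℝ} (hr : -1 / 2 < r) : 0 < Real.log (1 + r) + 6 := by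
  have h1 := Real.one_sub_inv_le_log_of_pos (by linarith : 0 < 1 + r)
  have h2 : (1 + r)⁻¹ ≤ 2 := by
    rw [inv_le_comm₀ (by linarith) (by norm_num)]; linarith
  linarith

lemma ig_an {r : ℝ} (hr : -1 / 2 < r) : AnalyticAt ℝ ig r := by
  refine AnalyticAt.div ?_ ((lg_an hr).add analyticAt_const) (lg_pos hr).ne'
  rcases eq_or_ne r 0 with rfl | h
  · obtain ⟨p, hp⟩ := lg_an hr
    exact hp.has_fpower_series_dslope_fslope.analyticAt
  · refine AnalyticAt.congr ?_ (dslope_eventuallyEq_slope_of_ne _ h).symm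
    have e : slope (fun r => Real.log (1 + r)) 0 = fun r : ℝ => Real.log (1 + r) / r := by
      funext x; simp [slope_def_field]
    rw [e]
    exact (lg_an hr).div analyticAt_id h

lemma ig_int {r : ℝ} (hr : -1 / 2 < r) : HasDerivAt (fun r => ∫ x in (0 : ℝ)..r, ig x) (ig r) r := by
  have c : ContinuousOn ig (Ioi (-1 / 2)) := fun x hx =>
    (ig_an hx).continuousAt.continuousWithinAt
  refine intervalIntegral.integral_hasDerivAt_right ((c.mono ?_).intervalIntegrable)
    (c.stronglyMeasurableAtFilter isOpen_Ioi r hr) (ig_an hr).continuousAt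
  exact ordConnected_Ioi.uIcc_subset (by norm_num) hr

theorem init : K.INIT := by
  refine ⟨fun r => ∫ x in (0 : ℝ)..r, ig x, ?_, ?_, fun s => ?_⟩
  · refine (contDiffOn_infty_iff_deriv_of_isOpen isOpen_Ioi).mpr
      ⟨fun x hx => (ig_int hx).differentiableAt.differentiableWithinAt, ?_⟩
    exact ContDiffOn.congr (fun x hx => (ig_an hx).contDiffAt.contDiffWithinAt)
      fun x hx => (ig_int hx).deriv
  · rw [(ig_int (by norm_num)).deriv, ig, dslope_same]
    have h : HasDerivAt (fun r : ℝ => Real.log (1 + r)) (1 / (1 + 0)) 0 :=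
      ((hasDerivAt_id' (0 : ℝ)).const_add 1).log (by norm_num)
    rw [h.deriv]; norm_num
  · have he := Real.exp_pos s
    refine ((ig_int (by linarith)).comp s (Real.hasDerivAt_exp s)).congr_deriv ?_
    have := (lg_pos (r := Real.exp s) (by linarith)).ne'
    rw [ig, dslope_of_ne _ he.ne', slope_def_field, p0, lam]
    simp only [add_zero, Real.log_one, sub_zero]
    field_simp

/-- monomials in `1 - σ` and `1 / (lam + 6)` -/
noncomputable def mono (a b : ℕ) (s : ℝ) : ℝ := (1 - sg s) ^ a * (lam s + 6)⁻¹ ^ b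

def MS (j : ℕ) : Submodule ℝ (ℝ → ℝ) :=
  Submodule.span ℝ {f | ∃ a b, (1 ≤ a ∨ j ≤ b) ∧ f = mono a b}

lemma mono_mem {j a b : ℕ} (h : 1 ≤ a ∨ j ≤ b) : mono a b ∈ MS j :=
  Submodule.subset_span ⟨a, b, h, rfl⟩

lemma L_pos (s : ℝ) : 0 < lam s + 6 := by linarith [lam_pos s]

lemma w_pow (j : ℕ) (s : ℝ) : (1 - sg s) * (lam s + 6) ^ j ≤ j.factorial * Real.exp 6 := by
  have h := Real.pow_div_factorial_le_exp _ (L_pos s).le j
  have hk : (0 : ℝ) < j.factorial := by exact_mod_cast j.factorial_pos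
  rw [div_le_iff₀' hk] at h
  rw [one_sub_sg]
  refine (mul_le_mul_of_nonneg_left h (Real.exp_pos _).le).trans (le_of_eq ?_)
  rw [Real.exp_add, Real.exp_neg]
  field_simp

lemma MS_bd {j : ℕ} {f : ℝ → ℝ} (hf : f ∈ MS j) : ∃ C, ∀ s, |f s| * (lam s + 6) ^ j ≤ C := by
  induction hf using Submodule.span_induction with
  | mem f h =>
    obtain ⟨a, b, h, rfl⟩ := h
    refine ⟨j.factorial * Real.exp 6 + 1, fun s => ?_⟩
    have hL := L_pos s
    have hL1 : 1 ≤ lam s + 6 := by linarith [lam_pos s]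
    have w0 : 0 ≤ 1 - sg s := by linarith [sg_lt_one s]
    have w1 : 1 - sg s ≤ 1 := by linarith [sg_pos s]
    have v0 : 0 ≤ (lam s + 6)⁻¹ := inv_nonneg.mpr hL.le
    have v1 : (lam s + 6)⁻¹ ≤ 1 := inv_le_one_of_one_le₀ hL1
    rw [mono, abs_of_nonneg (by positivity)]
    rcases h with h | h
    · have e1 : (1 - sg s) ^ a * (lam s + 6)⁻¹ ^ b ≤ 1 - sg s :=
        (mul_le_of_le_one_right (by positivity) (pow_le_one₀ v0 v1)).trans
          (pow_le_of_le_one w0 w1 (by omega))
      linarith [mul_le_mul_of_nonneg_right e1 (pow_pos hL j).le, w_pow j s]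
    · have e1 : (1 - sg s) ^ a * (lam s + 6)⁻¹ ^ b ≤ (lam s + 6)⁻¹ ^ j :=
        (mul_le_of_le_one_left (by positivity) (pow_le_one₀ w0 w1)).trans
          (pow_le_pow_of_le_one v0 v1 h)
      have e2 := mul_le_mul_of_nonneg_right e1 (pow_pos hL j).le
      rw [← mul_pow, inv_mul_cancel₀ hL.ne', one_pow] at e2
      have : (0 : ℝ) ≤ j.factorial * Real.exp 6 := by positivity
      linarith
  | zero => exact ⟨0, fun s => by simp⟩
  | add f g _ _ h1 h2 =>
    obtain ⟨C, h1⟩ := h1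
    obtain ⟨C', h2⟩ := h2
    refine ⟨C + C', fun s => ?_⟩
    have := mul_le_mul_of_nonneg_right (abs_add_le (f s) (g s)) (pow_pos (L_pos s) j).le
    simp only [Pi.add_apply]
    linarith [h1 s, h2 s]
  | smul c f _ h =>
    obtain ⟨C, h⟩ := h
    refine ⟨|c| * C, fun s => ?_⟩
    rw [Pi.smul_apply, smul_eq_mul, abs_mul, mul_assoc]
    exact mul_le_mul_of_nonneg_left (h s) (abs_nonneg c)

lemma d_mono (a b : ℕ) (s : ℝ) : HasDerivAt (mono a b)
    (-(sg s * (a + b * (lam s + 6)⁻¹)) * mono a b s) s := by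
  have w0 : 0 < 1 - sg s := by linarith [sg_lt_one s]
  have e : mono a b = fun s => Real.exp (-(a * lam s) - b * Real.log (lam s + 6)) := by
    funext x
    rw [mono, one_sub_sg, Real.exp_sub, Real.exp_nat_mul, Real.exp_log (L_pos x), ← mul_neg,
      Real.exp_nat_mul, inv_pow, div_eq_mul_inv]
  have h := ((((d_lam s).const_mul (a : ℝ)).neg).sub
    ((((d_lam s).add_const 6).log (L_pos s).ne').const_mul (b : ℝ))).exp
  rw [e]
  exact h.congr_deriv (by simp only [Pi.sub_apply, Pi.neg_apply]; ring)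

lemma MS_step {j : ℕ} {f : ℝ → ℝ} (hf : f ∈ MS j) : ∃ f' ∈ MS (j + 1), ∀ s,
    HasDerivAt (fun s => th0 6 s * f s) (th0 6 s * f' s) s := by
  induction hf using Submodule.span_induction with
  | mem f h =>
    obtain ⟨a, b, h, rfl⟩ := h
    have m1 : (a : ℝ) • mono a b ∈ MS (j + 1) := by
      rcases Nat.eq_zero_or_pos a with rfl | ha
      · simp
      · exact Submodule.smul_mem _ _ (mono_mem (Or.inl ha))
    refine ⟨((a : ℝ) + 1) • mono (a + 1) b - (a : ℝ) • mono a b -
      ((b : ℝ) + 2) • mono a (b + 1) + ((b : ℝ) + 2) • mono (a + 1) (b + 1),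
      Submodule.add_mem _ (Submodule.sub_mem _ (Submodule.sub_mem _
        (Submodule.smul_mem _ _ (mono_mem (by omega))) m1)
        (Submodule.smul_mem _ _ (mono_mem (by omega))))
        (Submodule.smul_mem _ _ (mono_mem (by omega))), fun s => ?_⟩
    refine ((d_th0 (by norm_num) s).mul (d_mono a b s)).congr_deriv ?_
    simp only [Pi.add_apply, Pi.sub_apply, Pi.smul_apply, smul_eq_mul, mono]
    ring
  | zero => exact ⟨0, Submodule.zero_mem _, fun s => by simpa using hasDerivAt_const s (0 : ℝ)⟩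
  | add f g _ _ h1 h2 =>
    obtain ⟨f', m1, h1⟩ := h1
    obtain ⟨g', m2, h2⟩ := h2
    refine ⟨f' + g', Submodule.add_mem _ m1 m2, fun s => ?_⟩
    simp only [Pi.add_apply, mul_add]
    exact (h1 s).add (h2 s)
  | smul c f _ h =>
    obtain ⟨f', m, h⟩ := h
    refine ⟨c • f', Submodule.smul_mem _ _ m, fun s => ?_⟩
    simp only [Pi.smul_apply, smul_eq_mul, mul_left_comm _ c]
    exact (h s).const_mul c

lemma th0_iter (j : ℕ) : ∃ f ∈ MS j, iteratedDeriv j (th0 6) = fun s => th0 6 s * f s := by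
  induction j with
  | zero => exact ⟨mono 0 0, mono_mem (Or.inr le_rfl), funext fun s => by simp [mono]⟩
  | succ j ih =>
    obtain ⟨f, m, e⟩ := ih
    obtain ⟨f', m', h⟩ := MS_step m
    exact ⟨f', m', by rw [iteratedDeriv_succ, e]; exact funext fun s => (h s).deriv⟩

lemma kap0_le (s : ℝ) : √(p0 6 s / th0 6 s) ≤ lam s + 6 := by
  have hl := lam_pos s
  have hσ := sg_pos s
  have hL := L_pos s
  refine Real.sqrt_le_iff.mpr ⟨hL.le, ?_⟩
  have e : p0 6 s / th0 6 s = lam s * (lam s + 6) / (6 * sg s) := by rw [p0, th0]; field_simp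
  rw [e, div_le_iff₀ (by positivity)]
  have h1 : lam s ≤ (lam s + 6) * (6 * sg s) := by nlinarith [lam_mul_le s, mul_pos hl hσ]
  nlinarith [mul_le_mul_of_nonneg_right h1 hL.le]

theorem initb : K.INITB := by
  choose f hf e using th0_iter
  choose C hC using fun j => MS_bd (hf j)
  refine ⟨C, fun g hg h => ?_⟩
  have h6 : (0 : ℝ) < 6 := by norm_num
  have e1 : deriv g = p0 6 := funext h
  have e2 : deriv (p0 6) = th0 6 := funext fun s => (d_p0 h6 s).deriv
  have e3 : ∀ j, iteratedDeriv (j + 2) g = iteratedDeriv j (th0 6) := fun j => by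
    rw [iteratedDeriv_succ', iteratedDeriv_succ', e1, e2]
  have e4 : iteratedDeriv 2 g = th0 6 := by simpa using e3 0
  have e5 : iteratedDeriv 1 g = p0 6 := by rw [iteratedDeriv_one, e1]
  refine ⟨hg, fun s => ?_, fun j s => ?_⟩
  · rw [e4, e5]
    refine ⟨th0_pos h6 s, ?_⟩
    have hl := lam_pos s
    have hL := L_pos s
    rw [th0, p0, div_le_div_iff₀ (pow_pos hL 2) hL]
    nlinarith [mul_le_mul_of_nonneg_right (sg_le_lam s) hL.le, mul_pos hl (mul_pos hl hL)]
  · have hθ := th0_pos h6 s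
    rw [e3, e, e4, e5, abs_mul, abs_of_pos hθ, mul_assoc, mul_comm (C j)]
    refine mul_le_mul_of_nonneg_left (le_trans ?_ (hC j s)) hθ.le
    exact mul_le_mul_of_nonneg_left (pow_le_pow_left₀ (Real.sqrt_nonneg _) (kap0_le s) j)
      (abs_nonneg _)

end Pool.Agent.MP_67f0e4_gt.R48
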