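import Pool.Agent.MP_67f0e4_gt.R48.Plane
import Pool.Agent.MP_67f0e4_gt.B.Kit

/-! Flows on the plane are radial. -/

namespace Pool.Agent.MP_67f0e4_gt.R48

open Set Filter Topology Metric K
open scoped ContDiff

noncomputable section

lemma slice_has {F : ℝ × ℝ → ℝ} {S : Set ℝ} (hF : ContDiffOn ℝ ∞ F (univ ×ˢ S)) (s : ℝ) {t : ℝ}
    (ht : t ∈ S) : HasDerivAt (fun s => F (s, t)) (fderivWithin ℝ F (univ ×ˢ S) (s, t) (1, 0)) s :=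
  (hF.differentiableOn (by simp) (s, t) ⟨mem_univ _, ht⟩).hasFDerivWithinAt.comp_hasDerivAt s
    ((hasDerivAt_id s).prodMk (hasDerivAt_const s t))
    (Eventually.of_forall fun _ => mk_mem_prod (mem_univ _) ht)

variable {u : ℝ → ℝ → ℝ} {τ : ℝ}

lemma UJ_succ (u : ℝ → ℝ → ℝ) (i : ℕ) (s t : ℝ) :
    UJ u (i + 1) s t = deriv (fun s => UJ u i s t) s := by
  simp only [UJ, iteratedDeriv_succ]

lemma UJ_sm (hτ : 0 < τ) (h : ContDiffOn ℝ ∞ (fun q : ℝ × ℝ => u q.1 q.2) (univ ×ˢ Icc 0 τ))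
    (i : ℕ) : ContDiffOn ℝ ∞ (fun q : ℝ × ℝ => UJ u i q.1 q.2) (univ ×ˢ Icc 0 τ) := by
  induction i with
  | zero => exact h
  | succ i ih =>
    refine ((ih.fderivWithin (uniqueDiffOn_univ.prod (uniqueDiffOn_Icc hτ)) (m := ∞)
      (by simp)).clm_apply (contDiffOn_const (c := ((1 : ℝ), (0 : ℝ))))).congr fun q hq => ?_
    rw [UJ_succ]
    exact (slice_has ih q.1 hq.2).deriv

lemma UJ_ds (hτ : 0 < τ) (h : ContDiffOn ℝ ∞ (fun q : ℝ × ℝ => u q.1 q.2) (univ ×ˢ Icc 0 τ))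
    {t : ℝ} (ht : t ∈ Icc 0 τ) (i : ℕ) (s : ℝ) :
    HasDerivAt (fun s => UJ u i s t) (UJ u (i + 1) s t) s := by
  rw [UJ_succ]
  exact (slice_has (UJ_sm hτ h i) s ht).differentiableAt.hasDerivAt

lemma u_slice (h : ContDiffOn ℝ ∞ (fun q : ℝ × ℝ => u q.1 q.2) (univ ×ˢ Icc 0 τ))
    {t : ℝ} (ht : t ∈ Icc 0 τ) : ContDiff ℝ ∞ fun s => u s t :=
  contDiffOn_univ.mp (h.comp (f := fun s : ℝ => (s, t))
    (contDiff_id.prodMk contDiff_const).contDiffOn fun _ _ => ⟨mem_univ _, ht⟩)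

lemma nice_Icc (hτ : 0 < τ) : B.Nice (Icc 0 τ) :=
  ⟨uniqueDiffOn_Icc hτ, by rw [interior_Icc, closure_Ioo hτ.ne]⟩

lemma ru_eq (φ : ℝ → C3 → ℝ) (s t : ℝ) :
    ru φ s t = φ t (N0 (((Real.exp (s / 2) : ℝ) : ℂ), 0)) := by simp [ru, N0]

lemma dq_ax (r : ℝ) : dq 1 1 0 ((r : ℂ), 0) = r ^ 2 := by rw [dq_eq]; simp

lemma exp_half (s : ℝ) : Real.exp (s / 2) ^ 2 = Real.exp s := by
  rw [sq, ← Real.exp_add, add_halves]

/-- a smooth radial flow on the plane -/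
structure Pl (τ : ℝ) (φ : ℝ → C3 → ℝ) : Prop where
  τ0 : 0 < τ
  ps : PSI1
  fl : XFlow (Xs a0) (psi a0) (Icc 0 τ) φ
  rad : ∀ t ∈ Icc 0 τ, ∀ p ∈ Xs a0, 0 < psi a0 p → φ t p = ru φ (Real.log (psi a0 p)) t

variable {φ : ℝ → C3 → ℝ}

lemma ru_sm (h : XFlow (Xs a0) (psi a0) (Icc 0 τ) φ) :
    ContDiffOn ℝ ∞ (fun q : ℝ × ℝ => ru φ q.1 q.2) (univ ×ˢ Icc 0 τ) := by
  simp only [ru_eq]
  refine ContDiffOn.comp (g := fun q : ℝ × V => (φ q.1 ∘ N0) q.2)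
    (f := fun q : ℝ × ℝ => (q.2, (((Real.exp (q.1 / 2) : ℝ) : ℂ), (0 : ℂ))))
    (h N0 univ par_N0).sm (ContDiff.contDiffOn ?_) fun q hq => ⟨hq.2, mem_univ _⟩
  exact contDiff_snd.prodMk ((Complex.ofRealCLM.contDiff.comp
    (Real.contDiff_exp.comp (contDiff_fst.div_const 2))).prodMk contDiff_const)

lemma Pl.ds (P : Pl τ φ) {t : ℝ} (ht : t ∈ Icc 0 τ) (i : ℕ) (s : ℝ) :
    HasDerivAt (fun s => UJ (ru φ) i s t) (UJ (ru φ) (i + 1) s t) s :=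
  UJ_ds P.τ0 (ru_sm P.fl) ht i s

lemma Pl.lv0 (P : Pl τ φ) {t : ℝ} (ht : t ∈ Icc 0 τ) {r : ℝ} (hr : 0 < r) :
    lv (φ t ∘ N0) ((r : ℂ), 0) = ![4 * UJ (ru φ) 2 (Real.log (r ^ 2)) t / r ^ 2,
      4 * UJ (ru φ) 1 (Real.log (r ^ 2)) t / r ^ 2, 0, 0] := by
  have h1 : ∀ᶠ y in 𝓝 (((r : ℂ), (0 : ℂ)) : V), 0 < dq 1 1 0 y :=
    (dq_sm 1 1 0).continuous.continuousAt.eventually (lt_mem_nhds (by rw [dq_ax]; positivity))
  have h2 := lv_rad (y := ((r : ℂ), 0)) rfl (Complex.ofReal_ne_zero.mpr hr.ne') (P.ds ht 0)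
    (P.ds ht 1 _)
  rw [dq_ax, Complex.norm_real, Real.norm_eq_abs, sq_abs] at h2
  refine (lv_congr (h1.mono fun y hy => ?_)).trans h2
  rw [Function.comp, P.rad t ht _ (par_N0.mem (mem_univ y)) (by rwa [psi_N0 P.ps]), psi_N0 P.ps]
  rfl

lemma Pl.lvs (P : Pl τ φ) {t : ℝ} (ht : t ∈ Icc 0 τ) (s : ℝ) :
    lv (φ t ∘ N0) (((Real.exp (s / 2) : ℝ) : ℂ), 0) =
      ![4 * UJ (ru φ) 2 s t / Real.exp s, 4 * UJ (ru φ) 1 s t / Real.exp s, 0, 0] := by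
  rw [P.lv0 ht (Real.exp_pos _), exp_half, Real.log_exp]

lemma Pl.pos (P : Pl τ φ) {t : ℝ} (ht : t ∈ Icc 0 τ) (s : ℝ) :
    0 < UJ (ru φ) 1 s t ∧ 0 < UJ (ru φ) 2 s t := by
  have h := (P.fl N0 univ par_N0).pos t ht (((Real.exp (s / 2) : ℝ) : ℂ), 0) (mem_univ _)
  rw [P.lvs ht] at h
  have h0 := h.g0
  have h1 := h.g1
  simp only [Matrix.cons_val] at h0 h1
  rw [div_pos_iff_of_pos_right (Real.exp_pos s)] at h0 h1
  constructor <;> linarith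

lemma Pl.dt (P : Pl τ φ) (s : ℝ) {t : ℝ} (ht : t ∈ Ioo 0 τ) : HasDerivAt (UJ (ru φ) 0 s)
    (Real.log (UJ (ru φ) 1 s t * UJ (ru φ) 2 s t) - 2 * s) t := by
  have ht' := Ioo_subset_Icc_self ht
  have h := ((P.fl N0 univ par_N0).eq t ht' (((Real.exp (s / 2) : ℝ) : ℂ), 0)
    (mem_univ _)).hasDerivAt (Icc_mem_nhds ht.1 ht.2)
  have e : UJ (ru φ) 0 s = fun t => (φ t ∘ N0) (((Real.exp (s / 2) : ℝ) : ℂ), 0) :=
    funext fun t => ru_eq φ s t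
  rw [e]
  refine h.congr_deriv ?_
  obtain ⟨h1, h2⟩ := P.pos ht' s
  rw [P.lvs ht', show psi a0 ∘ N0 = dq 1 1 0 from funext (psi_N0 P.ps), lv_dq]
  simp only [hdet, Matrix.cons_val]
  have he := Real.exp_pos s
  simp only [ne_eq, OfNat.ofNat_ne_zero, not_false_eq_true, zero_pow, sub_zero]
  rw [← Real.log_div (by positivity) (by norm_num), ← Real.log_exp (2 * s),
    ← Real.log_div (by positivity) (Real.exp_pos _).ne', two_mul, Real.exp_add]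
  congr 1
  field_simp

lemma Pl.chart (P : Pl τ φ) {t : ℝ} (ht : t ∈ Icc 0 τ) (w : ℂ) (κ ρ : ℝ) (y : V) :
    φ t (N0 (Tc w κ ρ y)) = ru φ (sig (2 * w.re) κ ρ y) t := by
  have e : psi a0 (N0 (Tc w κ ρ y)) = Real.exp (sig (2 * w.re) κ ρ y) := by
    rw [psi_N0 P.ps, dq_Tc]
  rw [P.rad t ht _ (par_N0.mem (mem_univ _)) (e ▸ Real.exp_pos _), e, Real.log_exp]

/-- comparability at the level `s` -/
def Cmp (τ : ℝ) (U : ℕ → ℝ → ℝ → ℝ) (k s : ℝ) : Prop :=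
  ∀ t ∈ Icc 0 τ, |U 3 s t| * (lam s + 6) ≤ k * U 2 s t ∧
    ∀ t' ∈ Icc 0 τ, U 1 s t ≤ k * U 1 s t' ∧ U 2 s t ≤ k * U 2 s t'

lemma bdd_pos {f : ℝ × ℝ → ℝ} {S : Set (ℝ × ℝ)} (hS : IsCompact S) (hf : ContinuousOn f S)
    (h : ∀ q ∈ S, 0 < f q) : ∃ M, 1 ≤ M ∧ ∀ q ∈ S, f q ≤ M ∧ 1 ≤ M * f q := by
  obtain ⟨M, hM⟩ := hS.exists_bound_of_continuousOn hf
  obtain ⟨M', hM'⟩ := hS.exists_bound_of_continuousOn (hf.inv₀ fun q hq => (h q hq).ne')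
  refine ⟨1 + |M| + |M'|, by linarith [abs_nonneg M, abs_nonneg M'], fun q hq => ⟨?_, ?_⟩⟩
  · linarith [le_abs_self (f q), (hM q hq).trans (le_abs_self M), abs_nonneg M',
      Real.norm_eq_abs (f q)]
  · rw [← div_le_iff₀ (h q hq), one_div]
    have h1 : |(f q)⁻¹| ≤ M' := hM' q hq
    linarith [le_abs_self (f q)⁻¹, le_abs_self M', abs_nonneg M]

lemma cmp_w {x x' w M : ℝ} (hw : 0 < w) (hM : 0 ≤ M) (h1 : w * x ≤ M) (h2 : 1 ≤ M * (w * x')) :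
    x ≤ M ^ 2 * x' := by
  refine le_of_mul_le_mul_left (h1.trans ?_) hw
  linarith [mul_le_mul_of_nonneg_left h2 hM]

lemma Pl.near (P : Pl τ φ) (R : ℝ) :
    ∃ k, ∀ s, Real.exp (s / 2) ≤ R → Cmp τ (UJ (ru φ)) k s := by
  have F := P.fl N0 univ par_N0
  have hN := nice_Icc P.τ0
  have cp : ∀ {f : B.Fn}, Sm (Icc 0 τ) univ f →
      ContinuousOn (fun q : ℝ × ℝ => f q.1 ((q.2 : ℂ), 0)) (Icc 0 τ ×ˢ Icc 0 R) := fun {f} hf =>
    hf.continuousOn.comp (f := fun q : ℝ × ℝ => (q.1, ((q.2 : ℂ), (0 : ℂ)))) (by fun_prop)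
      fun q hq => ⟨hq.1, mem_univ _⟩
  have hK : IsCompact (Icc 0 τ ×ˢ Icc 0 R) := isCompact_Icc.prod isCompact_Icc
  have s0 := B.kit_smGm hN isOpen_univ F.sm 0
  obtain ⟨M0, a0, h0⟩ := bdd_pos hK (cp s0) fun q hq => (F.pos _ hq.1 _ (mem_univ _)).g0
  obtain ⟨M1, a1, h1⟩ := bdd_pos hK (cp (B.kit_smGm hN isOpen_univ F.sm 1))
    fun q hq => (F.pos _ hq.1 _ (mem_univ _)).g1
  obtain ⟨M2, h2⟩ := hK.exists_bound_of_continuousOn (cp (B.kit_smDx hN isOpen_univ s0 0))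
  refine ⟨M0 ^ 2 + M1 ^ 2 + (1 + |M2| * |R| * M0) * (R ^ 2 + 6), fun s hs t ht => ?_⟩
  have hr := Real.exp_pos (s / 2)
  have he := Real.exp_pos s
  have hw : 0 < 4 / Real.exp s := by positivity
  have g : ∀ t ∈ Icc 0 τ, (4 / Real.exp s * UJ (ru φ) 2 s t ≤ M0 ∧
      1 ≤ M0 * (4 / Real.exp s * UJ (ru φ) 2 s t)) ∧ 4 / Real.exp s * UJ (ru φ) 1 s t ≤ M1 ∧
      1 ≤ M1 * (4 / Real.exp s * UJ (ru φ) 1 s t) := fun t ht => by
    have e0 := h0 (t, Real.exp (s / 2)) ⟨ht, hr.le, hs⟩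
    have e1 := h1 (t, Real.exp (s / 2)) ⟨ht, hr.le, hs⟩
    dsimp only [B.Gm] at e0 e1
    rw [P.lvs ht] at e0 e1
    simp only [div_mul_eq_mul_div]
    exact ⟨e0, e1⟩
  have k3 : 0 ≤ (1 + |M2| * |R| * M0) * (R ^ 2 + 6) := by positivity
  obtain ⟨-, p2⟩ := P.pos ht s
  refine ⟨?_, fun t' ht' => ⟨(cmp_w hw (by linarith) (g t ht).2.1 (g t' ht').2.2).trans
    (mul_le_mul_of_nonneg_right (by linarith [sq_nonneg M0]) (P.pos ht' s).1.le),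
    (cmp_w hw (by linarith) (g t ht).1.1 (g t' ht').1.2).trans
    (mul_le_mul_of_nonneg_right (by linarith [sq_nonneg M1]) (P.pos ht' s).2.le)⟩⟩
  set r := Real.exp (s / 2) with hr'
  have es : Real.log (r ^ 2) = s := by rw [hr', exp_half, Real.log_exp]
  have d1 : HasDerivAt (fun x : ℝ => Real.log (x ^ 2)) (2 / r) r :=
    ((hasDerivAt_pow 2 r).log (by positivity)).congr_deriv (by field_simp; ring)
  have d2 := (((P.ds ht 2 (Real.log (r ^ 2))).comp r d1).const_mul 4).div (hasDerivAt_pow 2 r)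
    (by positivity)
  have d3 := D_axis (f := fun y => lv (φ t ∘ N0) y 0)
    ((lv_entry (F.sm.at isOpen_univ ht (mem_univ _)) 0).differentiableAt (by simp))
    ((lt_mem_nhds hr).mono fun x hx => by rw [P.lv0 ht hx]; rfl) d2
  have e2 : |D (e 0) (fun y => lv (φ t ∘ N0) y 0) ((r : ℂ), 0)| ≤ M2 := h2 (t, r) ⟨ht, hr.le, hs⟩
  have e3 : UJ (ru φ) 3 s t = UJ (ru φ) 2 s t +
      D (e 0) (fun y => lv (φ t ∘ N0) y 0) ((r : ℂ), 0) * (r * r ^ 2 / 8) := by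
    rw [d3]; simp only [Function.comp, es]; field_simp; ring
  have e4 : r ^ 2 / 8 ≤ M0 * UJ (ru φ) 2 s t := by
    have e5 := (g t ht).1.2
    rw [← exp_half, ← hr', ← mul_assoc, ← mul_div_assoc, div_mul_eq_mul_div,
      le_div_iff₀ (by positivity)] at e5
    nlinarith [mul_pos (one_pos.trans_le a0) p2]
  have e5 : |UJ (ru φ) 3 s t| ≤ (1 + |M2| * |R| * M0) * UJ (ru φ) 2 s t := by
    rw [e3]
    refine (abs_add_le _ _).trans ?_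
    rw [abs_of_pos p2, abs_mul, abs_of_pos (by positivity : 0 < r * r ^ 2 / 8), mul_div_assoc]
    have e6 := mul_le_mul (e2.trans (le_abs_self M2)) (mul_le_mul (hs.trans (le_abs_self R)) e4
      (by positivity) (abs_nonneg R)) (by positivity) (abs_nonneg M2)
    linarith
  have e6 : lam s + 6 ≤ R ^ 2 + 6 := by
    have := pow_le_pow_left₀ hr.le hs 2
    rw [hr', exp_half] at this
    linarith [lam_le_exp s]
  have e7 := mul_le_mul e5 e6 (by linarith [lam_pos s]) (by positivity)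
  nlinarith [mul_nonneg (add_nonneg (sq_nonneg M0) (sq_nonneg M1)) p2.le]

lemma Pl.far (P : Pl τ φ) {F : Fam (Xs a0)} (G : F.GFlow (psi a0) τ φ) {ρ Ξ : ℝ} (hρ : 0 < ρ)
    (hS : Fam.Shape a0 F ρ Ξ) :
    ∃ R k, ∀ s, R < Real.exp (s / 2) → Cmp τ (UJ (ru φ)) k s := by
  obtain ⟨K, hK, -, hsh⟩ := hS
  obtain ⟨R, hR⟩ := hK.isBounded.exists_norm_le
  obtain ⟨Λ, hΛ⟩ := G.2.1
  obtain ⟨M, hM⟩ := G.2.2 1
  refine ⟨R, Λ ^ 2 + 9 / ρ * (|M| * |Λ|), fun s hs => ?_⟩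
  obtain ⟨i, hi⟩ := F.sur _ (par_N0.mem (mem_univ ((((Real.exp (s / 2) : ℝ) : ℂ), (0 : ℂ)) : V)))
  obtain h | ⟨w, ξ, hw, -, h | h⟩ := hsh i
  · have h1 := (norm_fst_le _).trans (hR _ (hi ▸ h))
    simp only [N0, Complex.norm_real, Real.norm_eq_abs, Real.abs_exp] at h1
    linarith
  swap
  · have h1 := congrArg (fun p : C3 => p.2.1) ((h 0).symm.trans hi)
    exact absurd h1 (Complex.exp_ne_zero _)
  have h1 := (h 0).symm.trans hi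
  have hξ : ξ = 0 := by simpa [cov, N0] using congrArg (fun p : C3 => p.2.2) h1
  have hws : 2 * w.re = s := by
    have h2 := congrArg (fun p : C3 => ‖p.1‖) h1
    simp only [cov, N0, Complex.norm_exp, Complex.norm_real, Real.norm_eq_abs, Real.abs_exp,
      Real.exp_eq_exp] at h2
    simp at h2
    linarith
  subst hξ
  set κ := ρ * w.re with hκ
  have κ0 : 0 < κ := mul_pos hρ (by linarith)
  have ch : ∀ t ∈ Icc 0 τ, φ t ∘ F.Φ i = fun y => UJ (ru φ) 0 (sig s κ ρ y) t := fun t ht =>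
    funext fun y => by rw [Function.comp, h y, cov_Tc, P.chart ht, hws]; rfl
  have b0 : (0 : V) ∈ ball (0 : V) 1 := mem_ball_self one_pos
  have g : ∀ t ∈ Icc 0 τ, 0 < Λ ∧ (4 * κ ^ 2 * UJ (ru φ) 2 s t ≤ Λ ∧
      1 ≤ Λ * (4 * κ ^ 2 * UJ (ru φ) 2 s t)) ∧ 4 * ρ ^ 2 * UJ (ru φ) 1 s t ≤ Λ ∧
      1 ≤ Λ * (4 * ρ ^ 2 * UJ (ru φ) 1 s t) := fun t ht => by
    have e0 := hΛ t ht i 0 b0
    rw [ch t ht, lv_sig_comp (y := 0) rfl (P.ds ht 0) (P.ds ht 1 _), sig_axis _ _ _ rfl] at e0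
    have e1 := e0.2 (e 0)
    have e2 := e0.2 (e 2)
    rw [qf, bf00, norm_e] at e1
    rw [qf, bf22, norm_e] at e2
    simp only [Matrix.cons_val, Prod.fst_zero, Complex.zero_re, mul_zero, add_zero, one_pow,
      mul_one] at e1 e2
    exact ⟨e0.1, e1.symm, e2.symm⟩
  intro t ht
  have k3 : 0 ≤ 9 / ρ * (|M| * |Λ|) := by positivity
  obtain ⟨Λ0, ⟨-, a2⟩, -⟩ := g t ht
  obtain ⟨-, p2⟩ := P.pos ht s
  refine ⟨?_, fun t' ht' => ⟨(cmp_w (by positivity) Λ0.le (g t ht).2.2.1 (g t' ht').2.2.2).trans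
    (mul_le_mul_of_nonneg_right (by linarith) (P.pos ht' s).1.le),
    (cmp_w (by positivity) Λ0.le (g t ht).2.1.1 (g t' ht').2.1.2).trans
    (mul_le_mul_of_nonneg_right (by linarith) (P.pos ht' s).2.le)⟩⟩
  have e1 := hM t ht i (List.replicate 1 0) (by simp) 0 0 b0
  have e2 := DL_sig (g := fun i s => UJ (ru φ) i s t) (P.ds ht) (u_slice (ru_sm P.fl) ht) s κ ρ 1 0
  rw [ch t ht, show (0 : V) = (((0 : ℝ) : ℂ), 0) from rfl, e2, abs_mul,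
    abs_of_pos (by positivity), mul_zero, add_zero, pow_one] at e1
  have e3 : lam s + 6 ≤ 9 / ρ * κ := by
    have e4 : 9 / ρ * κ = 9 * w.re := by rw [hκ]; field_simp
    have e5 : Real.exp (-s) ≤ 1 := Real.exp_le_one_iff.mpr (by linarith)
    linarith [lam_neg s, lam_le_exp (-s)]
  have e4 : |UJ (ru φ) 3 s t| * κ ≤ |M| * |Λ| * UJ (ru φ) 2 s t := by
    refine le_of_mul_le_mul_left ?_ (by positivity : 0 < 4 * κ ^ 2)
    have e5 := mul_le_mul_of_nonneg_left a2 (abs_nonneg M)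
    have e6 : 0 ≤ 4 * κ ^ 2 * (|UJ (ru φ) 3 s t| * κ) := by positivity
    rw [abs_of_pos Λ0]
    linarith [le_abs_self M]
  have e5 := mul_le_mul_of_nonneg_left e3 (abs_nonneg (UJ (ru φ) 3 s t))
  have e6 := mul_le_mul_of_nonneg_left e4 (by positivity : 0 ≤ 9 / ρ)
  nlinarith [mul_nonneg (sq_nonneg Λ) p2.le]

theorem rad1 : rRAD1 := by
  intro hS _ F U0 C τ hτ φ G h0
  have P : Pl τ φ := ⟨hτ.1, C.psi1, G.1, fun t ht p hp hp0 =>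
    radial C.psi1 (fun σ hσ => hS _ _ F τ φ σ hτ.1 C.geo.mpx C.geo.pot.rf G hσ
      (fun p hp => by rw [h0 _ (hσ.1 hp), h0 p hp, hσ.2.2 p hp]) t ht) hp hp0⟩
  have z : (0 : ℝ) ∈ Icc 0 τ := ⟨le_rfl, hτ.1.le⟩
  have i1 : ∀ s, UJ (ru φ) 1 s 0 = p0 6 s := fun s => by
    refine (P.ds z 0 s).unique ((C.ini.2.2 s).congr_of_eventuallyEq (Eventually.of_forall
      fun x => ?_))
    change ru φ x 0 = _
    rw [ru_eq, h0 _ (par_N0.mem (mem_univ _)), psi_N0 C.psi1, dq_ax, exp_half]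
  have i2 : ∀ s, UJ (ru φ) 2 s 0 = th0 6 s := fun s =>
    (P.ds z 1 s).unique ((d_p0 (by norm_num) s).congr_of_eventuallyEq (Eventually.of_forall i1))
  refine ⟨ru_sm G.1, ⟨fun i _ s t ht => P.ds ht i s,
    fun i _ => (UJ_sm hτ.1 (ru_sm G.1) i).continuousOn, fun s t ht => P.dt s ht, i1, ?_⟩, P.rad⟩
  obtain ⟨ρ, hρ, Ξ, hs⟩ := C.shape
  obtain ⟨R, k1, h1⟩ := P.far G hρ.1 hs
  obtain ⟨k2, h2⟩ := P.near R
  refine ⟨max 1 (max k1 k2), le_max_left _ _, fun s t ht => ?_⟩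
  obtain ⟨k, hk, h⟩ : ∃ k, k ≤ max 1 (max k1 k2) ∧ Cmp τ (UJ (ru φ)) k s := by
    rcases lt_or_ge R (Real.exp (s / 2)) with h | h
    · exact ⟨k1, (le_max_left _ _).trans (le_max_right _ _), h1 s h⟩
    · exact ⟨k2, (le_max_right _ _).trans (le_max_right _ _), h2 s h⟩
  rw [← i1, ← i2]
  exact ⟨((h 0 z).2 t ht).1.trans (mul_le_mul_of_nonneg_right hk (P.pos ht s).1.le),
    ((h t ht).2 0 z).1.trans (mul_le_mul_of_nonneg_right hk (P.pos z s).1.le),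
    ((h 0 z).2 t ht).2.trans (mul_le_mul_of_nonneg_right hk (P.pos ht s).2.le),
    ((h t ht).2 0 z).2.trans (mul_le_mul_of_nonneg_right hk (P.pos z s).2.le),
    (h t ht).1.trans (mul_le_mul_of_nonneg_right hk (P.pos ht s).2.le)⟩

end

end Pool.Agent.MP_67f0e4_gt.R48
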