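import Pool.Agent.MP_67f0e4_gt.R48.Cyl
import Pool.Agent.MP_67f0e4_gt.K.Spec

/-! The estimates in the form of the master specification. -/

namespace Pool.Agent.MP_67f0e4_gt.R48

open Set Filter Topology

variable {τ : ℝ} {U : ℕ → ℝ → ℝ → ℝ}

lemma Rad.pe_eq (R : Rad 6 τ U) (s : ℝ) {t : ℝ} (ht : t ∈ Icc 0 τ) :
    U 1 s t * Real.exp (-s) = Real.exp (-(s - Real.log (U 1 s t))) := by
  rw [neg_sub, Real.exp_sub, Real.exp_log (R.p_pos (by norm_num) s ht), Real.exp_neg,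
    div_eq_mul_inv]

lemma Rad.pe_le (R : Rad 6 τ U) (s : ℝ) {t : ℝ} (ht : t ∈ Icc 0 τ) :
    U 1 s t * Real.exp (-s) ≤ Real.exp (-1 / (1 - 2 * t)) := by
  rw [R.pe_eq s ht, neg_div]
  exact Real.exp_le_exp.mpr (neg_le_neg ((one_div_le_one_div_of_le (R.z_pos le_rfl s ht)
    (R.z_lt le_rfl s ht).le).trans ((div_le_iff₀' (R.z_pos le_rfl s ht)).mpr (R.zS_ge le_rfl s ht))))

lemma Rad.le_kc (R : Rad 6 τ U) (s : ℝ) {t : ℝ} (ht : t ∈ Icc 0 τ) :
    U 1 s t * Real.exp (-s) ≤ K.cc U t :=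
  le_ciSup (f := fun s => U 1 s t * Real.exp (-s))
    ⟨_, forall_mem_range.mpr fun s => R.pe_le s ht⟩ s

lemma Rad.kc_pos (R : Rad 6 τ U) {t : ℝ} (ht : t ∈ Icc 0 τ) : 0 < K.cc U t :=
  (mul_pos (R.p_pos (by norm_num) 0 ht) (Real.exp_pos _)).trans_le (R.le_kc 0 ht)

lemma Rad.p_le_kc (R : Rad 6 τ U) (s : ℝ) {t : ℝ} (ht : t ∈ Icc 0 τ) :
    U 1 s t ≤ K.cc U t * Real.exp s := by
  have h := R.le_kc s ht
  rwa [Real.exp_neg, ← div_eq_mul_inv, div_le_iff₀ (Real.exp_pos s)] at h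

lemma Rad.log_kc (R : Rad 6 τ U) (s : ℝ) {t : ℝ} (ht : t ∈ Icc 0 τ) :
    0 ≤ Real.log (K.cc U t) + s - Real.log (U 1 s t) ∧
    Real.log (K.cc U t) + s - Real.log (U 1 s t) ≤ 9 * (U 1 s t / zz U s t ^ 2) := by
  have h1 := R.le_kc s ht
  rw [R.pe_eq s ht, ← Real.le_log_iff_exp_le (R.kc_pos ht)] at h1
  have h2 : K.cc U t ≤ Real.exp (9 * (U 1 s t / zz U s t ^ 2) - (s - Real.log (U 1 s t))) := by
    refine ciSup_le fun s' => ?_
    rw [R.pe_eq s' ht]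
    refine Real.exp_le_exp.mpr ?_
    rcases le_total s' s with h | h
    · linarith [R.S_osc le_rfl h ht]
    · have e1 := R.S_mono le_rfl ht h
      have e2 := div_pos (R.p_pos (by norm_num) s ht) (pow_pos (R.z_pos le_rfl s ht) 2)
      simp only at e1
      linarith
  rw [← Real.log_le_iff_le_exp (R.kc_pos ht)] at h2
  constructor <;> linarith

lemma Rad.kc_exp (R : Rad 6 τ U) (s : ℝ) {t κ : ℝ} (ht : t ∈ Icc 0 τ)
    (h : U 1 s t / zz U s t ^ 2 ≤ κ) : Real.exp (-(9 * κ)) * (K.cc U t * Real.exp s) ≤ U 1 s t := by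
  rw [← Real.exp_log (R.kc_pos ht), ← Real.exp_add, ← Real.exp_add,
    ← Real.le_log_iff_exp_le (R.p_pos (by norm_num) s ht)]
  linarith [(R.log_kc s ht).2]

lemma Rad.kc_lin (R : Rad 6 τ U) (s : ℝ) {t κ : ℝ} (ht : t ∈ Icc 0 τ)
    (h : U 1 s t / zz U s t ^ 2 ≤ κ) : (1 - 9 * κ) * (K.cc U t * Real.exp s) ≤ U 1 s t :=
  le_trans (mul_le_mul_of_nonneg_right (by linarith [Real.add_one_le_exp (-(9 * κ))])
    (mul_pos (R.kc_pos ht) (Real.exp_pos s)).le) (R.kc_exp s ht h)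

/-- the surrogate scale converges to the true one -/
lemma Rad.cc_kc (R : Rad 6 τ U) (s₁ : ℝ) {t : ℝ} (ht : t ∈ Icc 0 τ) :
    |Real.log (cc U s₁ t) - Real.log (K.cc U t)| ≤ 18 * Real.exp s₁ := by
  have hz := R.z_pos le_rfl s₁ ht
  have h1 := (R.p_exp le_rfl s₁ ht).trans (mul_le_mul_of_nonneg_left (exp_inv_le hz 2)
    (Real.exp_pos s₁).le)
  have h2 : U 1 s₁ t / zz U s₁ t ^ 2 ≤ 2 * Real.exp s₁ := by
    rw [div_le_iff₀ (pow_pos hz 2)]
    refine h1.trans (le_of_eq ?_)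
    simp only [Nat.factorial]; push_cast; ring
  obtain ⟨a1, a2⟩ := R.cc_p le_rfl (le_refl s₁) ht
  obtain ⟨a3, a4⟩ := R.log_kc s₁ ht
  rw [abs_le]; constructor <;> linarith

lemma le_of_exp {x y c : ℝ} (h : ∀ s ≤ 0, x ≤ y + c * Real.exp s) : x ≤ y := by
  have h1 : Tendsto (fun s => y + c * Real.exp s) atBot (𝓝 (y + c * 0)) :=
    (Real.tendsto_exp_atBot.const_mul c).const_add y
  rw [mul_zero, add_zero] at h1
  exact ge_of_tendsto h1 ((eventually_le_atBot 0).mono h)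

lemma Rad.kc_mono (R : Rad 6 τ U) {t t' : ℝ} (ht : t ∈ Icc 0 τ) (ht' : t' ∈ Icc 0 τ) (h : t' ≤ t) :
    |Real.log (K.cc U t) - Real.log (K.cc U t')| ≤ 324 * (t - t') / (1 - 2 * t) ^ 2 := by
  have ha := R.t_lt le_rfl ht
  have ha' := R.t_lt le_rfl ht'
  have e : 18 * (6 + 3) / (1 - 2 * t) - 18 * (6 + 3) / (1 - 2 * t') ≤
      324 * (t - t') / (1 - 2 * t) ^ 2 := by
    have e1 : 18 * (6 + 3) / (1 - 2 * t) - 18 * (6 + 3) / (1 - 2 * t') =
        324 * (t - t') / ((1 - 2 * t) * (1 - 2 * t')) := by field_simp; ring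
    rw [e1, sq]
    exact div_le_div_of_nonneg_left (by linarith) (mul_pos ha ha)
      (mul_le_mul_of_nonneg_left (by linarith) ha.le)
  have e0 : 0 ≤ 324 * (t - t') / (1 - 2 * t) ^ 2 := div_nonneg (by linarith) (sq_nonneg _)
  refine le_of_exp (c := 36) fun s hs => ?_
  obtain ⟨a1, a2⟩ := R.cc_mono le_rfl hs ht' ht h
  have a3 := Real.log_le_log (R.cc_pos le_rfl s ht) a1
  obtain ⟨a4, a5⟩ := abs_le.mp (R.cc_kc s ht)
  obtain ⟨a6, a7⟩ := abs_le.mp (R.cc_kc s ht')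
  rw [abs_le]; constructor <;> linarith

lemma Rad.kc_ge (R : Rad 6 τ U) {t : ℝ} (ht : t ∈ Icc 0 τ) :
    Real.exp (-(162 / (1 - 2 * t))) ≤ K.cc U t := by
  obtain ⟨ξ, -, e⟩ := R.cc_eq 0 ht
  have h := R.cc_ge le_rfl (le_refl 0) ht
  rw [e, div_eq_mul_inv (U 1 ξ t), ← Real.exp_neg] at h
  norm_num at h ⊢
  exact h.trans (R.le_kc ξ ht)

/-- lower bound of `p` -/
noncomputable def K1 (t1 s0 : ℝ) : ℝ :=
  2 / (1 - 2 * t1) ^ 2 + Real.exp (162 / (1 - 2 * t1) + |s0| + 18)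

lemma K1_pos (t1 s0 : ℝ) : 0 < K1 t1 s0 := by rw [K1]; positivity

lemma Rad.K1_kc (R : Rad 6 τ U) {t1 t : ℝ} (h1 : τ ≤ t1) (h2 : t1 < 1 / 2) (ht : t ∈ Icc 0 τ) :
    1 ≤ Real.exp (162 / (1 - 2 * t1)) * K.cc U t := by
  have e1 : 162 / (1 - 2 * t) ≤ 162 / (1 - 2 * t1) :=
    div_le_div_of_nonneg_left (by norm_num) (by linarith) (by linarith [ht.2])
  refine le_trans ?_ (mul_le_mul_of_nonneg_left (R.kc_ge ht) (Real.exp_pos _).le)
  rw [← Real.exp_add]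
  exact Real.one_le_exp (by linarith)

lemma Rad.K1_p (R : Rad 6 τ U) {t1 s0 s t : ℝ} (h1 : τ ≤ t1) (h2 : t1 < 1 / 2) (ht : t ∈ Icc 0 τ)
    (hs : s0 ≤ s) : 1 ≤ K1 t1 s0 * U 1 s t := by
  have hp := R.p_pos (by norm_num) s ht
  have ha : 0 < 1 - 2 * t1 := by linarith
  rw [K1, add_mul]
  rcases le_total (U 1 s t) (1 / 2 * (1 - 2 * t) ^ 2) with h | h
  · have e1 := R.kc_exp s ht (R.inner le_rfl ht le_rfl h).2
    have e2 := mul_le_mul_of_nonneg_left e1 (Real.exp_pos (162 / (1 - 2 * t1) + |s0| + 18)).le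
    have e3 : Real.exp (162 / (1 - 2 * t1) + |s0| + 18) *
        (Real.exp (-(9 * (4 * (1 / 2)))) * (K.cc U t * Real.exp s)) =
        Real.exp (162 / (1 - 2 * t1)) * K.cc U t * Real.exp (|s0| + s) := by
      rw [show 162 / (1 - 2 * t1) + |s0| + 18 = 162 / (1 - 2 * t1) + (|s0| + s) +
        -(-(9 * (4 * (1 / 2)))) + -s by ring, Real.exp_add, Real.exp_add, Real.exp_add,
        Real.exp_neg (-_), Real.exp_neg s]
      field_simp
    have e4 := one_le_mul_of_one_le_of_one_le (R.K1_kc h1 h2 ht)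
      (Real.one_le_exp (by linarith [neg_abs_le s0] : 0 ≤ |s0| + s))
    have e5 : 0 ≤ 2 / (1 - 2 * t1) ^ 2 * U 1 s t := by positivity
    linarith
  · have e1 : 1 ≤ 2 / (1 - 2 * t1) ^ 2 * U 1 s t := by
      rw [div_mul_eq_mul_div, le_div_iff₀ (pow_pos ha 2)]
      linarith [pow_le_pow_left₀ ha.le (by linarith [ht.2] : 1 - 2 * t1 ≤ 1 - 2 * t) 2]
    linarith [mul_pos (Real.exp_pos (162 / (1 - 2 * t1) + |s0| + 18)) hp]

lemma Rad.z_far (R : Rad 6 τ U) {k t : ℝ} (ht : t ∈ Icc 0 τ) (hk : 0 < k)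
    (h : ∀ s, 0 ≤ s → 1 ≤ k * U 1 s t) (s : ℝ) : zz U s t * (1 + max s 0) ≤ k + 9 := by
  have hz := R.z_pos le_rfl s ht
  rcases le_total s 0 with hs | hs
  · rw [max_eq_right hs]; linarith [R.z_le_one le_rfl s ht]
  rw [max_eq_left hs]
  have h1 : MonotoneOn (fun s => (k + 9) * (1 / zz U s t) - s) (Ici 0) := by
    have d : ∀ x, HasDerivAt (fun s => (k + 9) * (1 / zz U s t) - s)
        ((k + 9) * (U 2 x t / zz U x t ^ 2) - 1) x := fun x =>
      ((R.d_zinv le_rfl x ht).const_mul _).sub (hasDerivAt_id x)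
    refine monotoneOn_of_hasDerivWithinAt_nonneg (convex_Ici 0)
      (fun x _ => (d x).continuousAt.continuousWithinAt) (fun x _ => (d x).hasDerivWithinAt)
      fun x hx => sub_nonneg.mpr ?_
    have hp := R.p_pos (by norm_num) x ht
    have hθ := R.th_pos (by norm_num) x ht
    have hz := R.z_pos le_rfl x ht
    have e1 := R.Q_le le_rfl x ht
    have e2 : zz U x t ^ 2 * (1 / U 1 x t) ≤ k :=
      (mul_le_of_le_one_left (by positivity) (pow_le_one₀ hz.le (R.z_le_one le_rfl x ht))).trans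
        ((div_le_iff₀ hp).mpr (h x (interior_subset hx)))
    rw [← mul_div_assoc, le_div_iff₀ (pow_pos hz 2), one_mul, ← div_le_iff₀ hθ, div_eq_mul_one_div]
    linarith
  have h2 := h1 (mem_Ici.mpr le_rfl) hs hs
  have h3 : 1 ≤ 1 / zz U 0 t := (one_le_div (R.z_pos le_rfl 0 ht)).mpr (R.z_le_one le_rfl 0 ht)
  have h4 : 1 + s ≤ (k + 9) * (1 / zz U s t) := by
    simp only at h2
    nlinarith
  rw [mul_one_div, le_div_iff₀' hz] at h4
  exact h4

theorem rest : K.REST := by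
  refine ⟨324, fun ε => min (ε / 80) (1 / 40), fun t1 s0 => K1 t1 s0 + (K1 t1 0 + 9) ^ 2,
    ⟨by norm_num, fun ε hε => lt_min (by linarith) (by norm_num), fun t s => ?_⟩,
    fun τ _ U R => ?_⟩
  · nlinarith [K1_pos t s, K1_pos t 0]
  have h6 : (0 : ℝ) < 6 := by norm_num
  refine ⟨fun s t ht => ⟨R.th_pos h6 s ht, R.m_le le_rfl s ht, R.z_pos le_rfl s ht⟩,
    fun s t ht => R.k_le le_rfl s ht, fun s t ht => ?_, fun s t ht => R.P_le le_rfl s ht,
    fun s t ht => ?_, fun s t ht => ?_, fun s t ht => ?_,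
    fun t ht => ⟨R.kc_pos ht, ciSup_le fun s => R.pe_le s ht⟩, fun s t ht => R.p_le_kc s ht,
    fun s t ht th h1 h2 => ?_, fun s t ht th h0 h1 h2 => ?_,
    fun t ht t' ht' h => R.kc_mono ht ht' h, fun ε hε s s' t ht t' ht' h1 h2 => ?_,
    fun t1 s0 h1 h2 t ht => ⟨?_, fun s hs => ⟨?_, ?_⟩⟩⟩
  · have hθ := R.th_pos h6 s ht
    have h := (R.m_len le_rfl s ht).2
    rw [abs_div, abs_of_pos hθ, div_le_div_iff₀ hθ (R.len_pos le_rfl s ht)] at h
    exact h.trans (by linarith)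
  · rw [le_div_iff₀' (pow_pos (R.z_pos le_rfl s ht) 2)]
    linarith [R.Q_le le_rfl s ht]
  · have hz := R.z_pos le_rfl s ht
    have h1 := (R.p_exp le_rfl s ht).trans (mul_le_mul_of_nonneg_left (exp_inv_le hz 5)
      (Real.exp_pos s).le)
    simp only [Nat.factorial] at h1
    push_cast at h1
    nlinarith [mul_pos (Real.exp_pos s) (pow_pos hz 5)]
  · refine Real.sqrt_le_iff.mpr ⟨by positivity, (R.minv_le' le_rfl s ht).trans ?_⟩
    nlinarith [le_max_right s 0]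
  · have hc := mul_pos (R.kc_pos ht) (Real.exp_pos s)
    have hp := R.p_pos h6 s ht
    have hz := R.z_pos le_rfl s ht
    have e1 := (R.inner le_rfl ht (by linarith) ((R.p_le_kc s ht).trans h2)).2
    have e0 : 0 < th := by linarith [div_pos hp (pow_pos hz 2)]
    have e2 := R.kc_lin s ht e1
    have e3 : (1 - 36 * th) * U 1 s t ≤ U 2 s t := by
      rw [← le_div_iff₀ hp]
      linarith [R.one_sub_m le_rfl s ht,
        div_le_div_of_nonneg_right (R.m_le le_rfl s ht) (sq_nonneg (zz U s t))]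
    have e4 := mul_le_mul_of_nonneg_left (R.p_le_kc s ht) e0.le
    nlinarith [mul_pos e0 hc]
  · by_contra h3
    have e1 := (R.inner (κ := th / 2) (s := s) le_rfl ht (by linarith) (by linarith)).2
    have e2 := R.kc_lin s ht e1
    have hc := mul_pos (R.kc_pos ht) (Real.exp_pos s)
    have e3 := mul_le_mul_of_nonneg_right (by linarith : 1 / 2 ≤ 1 - 9 * (4 * (th / 2))) hc.le
    exact h3 (by linarith)
  · obtain ⟨a1, a2⟩ := R.cyl le_rfl ht ht' (lt_min (by linarith) (by norm_num)) (min_le_right _ _)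
      h1 h2
    have e1 := min_le_left (ε / 80) (1 / 40)
    exact ⟨a2.trans (mul_le_mul_of_nonneg_right (by linarith) (R.th_pos h6 s ht).le),
      a1.trans (mul_le_mul_of_nonneg_right (by linarith) (R.p_pos h6 s ht).le)⟩
  · refine (R.K1_kc h1 h2 ht).trans (mul_le_mul_of_nonneg_right ?_ (R.kc_pos ht).le)
    have e1 : Real.exp (162 / (1 - 2 * t1)) ≤ Real.exp (162 / (1 - 2 * t1) + |s0| + 18) :=
      Real.exp_le_exp.mpr (by linarith [abs_nonneg s0])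
    have e2 : 0 ≤ 2 / (1 - 2 * t1) ^ 2 := by positivity
    have e3 : K1 t1 s0 = 2 / (1 - 2 * t1) ^ 2 + Real.exp (162 / (1 - 2 * t1) + |s0| + 18) := rfl
    linarith [sq_nonneg (K1 t1 0 + 9)]
  · exact (R.K1_p h1 h2 ht hs).trans (mul_le_mul_of_nonneg_right
      (le_add_of_nonneg_right (sq_nonneg _)) (R.p_pos h6 s ht).le)
  · have e1 := R.z_far ht (K1_pos t1 0) (fun s hs => R.K1_p h1 h2 ht hs) s
    have e0 : 0 ≤ 1 + max s 0 := by linarith [le_max_right s 0]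
    have e2 := pow_le_pow_left₀ (mul_nonneg (R.z_pos le_rfl s ht).le e0) e1 2
    have e3 : U 2 s t ≤ zz U s t ^ 2 := by linarith [R.P_le le_rfl s ht, R.th_pos h6 s ht]
    have e4 := mul_le_mul_of_nonneg_right e3 (sq_nonneg (1 + max s 0))
    rw [mul_pow] at e2
    linarith [K1_pos t1 s0]

end Pool.Agent.MP_67f0e4_gt.R48
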