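import Pool.Agent.MP_67f0e4_gt.R48.EstQ

/-! Pointwise consequences of the maximum principles; all constants depend on `β` only. -/

namespace Pool.Agent.MP_67f0e4_gt.R48

open Set Filter Topology

variable {β τ : ℝ} {U : ℕ → ℝ → ℝ → ℝ}

lemma Rad.p_lt (R : Rad β τ U) (hβ : 6 ≤ β) (s : ℝ) {t : ℝ} (ht : t ∈ Icc 0 τ) :
    U 1 s t < 1 - 2 * t := sub_pos.mp (R.z_pos hβ s ht)

lemma Rad.z_lt (R : Rad β τ U) (hβ : 6 ≤ β) (s : ℝ) {t : ℝ} (ht : t ∈ Icc 0 τ) :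
    zz U s t < 1 - 2 * t := sub_lt_self _ (R.p_pos (by linarith) s ht)

lemma Rad.p_le_one (R : Rad β τ U) (hβ : 6 ≤ β) (s : ℝ) {t : ℝ} (ht : t ∈ Icc 0 τ) :
    U 1 s t ≤ 1 := by linarith [R.p_lt hβ s ht, ht.1]

lemma Rad.z_le_one (R : Rad β τ U) (hβ : 6 ≤ β) (s : ℝ) {t : ℝ} (ht : t ∈ Icc 0 τ) :
    zz U s t ≤ 1 := by linarith [R.z_lt hβ s ht, ht.1]

/-- `p / Θ ≤ 1 + (β+3) p / z²` -/
lemma Rad.minv_le (R : Rad β τ U) (hβ : 6 ≤ β) (s : ℝ) {t : ℝ} (ht : t ∈ Icc 0 τ) :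
    U 1 s t / U 2 s t ≤ 1 + (β + 3) * (U 1 s t / zz U s t ^ 2) := by
  have hp := R.p_pos (by linarith) s ht
  have hθ := R.th_pos (by linarith) s ht
  have hz := R.z_pos hβ s ht
  have h := mul_le_mul_of_nonneg_right (R.Q_le hβ s ht) (div_pos hp (pow_pos hz 2)).le
  have e : zz U s t ^ 2 * (1 / U 2 s t - 1 / U 1 s t) * (U 1 s t / zz U s t ^ 2) =
      U 1 s t / U 2 s t - 1 := by field_simp
  linarith

/-- `β p / z² ≤ p / Θ` -/
lemma Rad.le_minv (R : Rad β τ U) (hβ : 6 ≤ β) (s : ℝ) {t : ℝ} (ht : t ∈ Icc 0 τ) :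
    β * (U 1 s t / zz U s t ^ 2) ≤ U 1 s t / U 2 s t := by
  have hp := R.p_pos (by linarith) s ht
  rw [← mul_div_assoc, div_le_div_iff₀ (pow_pos (R.z_pos hβ s ht) 2) (R.th_pos (by linarith) s ht)]
  nlinarith [mul_le_mul_of_nonneg_left (R.P_le hβ s ht) hp.le]

lemma Rad.one_le_minv (R : Rad β τ U) (hβ : 6 ≤ β) (s : ℝ) {t : ℝ} (ht : t ∈ Icc 0 τ) :
    1 ≤ U 1 s t / U 2 s t := (one_le_div (R.th_pos (by linarith) s ht)).mpr (R.m_le hβ s ht)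

lemma Rad.m_pos (R : Rad β τ U) (hβ : 6 ≤ β) (s : ℝ) {t : ℝ} (ht : t ∈ Icc 0 τ) :
    0 < U 2 s t / U 1 s t := div_pos (R.th_pos (by linarith) s ht) (R.p_pos (by linarith) s ht)

lemma Rad.m_le_one (R : Rad β τ U) (hβ : 6 ≤ β) (s : ℝ) {t : ℝ} (ht : t ∈ Icc 0 τ) :
    U 2 s t / U 1 s t ≤ 1 := (div_le_one (R.p_pos (by linarith) s ht)).mpr (R.m_le hβ s ht)

/-- `1 - m ≤ (β+3) Θ / z²` -/
lemma Rad.one_sub_m (R : Rad β τ U) (hβ : 6 ≤ β) (s : ℝ) {t : ℝ} (ht : t ∈ Icc 0 τ) :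
    1 - U 2 s t / U 1 s t ≤ (β + 3) * (U 2 s t / zz U s t ^ 2) := by
  have hp := R.p_pos (by linarith) s ht
  have hθ := R.th_pos (by linarith) s ht
  have hz := R.z_pos hβ s ht
  have h := mul_le_mul_of_nonneg_right (R.minv_le hβ s ht) (R.m_pos hβ s ht).le
  have e1 : U 1 s t / U 2 s t * (U 2 s t / U 1 s t) = 1 := by field_simp
  have e2 : (1 + (β + 3) * (U 1 s t / zz U s t ^ 2)) * (U 2 s t / U 1 s t) =
      U 2 s t / U 1 s t + (β + 3) * (U 2 s t / zz U s t ^ 2) := by field_simp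
  linarith

/-- `y² ≤ m` -/
lemma Rad.y_sq (R : Rad β τ U) (hβ : 6 ≤ β) (s : ℝ) {t : ℝ} (ht : t ∈ Icc 0 τ) :
    (U 3 s t / U 2 s t) ^ 2 ≤ U 2 s t / U 1 s t := by
  have hβ0 : 0 < β := by linarith
  have hp := R.p_pos hβ0 s ht
  have hθ := R.th_pos hβ0 s ht
  have hz := R.z_pos hβ s ht
  have hm := R.m_pos hβ s ht
  rcases le_total 0 (U 3 s t / U 2 s t) with h | h
  · have h1 := pow_le_pow_left₀ h (R.k_le hβ s ht) 2
    nlinarith [R.m_le_one hβ s ht]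
  · have h1 : (U 3 s t / U 2 s t) ^ 2 ≤ (2 / β * zz U s t) ^ 2 :=
      sq_le_sq' (R.y_ge hβ s ht) (h.trans (by positivity))
    refine h1.trans ?_
    have h2 := mul_le_mul_of_nonneg_left (R.minv_le hβ s ht) (sq_nonneg (2 / β * zz U s t))
    have e1 : (2 / β * zz U s t) ^ 2 * (1 + (β + 3) * (U 1 s t / zz U s t ^ 2)) =
        4 * (zz U s t ^ 2 + (β + 3) * U 1 s t) / β ^ 2 := by field_simp; ring
    have e2 : 4 * (zz U s t ^ 2 + (β + 3) * U 1 s t) / β ^ 2 ≤ 1 := by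
      rw [div_le_one (by positivity)]
      have e3 : zz U s t + U 1 s t ≤ 1 := by rw [zz]; linarith [ht.1]
      have e4 : zz U s t ^ 2 ≤ (β + 3) * zz U s t := by nlinarith
      nlinarith
    have h3 : (2 / β * zz U s t) ^ 2 * (U 1 s t / U 2 s t) ≤ 1 := by linarith
    rw [← mul_div_assoc, div_le_one hθ] at h3
    exact (le_div_iff₀ hp).mpr h3

lemma Rad.abs_y (R : Rad β τ U) (hβ : 6 ≤ β) (s : ℝ) {t : ℝ} (ht : t ∈ Icc 0 τ) :
    |U 3 s t / U 2 s t| ≤ √(U 2 s t / U 1 s t) := Real.abs_le_sqrt (R.y_sq hβ s ht)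

lemma Rad.m_le_sqrt (R : Rad β τ U) (hβ : 6 ≤ β) (s : ℝ) {t : ℝ} (ht : t ∈ Icc 0 τ) :
    U 2 s t / U 1 s t ≤ √(U 2 s t / U 1 s t) :=
  Real.le_sqrt_of_sq_le (by nlinarith [R.m_pos hβ s ht, R.m_le_one hβ s ht])

/-- `-3 ≤ p_t ≤ 0` -/
lemma Rad.E1_bd (R : Rad β τ U) (hβ : 6 ≤ β) (s : ℝ) {t : ℝ} (ht : t ∈ Icc 0 τ) :
    -3 ≤ E1 U s t ∧ E1 U s t ≤ 0 := by
  have h1 := abs_le.mp ((R.abs_y hβ s ht).trans (Real.sqrt_le_one.mpr (R.m_le_one hβ s ht)))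
  rw [E1]
  constructor <;> linarith [R.m_pos hβ s ht, R.m_le_one hβ s ht, h1.1, h1.2]

/-- `p e^(-s) ≤ exp (-1/z)` -/
lemma Rad.p_exp (R : Rad β τ U) (hβ : 6 ≤ β) (s : ℝ) {t : ℝ} (ht : t ∈ Icc 0 τ) :
    U 1 s t ≤ Real.exp s * Real.exp (-(1 / zz U s t)) := by
  have h := (div_le_iff₀' (R.z_pos hβ s ht)).mpr (R.zS_ge hβ s ht)
  rw [← Real.exp_add, ← Real.log_le_iff_le_exp (R.p_pos (by linarith) s ht)]
  linarith

lemma exp_inv_le {z : ℝ} (hz : 0 < z) (k : ℕ) : Real.exp (-(1 / z)) ≤ k.factorial * z ^ k := by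
  have h := Real.pow_div_factorial_le_exp (1 / z) (by positivity) k
  have hk : (0 : ℝ) < k.factorial := by exact_mod_cast k.factorial_pos
  rw [Real.exp_neg, inv_le_comm₀ (Real.exp_pos _) (by positivity)]
  refine le_trans (le_of_eq ?_) h
  rw [one_div, inv_pow]; field_simp

/-- `a ≤ 2 z` for `s ≤ 0` -/
lemma Rad.z_left (R : Rad β τ U) (hβ : 6 ≤ β) {s : ℝ} (hs : s ≤ 0) {t : ℝ} (ht : t ∈ Icc 0 τ) :
    1 - 2 * t ≤ 2 * zz U s t := by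
  have h1 := exp_inv_le (R.z_pos hβ s ht) 1
  have h2 := (R.p_exp hβ s ht).trans (mul_le_of_le_one_left (Real.exp_pos _).le
    (Real.exp_le_one_iff.mpr hs))
  simp only [Nat.factorial_one, Nat.cast_one, one_mul, pow_one] at h1
  have h3 : zz U s t = 1 - 2 * t - U 1 s t := rfl
  linarith

/-- the ingredient of the bound for `η`: `(p/Θ - 1) e^(-s) ≤ C z³` -/
lemma Rad.eta_le (R : Rad β τ U) (hβ : 6 ≤ β) (s : ℝ) {t : ℝ} (ht : t ∈ Icc 0 τ) :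
    U 1 s t / U 2 s t - 1 ≤ 120 * (β + 3) * Real.exp s * zz U s t ^ 3 := by
  have hz := R.z_pos hβ s ht
  have h1 := (R.p_exp hβ s ht).trans (mul_le_mul_of_nonneg_left (exp_inv_le hz 5)
    (Real.exp_pos s).le)
  have h2 : U 1 s t / zz U s t ^ 2 ≤ 120 * Real.exp s * zz U s t ^ 3 := by
    rw [div_le_iff₀ (pow_pos hz 2)]
    refine h1.trans (le_of_eq ?_)
    simp only [Nat.factorial]; push_cast; ring
  linarith [R.minv_le hβ s ht, mul_le_mul_of_nonneg_left h2 (by linarith : 0 ≤ β + 3)]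

/-- `p / z² ≤ 2 (1 + s₊²)` -/
lemma Rad.p_div_z (R : Rad β τ U) (hβ : 6 ≤ β) (s : ℝ) {t : ℝ} (ht : t ∈ Icc 0 τ) :
    U 1 s t / zz U s t ^ 2 ≤ 2 * max s 0 ^ 2 + 4 := by
  have hp := R.p_pos (by linarith) s ht
  have hz := R.z_pos hβ s ht
  have h1 := R.p_le_one hβ s ht
  have hl : 0 ≤ -Real.log (U 1 s t) := neg_nonneg.mpr (Real.log_nonpos hp.le h1)
  have h2 : 1 / zz U s t ≤ max s 0 + -Real.log (U 1 s t) := by
    linarith [(div_le_iff₀' hz).mpr (R.zS_ge hβ s ht), le_max_left s 0]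
  have h3 := pow_le_pow_left₀ (by positivity) h2 2
  have h4 := Real.pow_div_factorial_le_exp _ hl 2
  rw [Real.exp_neg, Real.exp_log hp] at h4
  have h5 : U 1 s t * (-Real.log (U 1 s t)) ^ 2 ≤ 2 := by
    have h6 := mul_le_mul_of_nonneg_left h4 hp.le
    rw [mul_inv_cancel₀ hp.ne'] at h6
    simp only [Nat.factorial] at h6
    push_cast at h6
    linarith
  have h6 : U 1 s t / zz U s t ^ 2 = U 1 s t * (1 / zz U s t) ^ 2 := by field_simp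
  have h7 := mul_le_mul_of_nonneg_left h3 hp.le
  have h8 := mul_le_mul_of_nonneg_right h1 (sq_nonneg (max s 0))
  nlinarith [mul_nonneg hp.le (sq_nonneg (max s 0 - -Real.log (U 1 s t)))]

/-- `p / Θ ≤ C (1 + s₊²)` -/
lemma Rad.minv_le' (R : Rad β τ U) (hβ : 6 ≤ β) (s : ℝ) {t : ℝ} (ht : t ∈ Icc 0 τ) :
    U 1 s t / U 2 s t ≤ 5 * (β + 3) * (1 + max s 0 ^ 2) := by
  have h := mul_le_mul_of_nonneg_left (R.p_div_z hβ s ht) (by linarith : 0 ≤ β + 3)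
  nlinarith [R.minv_le hβ s ht, mul_nonneg (by linarith : 0 ≤ β + 3) (sq_nonneg (max s 0))]

/-! ### monotone quantities -/

lemma Rad.p_mono (R : Rad β τ U) (hβ : 6 ≤ β) {t : ℝ} (ht : t ∈ Icc 0 τ) :
    Monotone fun s => U 1 s t :=
  monotone_of_hasDerivAt_nonneg (fun s => R.ds 1 (by norm_num) s t ht)
    fun s => (R.th_pos (by linarith) s ht).le

lemma Rad.z_anti (R : Rad β τ U) (hβ : 6 ≤ β) {t : ℝ} (ht : t ∈ Icc 0 τ) :
    Antitone fun s => zz U s t := fun _ _ h => sub_le_sub_left (R.p_mono hβ ht h) _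

/-- `S = s - log p` increases -/
lemma Rad.S_mono (R : Rad β τ U) (hβ : 6 ≤ β) {t : ℝ} (ht : t ∈ Icc 0 τ) :
    Monotone fun s => s - Real.log (U 1 s t) :=
  monotone_of_hasDerivAt_nonneg (fun s => (hasDerivAt_id s).sub (R.d_logp hβ s ht))
    fun s => sub_nonneg.mpr (R.m_le_one hβ s ht)

lemma Rad.d_zinv (R : Rad β τ U) (hβ : 6 ≤ β) (s : ℝ) {t : ℝ} (ht : t ∈ Icc 0 τ) :
    HasDerivAt (fun s => 1 / zz U s t) (U 2 s t / zz U s t ^ 2) s :=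
  ((hasDerivAt_const s (1 : ℝ)).div ((R.jz (by linarith) (ht.1.trans ht.2)).d1 s t ht)
    (R.z_pos hβ s ht).ne').congr_deriv (by ring)

/-- `S(s) - S(s') ≤ (β+3) p(s) / z(s)²` for `s' ≤ s` -/
lemma Rad.S_osc (R : Rad β τ U) (hβ : 6 ≤ β) {s s' : ℝ} (h : s' ≤ s) {t : ℝ} (ht : t ∈ Icc 0 τ) :
    s - Real.log (U 1 s t) - (s' - Real.log (U 1 s' t)) ≤
      (β + 3) * (U 1 s t / zz U s t ^ 2) := by
  have h1 : Monotone fun s => (β + 3) * (1 / zz U s t) - (s - Real.log (U 1 s t)) :=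
    monotone_of_hasDerivAt_nonneg (fun s => ((R.d_zinv hβ s ht).const_mul (β + 3)).sub
      ((hasDerivAt_id s).sub (R.d_logp hβ s ht))) fun s => sub_nonneg.mpr (R.one_sub_m hβ s ht)
  have h2 := h1 h
  have hz := R.z_pos hβ s ht
  have hz' := R.z_pos hβ s' ht
  have hp := R.p_pos (by linarith) s ht
  have h3 : 1 / zz U s t - 1 / zz U s' t ≤ U 1 s t / zz U s t ^ 2 := by
    have e1 : 1 / zz U s t - 1 / zz U s' t = (U 1 s t - U 1 s' t) / (zz U s t * zz U s' t) := by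
      field_simp; simp only [zz]; ring
    rw [e1, sq]
    exact div_le_div₀ hp.le (by linarith [R.p_pos (by linarith) s' ht]) (mul_pos hz hz)
      (mul_le_mul_of_nonneg_left (R.z_anti hβ ht h) hz.le)
  simp only at h2
  linarith [mul_le_mul_of_nonneg_left h3 (by linarith : 0 ≤ β + 3)]

/-! ### the function `z³` -/

lemma Rad.jz3 (R : Rad β τ U) (hβ : 6 ≤ β) (hτ : 0 ≤ τ) :
    Jet τ (fun s t => zz U s t ^ 3) (fun s t => -(3 * zz U s t ^ 2 * U 2 s t))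
      (fun s t => 6 * zz U s t * U 2 s t ^ 2 - 3 * zz U s t ^ 2 * U 3 s t)
      (fun s t => -(3 * zz U s t ^ 2 * (U 2 s t / U 1 s t + U 3 s t / U 2 s t))) := by
  have J := R.jz (by linarith) hτ
  exact ((J.mul J).mul J).congr (fun s t _ => by ring) (fun s t _ => by ring)
    (fun s t _ => by ring) (fun s t _ => by simp only [E1]; ring)

/-- `g_s / p ≤ g_ss / Θ` and `g_ss / Θ + g_s / p ≤ g_t + g` for `g = z³` -/
lemma Rad.z3 (R : Rad β τ U) (hβ : 6 ≤ β) (s : ℝ) {t : ℝ} (ht : t ∈ Icc 0 τ) :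
    -(3 * zz U s t ^ 2 * U 2 s t) / U 1 s t ≤
      (6 * zz U s t * U 2 s t ^ 2 - 3 * zz U s t ^ 2 * U 3 s t) / U 2 s t ∧
    (6 * zz U s t * U 2 s t ^ 2 - 3 * zz U s t ^ 2 * U 3 s t) / U 2 s t +
      -(3 * zz U s t ^ 2 * U 2 s t) / U 1 s t ≤
      -(3 * zz U s t ^ 2 * (U 2 s t / U 1 s t + U 3 s t / U 2 s t)) + zz U s t ^ 3 := by
  have hp := R.p_pos (by linarith) s ht
  have hθ := R.th_pos (by linarith) s ht
  have hz := R.z_pos hβ s ht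
  have e1 : (6 * zz U s t * U 2 s t ^ 2 - 3 * zz U s t ^ 2 * U 3 s t) / U 2 s t =
      6 * zz U s t * U 2 s t - 3 * zz U s t ^ 2 * (U 3 s t / U 2 s t) := by field_simp
  have e2 : -(3 * zz U s t ^ 2 * U 2 s t) / U 1 s t =
      -(3 * zz U s t ^ 2 * (U 2 s t / U 1 s t)) := by ring
  rw [e1, e2]
  constructor
  · linarith [mul_le_mul_of_nonneg_left (R.k_le hβ s ht) (by positivity : 0 ≤ 3 * zz U s t ^ 2),
      mul_pos hz hθ]
  · have h1 : 6 * U 2 s t ≤ zz U s t ^ 2 := le_trans (by nlinarith) (R.P_le hβ s ht)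
    nlinarith [mul_le_mul_of_nonneg_left h1 hz.le]

end Pool.Agent.MP_67f0e4_gt.R48
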