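import Pool.Agent.MP_67f0e4_gt.R48.Jets

/-! Crude bounds (constants depend on `τ`) and the barrier. -/

namespace Pool.Agent.MP_67f0e4_gt.R48

open Set Filter Topology

variable {β τ : ℝ} {U : ℕ → ℝ → ℝ → ℝ}

lemma Rad.jz (R : Rad β τ U) (hβ : 0 < β) (hτ : 0 ≤ τ) :
    Jet τ (zz U) (fun s t => -U 2 s t) (fun s t => -U 3 s t) (fun s t => -2 - E1 U s t) :=
  ((Jet.aff τ 1 (-2)).sub (R.jets hβ hτ).2.1).congr (fun s t _ => by simp only [zz]; ring)
    (fun s t _ => by ring) (fun s t _ => by ring) (fun s t _ => by ring)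

lemma th0_div_p0 {β : ℝ} (hβ : 0 < β) (s : ℝ) :
    th0 β s = β * sg s / (lam s * (lam s + β)) * p0 β s := by
  have := lam_pos s
  have h : 0 < lam s + β := by linarith
  rw [th0, p0]; field_simp

lemma tends_inv {β : ℝ} (C : ℝ) : Tendsto (fun s => C / (lam s + β)) atTop (𝓝 0) :=
  tendsto_const_nhds.div_atTop
    (tendsto_atTop_add_const_right _ _ (tendsto_atTop_mono le_lam tendsto_id))

/-- `z` is comparable with its initial value -/
lemma Rad.zcomp (R : Rad β τ U) (hβ : 0 < β) (hτ : 0 ≤ τ) {K : ℝ} (hK : 1 ≤ K)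
    (h : ∀ s, ∀ t ∈ Icc 0 τ, p0 β s ≤ K * U 1 s t ∧ U 1 s t ≤ K * p0 β s ∧
      th0 β s ≤ K * U 2 s t ∧ U 2 s t ≤ K * th0 β s ∧ |U 3 s t| * (lam s + β) ≤ K * U 2 s t) :
    ∀ s, ∀ t ∈ Icc 0 τ, U 2 s t / U 1 s t ≤ K ^ 2 * β / (lam s + β) ∧
      |U 3 s t / U 2 s t| ≤ K / (lam s + β) ∧
      β / (lam s + β) ≤ K * zz U s t ∧ zz U s t ≤ K * (β / (lam s + β)) := by
  have hK0 : 0 < K := one_pos.trans_le hK
  have hm : ∀ s, ∀ t ∈ Icc 0 τ, U 2 s t / U 1 s t ≤ K ^ 2 * β / (lam s + β) := by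
    intro s t ht
    obtain ⟨h1, -, -, h4, -⟩ := h s t ht
    have hl := lam_pos s
    have hL : 0 < lam s + β := by linarith
    have h5 : β * sg s / (lam s * (lam s + β)) ≤ β / (lam s + β) := by
      rw [div_le_div_iff₀ (mul_pos hl hL) hL]
      have := mul_le_mul_of_nonneg_left (sg_le_lam s) (mul_pos hβ hL).le
      linarith
    have h6 : th0 β s ≤ β / (lam s + β) * (K * U 1 s t) := by
      rw [th0_div_p0 hβ]
      exact mul_le_mul h5 h1 (p0_pos hβ s).le (div_pos hβ hL).le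
    rw [div_le_iff₀ (R.p_pos hβ s ht)]
    calc U 2 s t ≤ K * (β / (lam s + β) * (K * U 1 s t)) :=
          h4.trans (mul_le_mul_of_nonneg_left h6 hK0.le)
      _ = K ^ 2 * β / (lam s + β) * U 1 s t := by ring
  have hy : ∀ s, ∀ t ∈ Icc 0 τ, |U 3 s t / U 2 s t| ≤ K / (lam s + β) := by
    intro s t ht
    have hL : 0 < lam s + β := by linarith [lam_pos s]
    rw [abs_div, abs_of_pos (R.th_pos hβ s ht), div_le_div_iff₀ (R.th_pos hβ s ht) hL]
    exact (h s t ht).2.2.2.2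
  have hz : ∀ t ∈ Icc 0 τ, Tendsto (fun s => zz U s t) atTop (𝓝 0) := by
    intro t ht
    have h1 : ∀ s, ‖zz U s t - β / (lam s + β)‖ ≤ (K ^ 2 * β + K) * τ / (lam s + β) := by
      intro s
      have hL : 0 < lam s + β := by linarith [lam_pos s]
      have h2 := (convex_Icc 0 τ).norm_image_sub_le_of_norm_hasDerivWithin_le
        (C := (K ^ 2 * β + K) / (lam s + β)) ((R.jz hβ hτ).dt s) (fun r hr => ?_)
        ⟨le_rfl, hτ⟩ ht
      · have h3 : zz U s 0 = β / (lam s + β) := by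
          rw [zz, R.init, p0]; field_simp; ring
        rw [h3, sub_zero, Real.norm_of_nonneg ht.1] at h2
        refine h2.trans ?_
        rw [mul_div_right_comm]
        exact mul_le_mul_of_nonneg_left ht.2 (by positivity)
      · have h3 := hm s r hr
        have h4 := abs_le.mp (hy s r hr)
        have h5 := div_pos (R.th_pos hβ s hr) (R.p_pos hβ s hr)
        rw [Real.norm_eq_abs, add_div, abs_le, E1]
        constructor <;> linarith [h4.1, h4.2]
    have h2 := (squeeze_zero_norm h1 (tends_inv _)).add (tends_inv (β := β) β)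
    simpa using h2
  have d0 : ∀ s, HasDerivAt (fun s => β / (lam s + β)) (-th0 β s) s := by
    intro s
    have h1 := (d_p0 hβ s).const_sub 1
    refine h1.congr_of_eventuallyEq (Eventually.of_forall fun x => ?_)
    have hL : 0 < lam x + β := by linarith [lam_pos x]
    simp only [p0]; field_simp; ring
  intro s t ht
  refine ⟨hm s t ht, hy s t ht, ?_, ?_⟩
  · have h1 : Antitone fun s => K * zz U s t - β / (lam s + β) :=
      antitone_of_hasDerivAt_nonpos (fun x => (((R.jz hβ hτ).d1 x t ht).const_mul K).sub (d0 x))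
        fun x => by have := (h x t ht).2.2.1; simp only [Pi.zero_apply]; linarith
    have h2 := h1.le_of_tendsto (((hz t ht).const_mul K).sub (tends_inv β)) s
    linarith
  · have h1 : Antitone fun s => K * (β / (lam s + β)) - zz U s t :=
      antitone_of_hasDerivAt_nonpos (fun x => ((d0 x).const_mul K).sub ((R.jz hβ hτ).d1 x t ht))
        fun x => by have := (h x t ht).2.2.2.1; simp only [Pi.zero_apply]; linarith
    have h2 := h1.le_of_tendsto (((tends_inv β).const_mul K).sub (hz t ht)) s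
    linarith

/-- pointwise crude bounds -/
structure Crude (β C σ L p θ y z S : ℝ) : Prop where
  z0 : 0 < z
  a1 : 2 * (σ * (1 - σ)) ≤ C * θ
  a2 : σ / L ≤ C * p
  a3 : |y| * (σ / L) ≤ C * θ
  a4 : θ / p ≤ C * z
  a5 : 1 - σ ≤ C * (θ / p) ^ 2
  a6 : z ^ 2 * σ ≤ C * θ
  a7 : θ ≤ C * z ^ 2
  a8 : θ / p ≤ C
  a9 : |y| ≤ C
  a10 : -C ≤ z * S

lemma Rad.crude (R : Rad β τ U) (hβ : 6 ≤ β) (hτ : 0 ≤ τ) : ∃ C, 1 ≤ C ∧ ∀ s, ∀ t ∈ Icc 0 τ,
    Crude β C (sg s) (lam s + β) (U 1 s t) (U 2 s t) (U 3 s t / U 2 s t) (zz U s t)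
      (s - Real.log (U 1 s t)) := by
  have hβ0 : 0 < β := by linarith
  obtain ⟨K, hK, h⟩ := R.apr
  have hK0 : 0 < K := one_pos.trans_le hK
  have hb4 : β ≤ (β + 4) ^ 4 := le_trans (by linarith) (le_self_pow₀ (by linarith) (by norm_num))
  have hK4 : ∀ i, i ≤ 4 → K ^ i ≤ K ^ 4 := fun i hi => pow_le_pow_right₀ hK hi
  have hC : ∀ i, i ≤ 4 → ∀ b, 0 ≤ b → b ≤ (β + 4) ^ 4 → K ^ i * b ≤ K ^ 4 * (β + 4) ^ 4 :=
    fun i hi b hb hb' => mul_le_mul (hK4 i hi) hb' hb (by positivity)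
  have hC1 : ∀ i, i ≤ 4 → K ^ i ≤ K ^ 4 * (β + 4) ^ 4 := fun i hi => by
    simpa using hC i hi 1 zero_le_one (by linarith)
  refine ⟨K ^ 4 * (β + 4) ^ 4, by simpa using hC1 0 (by norm_num), fun s t ht => ?_⟩
  obtain ⟨h1, h2, h3, h4, -⟩ := h s t ht
  obtain ⟨hm, hy, hz1, hz2⟩ := R.zcomp hβ0 hτ hK h s t ht
  have hp := R.p_pos hβ0 s ht
  have hθ := R.th_pos hβ0 s ht
  have hl := lam_pos s
  have hσ := sg_pos s
  have hσ1 := sg_lt_one s
  have hL : 0 < lam s + β := by linarith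
  have hL1 : 1 ≤ lam s + β := by linarith
  have hz0 : 0 < zz U s t := (mul_pos_iff_of_pos_left hK0).mp ((div_pos hβ0 hL).trans_le hz1)
  have hbL : β / (lam s + β) ≤ 1 := (div_le_one hL).mpr (by linarith)
  have hth : β * sg s ≤ K * U 2 s t * (lam s + β) ^ 2 := by
    rw [th0, div_le_iff₀ (pow_pos hL 2)] at h3; exact h3
  have hL2 : (lam s + β) ^ 2 * (1 - sg s) ≤ (β + 4) ^ 4 :=
    le_trans (mul_le_mul_of_nonneg_right (pow_le_pow_right₀ hL1 (by norm_num)) (by linarith))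
      (lam_pow β s hβ0.le)
  have up : ∀ {x c v : ℝ}, 0 ≤ v → x ≤ c * v → c ≤ K ^ 4 * (β + 4) ^ 4 →
      x ≤ K ^ 4 * (β + 4) ^ 4 * v :=
    fun hv hx hc => hx.trans (mul_le_mul_of_nonneg_right hc hv)
  refine ⟨hz0, ?_, ?_, ?_, ?_, ?_, ?_, ?_, ?_, ?_, ?_⟩
  · refine up (c := K ^ 1 * (β + 4) ^ 4) hθ.le ?_ (hC 1 (by norm_num) _ (by positivity) le_rfl)
    have e1 := mul_le_mul_of_nonneg_right hth (by linarith : 0 ≤ 1 - sg s)
    have e2 := mul_le_mul_of_nonneg_left hL2 (mul_pos hK0 hθ).le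
    have e3 : 0 ≤ sg s * (1 - sg s) := mul_nonneg hσ.le (by linarith)
    nlinarith
  · refine up (c := K ^ 1) hp.le ?_ (hC1 1 (by norm_num))
    rw [pow_one]
    exact le_trans (div_le_div_of_nonneg_right (sg_le_lam s) hL.le) h1
  · refine up (c := K ^ 2) hθ.le ?_ (hC1 2 (by norm_num))
    have e1 : sg s / (lam s + β) ^ 2 ≤ K * U 2 s t := by
      rw [div_le_iff₀ (pow_pos hL 2)]; nlinarith
    calc |U 3 s t / U 2 s t| * (sg s / (lam s + β))
        ≤ K / (lam s + β) * (sg s / (lam s + β)) :=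
          mul_le_mul_of_nonneg_right hy (div_pos hσ hL).le
      _ = K * (sg s / (lam s + β) ^ 2) := by field_simp
      _ ≤ K * (K * U 2 s t) := mul_le_mul_of_nonneg_left e1 hK0.le
      _ = K ^ 2 * U 2 s t := by ring
  · refine up (c := K ^ 3) hz0.le ?_ (hC1 3 (by norm_num))
    calc U 2 s t / U 1 s t ≤ K ^ 2 * (β / (lam s + β)) := by rw [← mul_div_assoc]; exact hm
      _ ≤ K ^ 2 * (K * zz U s t) := mul_le_mul_of_nonneg_left hz1 (by positivity)
      _ = K ^ 3 * zz U s t := by ring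
  · have e0 : lam s ≤ sg s * (lam s + β) := by nlinarith [lam_mul_le s]
    have e1 : 1 / (lam s + β) ^ 2 ≤ β * sg s / (lam s * (lam s + β)) := by
      rw [div_le_div_iff₀ (pow_pos hL 2) (mul_pos hl hL)]
      have e2 := mul_le_mul_of_nonneg_right e0 hL.le
      have e3 : 0 ≤ sg s * (lam s + β) * (lam s + β) := by positivity
      nlinarith
    have e2 : 1 / (lam s + β) ^ 2 ≤ K ^ 2 * (U 2 s t / U 1 s t) := by
      rw [← mul_div_assoc, le_div_iff₀ hp]
      calc 1 / (lam s + β) ^ 2 * U 1 s t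
          ≤ β * sg s / (lam s * (lam s + β)) * (K * p0 β s) :=
            mul_le_mul e1 h2 hp.le (by positivity)
        _ = K * th0 β s := by rw [th0_div_p0 hβ0]; ring
        _ ≤ K * (K * U 2 s t) := mul_le_mul_of_nonneg_left h3 hK0.le
        _ = K ^ 2 * U 2 s t := by ring
    have e3 := pow_le_pow_left₀ (by positivity) e2 2
    have e4 : 1 - sg s ≤ (β + 4) ^ 4 * (1 / (lam s + β) ^ 2) ^ 2 := by
      rw [one_div, inv_pow, ← pow_mul, ← div_eq_mul_inv, le_div_iff₀ (pow_pos hL _), mul_comm]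
      exact lam_pow β s hβ0.le
    calc 1 - sg s ≤ (β + 4) ^ 4 * (K ^ 2 * (U 2 s t / U 1 s t)) ^ 2 :=
          e4.trans (mul_le_mul_of_nonneg_left e3 (by positivity))
      _ = K ^ 4 * (β + 4) ^ 4 * (U 2 s t / U 1 s t) ^ 2 := by ring
  · refine up (c := K ^ 3 * β) hθ.le ?_ (hC 3 (by norm_num) _ hβ0.le hb4)
    calc zz U s t ^ 2 * sg s ≤ (K * (β / (lam s + β))) ^ 2 * sg s :=
          mul_le_mul_of_nonneg_right (pow_le_pow_left₀ hz0.le hz2 2) hσ.le
      _ = K ^ 2 * β * th0 β s := by rw [th0]; field_simp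
      _ ≤ K ^ 2 * β * (K * U 2 s t) := mul_le_mul_of_nonneg_left h3 (by positivity)
      _ = K ^ 3 * β * U 2 s t := by ring
  · refine up (c := K ^ 3) (sq_nonneg _) ?_ (hC1 3 (by norm_num))
    have e1 : th0 β s ≤ (β / (lam s + β)) ^ 2 := by
      rw [th0, div_pow]
      exact div_le_div_of_nonneg_right (by nlinarith) (pow_pos hL 2).le
    calc U 2 s t ≤ K * (K * zz U s t) ^ 2 := h4.trans (mul_le_mul_of_nonneg_left
          (e1.trans (pow_le_pow_left₀ (div_pos hβ0 hL).le hz1 2)) hK0.le)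
      _ = K ^ 3 * zz U s t ^ 2 := by ring
  · refine le_trans ?_ (hC1 2 (by norm_num))
    refine hm.trans ?_
    rw [mul_div_assoc]
    exact mul_le_of_le_one_right (by positivity) hbL
  · refine le_trans ?_ (hC1 1 (by norm_num))
    rw [pow_one]
    exact hy.trans (div_le_self hK0.le hL1)
  · have e1 : p0 β s ≤ Real.exp s := (div_le_self hl.le hL1).trans (lam_le_exp s)
    have e2 : U 1 s t ≤ Real.exp (K + s) := by
      rw [Real.exp_add]
      exact h2.trans (mul_le_mul (by linarith [Real.add_one_le_exp K]) e1 (p0_pos hβ0 s).le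
        (Real.exp_pos _).le)
    have e3 := (Real.log_le_iff_le_exp hp).mpr e2
    have e4 : zz U s t ≤ K := hz2.trans (mul_le_of_le_one_right hK0.le hbL)
    have e5 := hC1 2 (by norm_num)
    nlinarith

/-- the barrier -/
noncomputable def hb (β s : ℝ) : ℝ := lam s - s + Real.log (lam s + β)

lemma log_L (hβ : 6 ≤ β) (s : ℝ) : 1 ≤ Real.log (lam s + β) := by
  have := lam_pos s
  refine (Real.le_log_iff_exp_le (by linarith)).mpr ?_
  linarith [Real.exp_one_lt_d9]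

lemma d_logL (hβ : 6 ≤ β) (s : ℝ) :
    HasDerivAt (fun s => Real.log (lam s + β)) (sg s / (lam s + β)) s :=
  ((d_lam s).add_const β).log (by linarith [lam_pos s])

lemma d_logL' (hβ : 6 ≤ β) (s : ℝ) : HasDerivAt (fun s => sg s / (lam s + β))
    (sg s * (1 - sg s) / (lam s + β) - (sg s / (lam s + β)) ^ 2) s := by
  have h : 0 < lam s + β := by linarith [lam_pos s]
  exact ((d_sg s).div ((d_lam s).add_const β) h.ne').congr_deriv (by field_simp)

lemma logL_two (hβ : 6 ≤ β) (s : ℝ) :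
    sg s * (1 - sg s) / (lam s + β) - (sg s / (lam s + β)) ^ 2 ≤ sg s * (1 - sg s) := by
  have h1 : sg s * (1 - sg s) / (lam s + β) ≤ sg s * (1 - sg s) :=
    div_le_self (mul_nonneg (sg_pos s).le (by linarith [sg_lt_one s])) (by linarith [lam_pos s])
  linarith [sq_nonneg (sg s / (lam s + β))]

lemma hb_far (hβ : 6 ≤ β) (M ε : ℝ) (hε : 0 < ε) : ∃ R, ∀ s, R ≤ |s| → M ≤ ε * hb β s := by
  refine ⟨Real.exp (M / ε), fun s hs => ?_⟩
  rw [← div_le_iff₀' hε, hb]
  have h1 := Real.add_one_le_exp (M / ε)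
  rcases le_total 0 s with h | h
  · rw [abs_of_nonneg h] at hs
    have h2 : M / ε ≤ Real.log (lam s + β) :=
      (Real.le_log_iff_exp_le (by linarith [lam_pos s])).mpr (by linarith [le_lam s])
    linarith [le_lam s]
  · rw [abs_of_nonpos h] at hs
    linarith [lam_pos s, log_L hβ s]

/-- the maximum principle for bounded quantities -/
lemma Rad.mp (R : Rad β τ U) (hβ : 6 ≤ β) (hτ : 0 ≤ τ) {f f1 f2 ft : ℝ → ℝ → ℝ}
    (F : Jet τ f f1 f2 ft) (B Z : ℝ → ℝ → ℝ)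
    (id : ∀ s, ∀ t ∈ Icc 0 τ, ft s t = f2 s t / U 2 s t + f1 s t * B s t + Z s t)
    (init : ∀ s, f s 0 ≤ 0) {M : ℝ} (bdd : ∀ s, ∀ t ∈ Icc 0 τ, f s t ≤ M) {C ε₀ : ℝ} (hC : 0 ≤ C)
    (hε₀ : 0 < ε₀) (key : ∀ ε : ℝ, 0 < ε → ε ≤ ε₀ → ∀ s, ∀ t ∈ Icc 0 τ, 0 < f s t →
      ε * (sg s - 1 + sg s / (lam s + β)) * B s t + Z s t ≤ C * ε) :
    ∀ s, ∀ t ∈ Icc 0 τ, f s t ≤ 0 := by
  obtain ⟨C', hC', h⟩ := R.crude hβ hτ
  have H0 : ∀ s, 1 ≤ hb β s := fun s => by rw [hb]; linarith [le_lam s, log_L hβ s]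
  refine F.maxb (h := hb β) (h1 := fun s => sg s - 1 + sg s / (lam s + β))
    (fun s => ((d_lam s).sub (hasDerivAt_id s)).add (d_logL hβ s))
    (fun s => ((d_sg s).sub_const 1).add (d_logL' hβ s)) H0 init (fun ε hε => ?_)
    (C := C' + C) (by linarith) hε₀ fun ε hε hε' s t ht k0 k1 k2 => ?_
  · obtain ⟨R', hR⟩ := hb_far hβ M ε hε
    exact ⟨R', fun s hs t ht => (bdd s t ht).trans (hR s hs)⟩
  · have hθ := R.th_pos (by linarith) s ht
    have e0 : ε ≤ ε * hb β s := le_mul_of_one_le_right hε.le (H0 s)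
    have e1 := key ε hε hε' s t ht (by linarith)
    have e2 : f2 s t / U 2 s t ≤ C' * ε := by
      rw [div_le_iff₀ hθ]
      have e3 := mul_le_mul_of_nonneg_left (h s t ht).a1 hε.le
      have e4 := mul_le_mul_of_nonneg_left (logL_two hβ s) hε.le
      linarith
    have e5 := mul_le_mul_of_nonneg_left e0 (by linarith : 0 ≤ C' + C)
    rw [id s t ht, k1]
    linarith

end Pool.Agent.MP_67f0e4_gt.R48
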