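import Pool.Agent.MP_67f0e4_gt.R48.Scale

/-! Oscillation of `p` and `Θ` on parabolic cylinders. -/

namespace Pool.Agent.MP_67f0e4_gt.R48

open Set Filter Topology

/-- the length scale in `s` -/
noncomputable def len (U : ℕ → ℝ → ℝ → ℝ) (s t : ℝ) : ℝ := √(U 1 s t / U 2 s t)

variable {β τ : ℝ} {U : ℕ → ℝ → ℝ → ℝ}

lemma Rad.one_le_len (R : Rad β τ U) (hβ : 6 ≤ β) (s : ℝ) {t : ℝ} (ht : t ∈ Icc 0 τ) :
    1 ≤ len U s t := Real.one_le_sqrt.mpr (R.one_le_minv hβ s ht)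

lemma Rad.len_pos (R : Rad β τ U) (hβ : 6 ≤ β) (s : ℝ) {t : ℝ} (ht : t ∈ Icc 0 τ) :
    0 < len U s t := one_pos.trans_le (R.one_le_len hβ s ht)

lemma Rad.len_sq (R : Rad β τ U) (hβ : 6 ≤ β) (s : ℝ) {t : ℝ} (ht : t ∈ Icc 0 τ) :
    len U s t ^ 2 = U 1 s t / U 2 s t := Real.sq_sqrt (zero_le_one.trans (R.one_le_minv hβ s ht))

lemma sqrt_m (U : ℕ → ℝ → ℝ → ℝ) (s t : ℝ) : √(U 2 s t / U 1 s t) = 1 / len U s t := by
  rw [len, one_div, ← Real.sqrt_inv, inv_div]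

lemma Rad.m_len (R : Rad β τ U) (hβ : 6 ≤ β) (s : ℝ) {t : ℝ} (ht : t ∈ Icc 0 τ) :
    |U 2 s t / U 1 s t| ≤ 1 / len U s t ∧ |U 3 s t / U 2 s t| ≤ 1 / len U s t := by
  rw [← sqrt_m, abs_of_pos (R.m_pos hβ s ht)]
  exact ⟨R.m_le_sqrt hβ s ht, R.abs_y hβ s ht⟩

lemma lip_seg {f f' : ℝ → ℝ} {s s' C : ℝ} (d : ∀ x, HasDerivAt f (f' x) x)
    (h : ∀ x, |x - s| ≤ |s' - s| → |f' x| ≤ C) : |f s' - f s| ≤ C * |s' - s| :=
  (convex_uIcc s s').norm_image_sub_le_of_norm_hasDerivWithin_le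
    (fun x _ => (d x).hasDerivWithinAt) (fun x hx => h x (abs_sub_left_of_mem_uIcc hx))
    left_mem_uIcc right_mem_uIcc

lemma lip_time {f f' : ℝ → ℝ} {t t' C : ℝ} (ht : t ∈ Icc 0 τ) (ht' : t' ∈ Icc 0 τ)
    (d : ∀ x ∈ Icc 0 τ, HasDerivWithinAt f (f' x) (Icc 0 τ) x)
    (h : ∀ x ∈ Icc 0 τ, |x - t| ≤ |t' - t| → |f' x| ≤ C) : |f t' - f t| ≤ C * |t' - t| :=
  have hs : uIcc t t' ⊆ Icc 0 τ := uIcc_subset_Icc ht ht'
  (convex_uIcc t t').norm_image_sub_le_of_norm_hasDerivWithin_le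
    (fun x hx => (d x (hs hx)).mono hs) (fun x hx => h x (hs hx) (abs_sub_left_of_mem_uIcc hx))
    left_mem_uIcc right_mem_uIcc

/-- `len` is `1`-Lipschitz in `s` -/
lemma Rad.len_lip (R : Rad β τ U) (hβ : 6 ≤ β) (s s' : ℝ) {t : ℝ} (ht : t ∈ Icc 0 τ) :
    |len U s' t - len U s t| ≤ |s' - s| := by
  have hβ0 : 0 < β := by linarith
  rw [← one_mul |s' - s|]
  refine lip_seg (f := fun s => len U s t)
    (f' := fun s => len U s t * (U 2 s t / U 1 s t - U 3 s t / U 2 s t) / 2) (fun x => ?_)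
    fun x _ => ?_
  · have hp := R.p_pos hβ0 x ht
    have hθ := R.th_pos hβ0 x ht
    have d1 : HasDerivAt (fun s => U 1 s t) (U 2 x t) x := R.ds 1 (by norm_num) x t ht
    have d2 : HasDerivAt (fun s => U 2 s t) (U 3 x t) x := R.ds 2 (by norm_num) x t ht
    refine ((d1.div d2 hθ.ne').sqrt (div_pos hp hθ).ne').congr_deriv ?_
    have h1 := R.len_sq hβ x ht
    have h2 := R.len_pos hβ x ht
    change _ / (2 * len U x t) = _
    rw [div_eq_iff (by positivity)]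
    have h3 : len U x t * (U 2 x t / U 1 x t - U 3 x t / U 2 x t) / 2 * (2 * len U x t) =
        len U x t ^ 2 * (U 2 x t / U 1 x t - U 3 x t / U 2 x t) := by ring
    rw [h3, h1]; field_simp
  · obtain ⟨h1, h2⟩ := R.m_len hβ x ht
    have h0 := R.len_pos hβ x ht
    have h3 : |U 2 x t / U 1 x t - U 3 x t / U 2 x t| ≤ 2 * (1 / len U x t) :=
      (abs_sub _ _).trans (by linarith)
    rw [abs_div, abs_mul, abs_of_pos h0, abs_two, div_le_one two_pos]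
    refine (mul_le_mul_of_nonneg_left h3 h0.le).trans (le_of_eq ?_)
    field_simp

lemma Rad.len_half (R : Rad β τ U) (hβ : 6 ≤ β) {s x t : ℝ} (ht : t ∈ Icc 0 τ)
    (h : |x - s| ≤ len U s t / 2) : 1 / len U x t ≤ 2 / len U s t := by
  rw [div_le_div_iff₀ (R.len_pos hβ x ht) (R.len_pos hβ s ht)]
  linarith [(abs_le.mp (R.len_lip hβ s x ht)).1]

/-- oscillation in space -/
lemma Rad.osc_s (R : Rad β τ U) (hβ : 6 ≤ β) {s s' t ρ : ℝ} (ht : t ∈ Icc 0 τ) (hρ : ρ ≤ 1 / 2)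
    (h : |s' - s| ≤ ρ * len U s t) :
    |Real.log (U 1 s' t) - Real.log (U 1 s t)| ≤ 2 * ρ ∧
    |Real.log (U 2 s' t) - Real.log (U 2 s t)| ≤ 2 * ρ ∧
    |E1 U s' t - E1 U s t| ≤ 6 / len U s t := by
  have h0 := R.len_pos hβ s ht
  have hx : ∀ x, |x - s| ≤ |s' - s| → 1 / len U x t ≤ 2 / len U s t := fun x hx =>
    R.len_half hβ ht (by nlinarith)
  have e : 2 / len U s t * |s' - s| ≤ 2 * ρ := by
    rw [div_mul_eq_mul_div, div_le_iff₀ h0]; linarith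
  refine ⟨(lip_seg (fun x => R.d_logp hβ x ht) fun x h' =>
    (R.m_len hβ x ht).1.trans (hx x h')).trans e, (lip_seg (f := fun s => Real.log (U 2 s t))
    (fun x => (R.ds 2 (by norm_num) x t ht).log (R.th_pos (by linarith) x ht).ne') fun x h' =>
    (R.m_len hβ x ht).2.trans (hx x h')).trans e, ?_⟩
  obtain ⟨a1, a2⟩ := R.m_len hβ s ht
  obtain ⟨a3, a4⟩ := R.m_len hβ s' ht
  have a5 := hx s' le_rfl
  have e1 : 6 / len U s t = 6 * (1 / len U s t) := by ring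
  have e2 : 2 / len U s t = 2 * (1 / len U s t) := by ring
  rw [abs_le] at a1 a2 a3 a4 ⊢
  simp only [E1]
  constructor <;> linarith [a1.1, a1.2, a2.1, a2.2, a3.1, a3.2, a4.1, a4.2]

/-- `|p_t| ≤ 3` -/
lemma Rad.p_time (R : Rad β τ U) (hβ : 6 ≤ β) (s : ℝ) {t t' : ℝ} (ht : t ∈ Icc 0 τ)
    (ht' : t' ∈ Icc 0 τ) : |U 1 s t' - U 1 s t| ≤ 3 * |t' - t| :=
  lip_time ht ht' ((R.jets (by linarith) (ht.1.trans ht.2)).2.1.dt s) fun x hx _ =>
    abs_le.mpr ⟨(R.E1_bd hβ s hx).1, by linarith [(R.E1_bd hβ s hx).2]⟩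

/-- `|z_t| ≤ z / p` -/
lemma Rad.zt_le (R : Rad β τ U) (hβ : 6 ≤ β) (s : ℝ) {t : ℝ} (ht : t ∈ Icc 0 τ) :
    |-2 - E1 U s t| ≤ zz U s t / U 1 s t := by
  have hp := R.p_pos (by linarith) s ht
  have hz := R.z_pos hβ s ht
  obtain ⟨a1, a2⟩ := R.m_len hβ s ht
  have h0 := R.len_pos hβ s ht
  have h1 : 2 * (1 / len U s t) ≤ zz U s t / U 1 s t := by
    rw [mul_one_div, div_le_div_iff₀ h0 hp]
    refine (pow_le_pow_iff_left₀ (by positivity) (by positivity) two_ne_zero).mp ?_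
    have h2 := (div_le_iff₀ (pow_pos hz 2)).mp
      ((mul_div_assoc β _ _).trans_le (R.le_minv hβ s ht))
    rw [mul_pow (zz U s t), R.len_sq hβ s ht]
    nlinarith [R.p_le_one hβ s ht]
  rw [abs_le] at a1 a2 ⊢
  simp only [E1]
  constructor <;> linarith [a1.1, a1.2, a2.1, a2.2]

/-- comparability in time -/
lemma Rad.len_time (R : Rad β τ U) (hβ : 6 ≤ β) {s t t' : ℝ} (ht : t ∈ Icc 0 τ)
    (ht' : t' ∈ Icc 0 τ) (h : |t' - t| ≤ U 1 s t / 16) : len U s t ≤ 2 * len U s t' := by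
  have hβ0 : 0 < β := by linarith
  have hp := R.p_pos hβ0 s ht
  have hz := R.z_pos hβ s ht
  have hz' := R.z_pos hβ s ht'
  have hr : ∀ x ∈ Icc 0 τ, |x - t| ≤ |t' - t| → 13 / 16 * U 1 s t ≤ U 1 s x := fun x hx hx' => by
    linarith [(abs_le.mp (R.p_time hβ s ht hx)).1]
  have h1 := lip_time (f := fun r => Real.log (zz U s r)) (C := 2 / U 1 s t) ht ht'
    (fun x hx => ((R.jz hβ0 (ht.1.trans ht.2)).dt s x hx).log (R.z_pos hβ s hx).ne')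
    fun x hx hx' => by
      have e1 := R.z_pos hβ s hx
      rw [abs_div, abs_of_pos e1, div_le_iff₀ e1]
      refine (R.zt_le hβ s hx).trans ?_
      rw [div_mul_eq_mul_div, div_le_div_iff₀ (R.p_pos hβ0 s hx) hp]
      nlinarith [mul_le_mul_of_nonneg_left (hr x hx hx') e1.le, mul_pos e1 hp]
  have h2 : 2 / U 1 s t * |t' - t| ≤ 1 / 8 := by
    rw [div_mul_eq_mul_div, div_le_iff₀ hp]; linarith
  have h3 : 7 / 8 * zz U s t' ≤ zz U s t := by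
    have e1 : Real.log (zz U s t') + -(1 / 8) ≤ Real.log (zz U s t) := by
      linarith [(abs_le.mp (h1.trans h2)).2]
    rw [Real.le_log_iff_exp_le hz, Real.exp_add, Real.exp_log hz'] at e1
    nlinarith [Real.add_one_le_exp (-(1 / 8) : ℝ)]
  have h4 : U 1 s t / zz U s t ^ 2 ≤ 2 * (U 1 s t' / zz U s t' ^ 2) := by
    rw [← mul_div_assoc, div_le_div_iff₀ (pow_pos hz 2) (pow_pos hz' 2)]
    have e1 := mul_le_mul (hr t' ht' le_rfl) (pow_le_pow_left₀ (by positivity) h3 2)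
      (sq_nonneg _) (R.p_pos hβ0 s ht').le
    nlinarith [mul_pos hp (pow_pos hz' 2)]
  refine (pow_le_pow_iff_left₀ (R.len_pos hβ s ht).le (by linarith [R.len_pos hβ s ht'])
    two_ne_zero).mp ?_
  rw [mul_pow, R.len_sq hβ s ht, R.len_sq hβ s ht']
  have h5 := div_pos (R.p_pos hβ0 s ht') (pow_pos hz' 2)
  nlinarith [R.minv_le hβ s ht, R.le_minv hβ s ht', R.one_le_minv hβ s ht',
    mul_le_mul_of_nonneg_left h4 (by linarith : 0 ≤ β + 3)]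

lemma abs_sub_le_of_log {x y d : ℝ} (hx : 0 < x) (hy : 0 < y) (hd : d ≤ 1)
    (h : |Real.log y - Real.log x| ≤ d) : |y - x| ≤ 2 * d * x := by
  have h1 := Real.abs_exp_sub_one_le (h.trans hd)
  rw [Real.exp_sub, Real.exp_log hx, Real.exp_log hy, div_sub_one hx.ne', abs_div, abs_of_pos hx,
    div_le_iff₀ hx] at h1
  exact h1.trans (mul_le_mul_of_nonneg_right (by linarith) hx.le)

lemma abs_log_sub_le {x y d : ℝ} (hx : 0 < x) (hd : d ≤ 1 / 2) (h : |y - x| ≤ d * x) :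
    |Real.log y - Real.log x| ≤ 2 * d := by
  obtain ⟨h1, h2⟩ := abs_le.mp h
  have hy : 0 < y := by nlinarith
  have hd0 : 0 ≤ d := by nlinarith
  have e1 := Real.log_le_sub_one_of_pos (div_pos hy hx)
  have e2 := Real.log_le_sub_one_of_pos (div_pos hx hy)
  rw [Real.log_div hy.ne' hx.ne'] at e1
  rw [Real.log_div hx.ne' hy.ne'] at e2
  have e3 : y / x ≤ 1 + 2 * d := by rw [div_le_iff₀ hx]; nlinarith
  have e4 : x / y ≤ 1 + 2 * d := by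
    rw [div_le_iff₀ hy]
    nlinarith [mul_nonneg (mul_nonneg hd0 hx.le) (by linarith : 0 ≤ 1 - 2 * d)]
  rw [abs_le]; constructor <;> linarith

/-- oscillation in time -/
lemma Rad.osc_t (R : Rad β τ U) (hβ : 6 ≤ β) {s t t' ρ : ℝ} (ht : t ∈ Icc 0 τ)
    (ht' : t' ∈ Icc 0 τ) (hρ0 : 0 < ρ) (hρ : ρ ≤ 1 / 32) (h : |t' - t| ≤ ρ ^ 2 * U 1 s t) :
    |Real.log (U 1 s t') - Real.log (U 1 s t)| ≤ ρ ∧
    |Real.log (U 2 s t') - Real.log (U 2 s t)| ≤ 36 * ρ := by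
  have hβ0 : 0 < β := by linarith
  have hp := R.p_pos hβ0 s ht
  have hθ := R.th_pos hβ0 s ht
  have hN := R.len_pos hβ s ht
  have hρ2 : ρ ^ 2 ≤ ρ / 32 := by nlinarith
  have h16 : |t' - t| ≤ U 1 s t / 16 := by nlinarith
  constructor
  · refine le_trans (abs_log_sub_le (d := ρ / 2) hp (by linarith) ?_) (by linarith)
    nlinarith [R.p_time hβ s ht ht']
  set k := ρ * len U s t with hk
  have hk0 : 0 < k := mul_pos hρ0 hN
  have near : ∀ x ∈ Icc 0 τ, |x - t| ≤ |t' - t| → ∀ ξ, |ξ - s| ≤ k →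
      |Real.log (U 2 ξ x) - Real.log (U 2 s x)| ≤ 4 * ρ ∧
      |E1 U ξ x - E1 U s x| ≤ 12 / len U s t := by
    intro x hx hx' ξ hξ
    have e1 := R.len_time hβ ht hx (hx'.trans h16)
    obtain ⟨-, e2, e3⟩ := R.osc_s hβ (ρ := 2 * ρ) (s := s) (s' := ξ) hx (by linarith)
      (by nlinarith)
    refine ⟨by linarith, e3.trans ?_⟩
    rw [div_le_div_iff₀ (R.len_pos hβ s hx) hN]; linarith
  have mv : ∀ x ∈ Icc 0 τ, ∃ ξ, |ξ - s| ≤ k ∧ U 1 (s + k) x - U 1 s x = U 2 ξ x * k := by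
    intro x hx
    obtain ⟨ξ, hξ, e⟩ := exists_hasDerivAt_eq_slope (fun s => U 1 s x) (fun s => U 2 s x)
      (show s < s + k by linarith)
      (fun y _ => (R.ds 1 (by norm_num) y x hx).continuousAt.continuousWithinAt)
      fun y _ => R.ds 1 (by norm_num) y x hx
    refine ⟨ξ, abs_le.mpr ⟨by linarith [hξ.1], by linarith [hξ.2]⟩, ?_⟩
    rw [e, add_sub_cancel_left, div_mul_cancel₀ _ hk0.ne']
  have J := (R.jets hβ0 (ht.1.trans ht.2)).2.1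
  have h1 := lip_time (f := fun r => U 1 (s + k) r - U 1 s r) (C := 12 / len U s t) ht ht'
    (fun x hx => (J.dt (s + k) x hx).sub (J.dt s x hx)) fun x hx hx' =>
      (near x hx hx' (s + k) (by rw [add_sub_cancel_left, abs_of_pos hk0])).2
  obtain ⟨ξ, hξ, e⟩ := mv t ht
  obtain ⟨ξ', hξ', e'⟩ := mv t' ht'
  have h2 : 12 / len U s t * |t' - t| ≤ 12 * ρ * U 2 s t * k := by
    have e1 : U 1 s t = len U s t ^ 2 * U 2 s t := by rw [R.len_sq hβ s ht]; field_simp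
    refine (mul_le_mul_of_nonneg_left h (by positivity)).trans (le_of_eq ?_)
    rw [e1, hk]; field_simp
  rw [e, e', ← sub_mul, abs_mul, abs_of_pos hk0] at h1
  have h3 := le_of_mul_le_mul_right (h1.trans h2) hk0
  have h4 := abs_sub_le_of_log (d := 2 * ρ) hθ (R.th_pos hβ0 ξ ht) (by linarith)
    (R.osc_s hβ (ρ := ρ) ht (by linarith) hξ).2.1
  have h5 := abs_log_sub_le (d := 16 * ρ) (y := U 2 ξ' t') hθ (by linarith)
    ((abs_sub_le _ (U 2 ξ t) _).trans (by linarith))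
  have h6 := (near t' ht' le_rfl ξ' hξ').1
  rw [abs_sub_comm] at h6
  exact (abs_sub_le _ (Real.log (U 2 ξ' t')) _).trans (by linarith)

/-- oscillation on the cylinder `|s' - s| ≤ ρ √(p/Θ)`, `|t' - t| ≤ ρ² p` -/
theorem Rad.cyl_log (R : Rad β τ U) (hβ : 6 ≤ β) {s s' t t' ρ : ℝ} (ht : t ∈ Icc 0 τ)
    (ht' : t' ∈ Icc 0 τ) (hρ0 : 0 < ρ) (hρ : ρ ≤ 1 / 32) (hs : |s' - s| ≤ ρ * len U s t)
    (h : |t' - t| ≤ ρ ^ 2 * U 1 s t) :
    |Real.log (U 1 s' t') - Real.log (U 1 s t)| ≤ 5 * ρ ∧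
    |Real.log (U 2 s' t') - Real.log (U 2 s t)| ≤ 40 * ρ := by
  have hp := R.p_pos (by linarith) s ht
  have e1 := R.len_time hβ (s := s) ht ht' (by nlinarith [mul_le_mul hρ hρ hρ0.le (by norm_num)])
  obtain ⟨a1, a2, -⟩ := R.osc_s hβ (ρ := 2 * ρ) (s := s) (s' := s') ht' (by linarith)
    (by nlinarith)
  obtain ⟨a3, a4⟩ := R.osc_t hβ ht ht' hρ0 hρ h
  exact ⟨(abs_sub_le _ (Real.log (U 1 s t')) _).trans (by linarith),
    (abs_sub_le _ (Real.log (U 2 s t')) _).trans (by linarith)⟩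

theorem Rad.cyl (R : Rad β τ U) (hβ : 6 ≤ β) {s s' t t' ρ : ℝ} (ht : t ∈ Icc 0 τ)
    (ht' : t' ∈ Icc 0 τ) (hρ0 : 0 < ρ) (hρ : ρ ≤ 1 / 40) (hs : |s' - s| ≤ ρ * len U s t)
    (h : |t' - t| ≤ ρ ^ 2 * U 1 s t) :
    |U 1 s' t' - U 1 s t| ≤ 10 * ρ * U 1 s t ∧ |U 2 s' t' - U 2 s t| ≤ 80 * ρ * U 2 s t := by
  obtain ⟨h1, h2⟩ := R.cyl_log hβ ht ht' hρ0 (by linarith) hs h
  have hβ0 : 0 < β := by linarith
  exact ⟨(abs_sub_le_of_log (R.p_pos hβ0 s ht) (R.p_pos hβ0 s' ht') (by linarith) h1).trans_eq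
    (by ring), (abs_sub_le_of_log (R.th_pos hβ0 s ht) (R.th_pos hβ0 s' ht') (by linarith)
    h2).trans_eq (by ring)⟩

end Pool.Agent.MP_67f0e4_gt.R48
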