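import Pool.Agent.MP_67f0e4_gt.R48.Crude

/-! The maximum principles for `m`, `k`, `P`, `G`, `z S`. -/

namespace Pool.Agent.MP_67f0e4_gt.R48

open Set Filter Topology

variable {β τ : ℝ} {U : ℕ → ℝ → ℝ → ℝ}

lemma Rad.z_pos (R : Rad β τ U) (hβ : 6 ≤ β) (s : ℝ) {t : ℝ} (ht : t ∈ Icc 0 τ) :
    0 < zz U s t := by
  obtain ⟨C, -, h⟩ := R.crude hβ (ht.1.trans ht.2)
  exact (h s t ht).z0

lemma Rad.z_init (R : Rad β τ U) (hβ : 6 ≤ β) (s : ℝ) : zz U s 0 = β / (lam s + β) := by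
  have : 0 < lam s + β := by linarith [lam_pos s]
  rw [zz, R.init, p0]; field_simp; ring

lemma bar_box {C ε σ A p : ℝ} (hε : 0 < ε) (hσ : σ < 1) (hp : 0 < p) (h : A ≤ C * p) :
    ε * (σ - 1 + A) * (1 / p) ≤ C * ε := by
  rw [mul_one_div, div_le_iff₀ hp]
  have := mul_le_mul_of_nonneg_left h hε.le
  have := mul_pos hε (sub_pos.mpr hσ)
  linarith

lemma bar_drift {C ε σ A p θ y : ℝ} (hε : 0 < ε) (hp : 0 < p) (hθ : 0 < θ) (hA : 0 ≤ A)
    (h : A ≤ C * p) (h' : |y| * A ≤ C * θ) :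
    ε * (σ - 1 + A) * (1 / p - y / θ) ≤ ε * (1 - σ) * (y - θ / p) / θ + 2 * C * ε := by
  have e1 : A / p ≤ C := (div_le_iff₀ hp).mpr h
  have e2 : -y * A / θ ≤ C :=
    (div_le_iff₀ hθ).mpr ((mul_le_mul_of_nonneg_right (neg_le_abs y) hA).trans h')
  have e3 : ε * (σ - 1 + A) * (1 / p - y / θ) =
      ε * (1 - σ) * (y - θ / p) / θ + ε * (A / p) + ε * (-y * A / θ) := by
    field_simp; ring
  have := mul_le_mul_of_nonneg_left e1 hε.le
  have := mul_le_mul_of_nonneg_left e2 hε.le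
  linarith

/-- `m ≤ 1` -/
lemma Rad.m_le (R : Rad β τ U) (hβ : 6 ≤ β) (s : ℝ) {t : ℝ} (ht : t ∈ Icc 0 τ) :
    U 2 s t ≤ U 1 s t := by
  have hτ := ht.1.trans ht.2
  have hβ0 : 0 < β := by linarith
  obtain ⟨C, hC, h⟩ := R.crude hβ hτ
  obtain ⟨-, J1, J2, -⟩ := R.jets hβ0 hτ
  have n1 : ∀ s, ∀ t ∈ Icc 0 τ, U 1 s t ≠ 0 := fun s t ht => (R.p_pos hβ0 s ht).ne'
  have n2 : ∀ s, ∀ t ∈ Icc 0 τ, U 2 s t ≠ 0 := fun s t ht => (R.th_pos hβ0 s ht).ne'
  have lg : ∀ s, ∀ t ∈ Icc 0 τ, (Real.log (U 2 s t) - Real.log (U 1 s t) ≤ 0 ↔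
      U 2 s t ≤ U 1 s t) := fun s t ht => by
    rw [sub_nonpos, Real.log_le_log_iff (R.th_pos hβ0 s ht) (R.p_pos hβ0 s ht)]
  refine (lg s t ht).mp (R.mp hβ hτ ((J2.log n2).sub (J1.log n1)) (fun s t => 1 / U 1 s t)
    (fun s t => 2 * (U 1 s t - U 2 s t) / U 1 s t ^ 2) (fun s t ht => ?_) (fun s => ?_) (M := C)
    (fun s t ht => ?_) (C := C) (ε₀ := 1) (by linarith) one_pos
    (fun ε hε _ s t ht k0 => ?_) s t ht)
  · have := n1 s t ht
    have := n2 s t ht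
    simp only [E1, E2]; field_simp; ring
  · refine (lg s 0 ⟨le_rfl, hτ⟩).mpr ?_
    have hl := lam_pos s
    rw [R.init2 hβ0 hτ, R.init, th0_div_p0 hβ0]
    refine mul_le_of_le_one_left (p0_pos hβ0 s).le ((div_le_one (by positivity)).mpr ?_)
    nlinarith [sg_le_lam s]
  · rw [← Real.log_div (n2 s t ht) (n1 s t ht)]
    linarith [Real.log_le_sub_one_of_pos (div_pos (R.th_pos hβ0 s ht) (R.p_pos hβ0 s ht)),
      (h s t ht).a8]
  · have e1 : U 1 s t ≤ U 2 s t := le_of_not_ge fun h' => absurd ((lg s t ht).mpr h') (not_le.mpr k0)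
    have e2 : 2 * (U 1 s t - U 2 s t) / U 1 s t ^ 2 ≤ 0 :=
      div_nonpos_of_nonpos_of_nonneg (by linarith) (sq_nonneg _)
    linarith [bar_box hε (sg_lt_one s) (R.p_pos hβ0 s ht) (h s t ht).a2]

/-- `y ≤ m` -/
lemma Rad.k_le (R : Rad β τ U) (hβ : 6 ≤ β) (s : ℝ) {t : ℝ} (ht : t ∈ Icc 0 τ) :
    U 3 s t / U 2 s t ≤ U 2 s t / U 1 s t := by
  have hτ := ht.1.trans ht.2
  have hβ0 : 0 < β := by linarith
  obtain ⟨C, hC, h⟩ := R.crude hβ hτ
  obtain ⟨-, J1, J2, J3⟩ := R.jets hβ0 hτ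
  have n1 : ∀ s, ∀ t ∈ Icc 0 τ, U 1 s t ≠ 0 := fun s t ht => (R.p_pos hβ0 s ht).ne'
  have n2 : ∀ s, ∀ t ∈ Icc 0 τ, U 2 s t ≠ 0 := fun s t ht => (R.th_pos hβ0 s ht).ne'
  refine sub_nonpos.mp (R.mp hβ hτ ((J3.div J2 n2).sub (J2.div J1 n1))
    (fun s t => 1 / U 1 s t - U 3 s t / U 2 s t / U 2 s t)
    (fun s t => -(3 * (U 2 s t / U 1 s t) ^ 2 * (U 3 s t / U 2 s t - U 2 s t / U 1 s t) / U 2 s t)
      - 2 * U 2 s t * (U 1 s t - U 2 s t) / U 1 s t ^ 3) (fun s t ht => ?_) (fun s => ?_) (M := C)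
    (fun s t ht => ?_) (C := 2 * C) (ε₀ := 1 / C) (by linarith) (by positivity)
    (fun ε hε hε' s t ht k0 => ?_) s t ht)
  · have := n1 s t ht
    have := n2 s t ht
    simp only [E1, E2, E3]; field_simp; ring
  · have hl := lam_pos s
    have hL : 0 < lam s + β := by linarith
    have e1 := (th0_pos hβ0 s).ne'
    have e2 := (p0_pos hβ0 s).ne'
    rw [R.init3 hβ0 hτ, R.init2 hβ0 hτ, R.init, mul_div_cancel_left₀ _ e1, th0_div_p0 hβ0,
      mul_div_cancel_right₀ _ e2]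
    have e3 : β * sg s / (lam s * (lam s + β)) = sg s / lam s - sg s / (lam s + β) := by
      field_simp; ring
    have e4 : 1 - sg s ≤ sg s / lam s := by
      rw [le_div_iff₀ hl, mul_comm]; exact lam_mul_le s
    have e5 := div_pos (sg_pos s) hL
    rw [e3, mul_div_assoc]
    linarith
  · linarith [le_abs_self (U 3 s t / U 2 s t), (h s t ht).a9,
      div_pos (R.th_pos hβ0 s ht) (R.p_pos hβ0 s ht)]
  · have hp := R.p_pos hβ0 s ht
    have hθ := R.th_pos hβ0 s ht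
    have e1 := bar_drift (σ := sg s) hε hp hθ (div_pos (sg_pos s) (by linarith [lam_pos s])).le
      (h s t ht).a2 (h s t ht).a3
    have e2 : 0 ≤ 2 * U 2 s t * (U 1 s t - U 2 s t) / U 1 s t ^ 3 :=
      div_nonneg (mul_nonneg (by linarith) (sub_nonneg.mpr (R.m_le hβ s ht))) (by positivity)
    have e3 : ε * (1 - sg s) ≤ 3 * (U 2 s t / U 1 s t) ^ 2 := by
      have e4 := mul_le_mul_of_nonneg_left (h s t ht).a5 hε.le
      have e5 : ε * C ≤ 1 := (le_div_iff₀ (by linarith)).mp hε'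
      have e6 := mul_le_mul_of_nonneg_right e5 (sq_nonneg (U 2 s t / U 1 s t))
      linarith [sq_nonneg (U 2 s t / U 1 s t)]
    have e4 := div_le_div_of_nonneg_right (mul_le_mul_of_nonneg_right e3 k0.le) hθ.le
    linarith

/-- `Θ ≤ z² / β` -/
lemma Rad.P_le (R : Rad β τ U) (hβ : 6 ≤ β) (s : ℝ) {t : ℝ} (ht : t ∈ Icc 0 τ) :
    β * U 2 s t ≤ zz U s t ^ 2 := by
  have hτ := ht.1.trans ht.2
  have hβ0 : 0 < β := by linarith
  obtain ⟨C, hC, h⟩ := R.crude hβ hτ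
  obtain ⟨-, -, J2, -⟩ := R.jets hβ0 hτ
  have Jz := R.jz hβ0 hτ
  have n1 : ∀ s, ∀ t ∈ Icc 0 τ, U 1 s t ≠ 0 := fun s t ht => (R.p_pos hβ0 s ht).ne'
  have n2 : ∀ s, ∀ t ∈ Icc 0 τ, U 2 s t ≠ 0 := fun s t ht => (R.th_pos hβ0 s ht).ne'
  have nz : ∀ s, ∀ t ∈ Icc 0 τ, zz U s t ≠ 0 := fun s t ht => (R.z_pos hβ s ht).ne'
  have lg : ∀ s, ∀ t ∈ Icc 0 τ, Real.log (U 2 s t) - Real.log (zz U s t) - Real.log (zz U s t) +
      (Real.log β + 0 * t) = Real.log (β * U 2 s t / zz U s t ^ 2) := fun s t ht => by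
    rw [Real.log_div (mul_ne_zero hβ0.ne' (n2 s t ht)) (pow_ne_zero 2 (nz s t ht)),
      Real.log_mul hβ0.ne' (n2 s t ht), Real.log_pow]
    push_cast; ring
  have ps : ∀ s, ∀ t ∈ Icc 0 τ, 0 < β * U 2 s t / zz U s t ^ 2 := fun s t ht =>
    div_pos (mul_pos hβ0 (R.th_pos hβ0 s ht)) (pow_pos (R.z_pos hβ s ht) 2)
  have main := R.mp hβ hτ ((((J2.log n2).sub (Jz.log nz)).sub (Jz.log nz)).add
    (Jet.aff τ (Real.log β) 0)) (fun s t => 1 / U 1 s t)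
    (fun s t => -(U 2 s t / U 1 s t ^ 2) - 2 * U 2 s t / zz U s t ^ 2) (fun s t ht => ?_)
    (fun s => ?_) (M := β * C) (fun s t ht => ?_) (C := C) (ε₀ := 1) (by linarith) one_pos
    (fun ε hε _ s t ht _ => ?_) s t ht
  · rw [lg s t ht, Real.log_nonpos_iff (ps s t ht).le,
      div_le_one (pow_pos (R.z_pos hβ s ht) 2)] at main
    exact main
  · have := n1 s t ht
    have := n2 s t ht
    have := nz s t ht
    simp only [E1, E2]; field_simp; ring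
  · have hL : 0 < lam s + β := by linarith [lam_pos s]
    rw [lg s 0 ⟨le_rfl, hτ⟩, Real.log_nonpos_iff (ps s 0 ⟨le_rfl, hτ⟩).le, R.z_init hβ,
      R.init2 hβ0 hτ]
    have e1 : β * th0 β s / (β / (lam s + β)) ^ 2 = sg s := by rw [th0]; field_simp
    rw [e1]; exact (sg_lt_one s).le
  · rw [lg s t ht]
    have e1 : β * U 2 s t / zz U s t ^ 2 ≤ β * C := by
      rw [div_le_iff₀ (pow_pos (R.z_pos hβ s ht) 2), mul_assoc]
      exact mul_le_mul_of_nonneg_left (h s t ht).a7 hβ0.le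
    linarith [Real.log_le_sub_one_of_pos (ps s t ht)]
  · have hθ := R.th_pos hβ0 s ht
    have e1 : 0 ≤ U 2 s t / U 1 s t ^ 2 := by positivity
    have e2 : 0 ≤ 2 * U 2 s t / zz U s t ^ 2 := by positivity
    linarith [bar_box hε (sg_lt_one s) (R.p_pos hβ0 s ht) (h s t ht).a2]

/-- `y ≥ -(2/β) z` -/
lemma Rad.y_ge (R : Rad β τ U) (hβ : 6 ≤ β) (s : ℝ) {t : ℝ} (ht : t ∈ Icc 0 τ) :
    -(2 / β * zz U s t) ≤ U 3 s t / U 2 s t := by
  have hτ := ht.1.trans ht.2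
  have hβ0 : 0 < β := by linarith
  obtain ⟨C, hC, h⟩ := R.crude hβ hτ
  obtain ⟨-, -, J2, J3⟩ := R.jets hβ0 hτ
  have Jz := R.jz hβ0 hτ
  have n1 : ∀ s, ∀ t ∈ Icc 0 τ, U 1 s t ≠ 0 := fun s t ht => (R.p_pos hβ0 s ht).ne'
  have n2 : ∀ s, ∀ t ∈ Icc 0 τ, U 2 s t ≠ 0 := fun s t ht => (R.th_pos hβ0 s ht).ne'
  have hA : 0 < 2 / β := by positivity
  have main := R.mp hβ hτ (((Jet.aff τ (-(2 / β)) 0).mul Jz).sub (J3.div J2 n2))
    (fun s t => 1 / U 1 s t - U 3 s t / U 2 s t / U 2 s t)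
    (fun s t => -(2 / β * ((-(2 / β) + 0 * t) * zz U s t - U 3 s t / U 2 s t)) -
      (2 / β) ^ 2 * zz U s t +
      2 * (U 2 s t / U 1 s t ^ 2) * (U 3 s t / U 2 s t - U 2 s t / U 1 s t)) (fun s t ht => ?_)
    (fun s => ?_) (M := C) (fun s t ht => ?_) (C := 2 * C) (ε₀ := 1) (by linarith) one_pos
    (fun ε hε _ s t ht k0 => ?_) s t ht
  · linarith
  · have := n1 s t ht
    have := n2 s t ht
    simp only [E1, E2, E3]; field_simp; ring
  · have hL : 0 < lam s + β := by linarith [lam_pos s]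
    rw [R.init3 hβ0 hτ, R.init2 hβ0 hτ, mul_div_cancel_left₀ _ (th0_pos hβ0 s).ne', R.z_init hβ]
    have e1 : (-(2 / β) + 0 * 0) * (β / (lam s + β)) = -(2 / (lam s + β)) := by field_simp; ring
    have e2 : 2 * sg s / (lam s + β) ≤ 2 / (lam s + β) :=
      div_le_div_of_nonneg_right (by linarith [sg_lt_one s]) hL.le
    rw [e1]
    linarith [sg_lt_one s]
  · have := mul_pos hA (R.z_pos hβ s ht)
    linarith [neg_le_abs (U 3 s t / U 2 s t), (h s t ht).a9]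
  · have hp := R.p_pos hβ0 s ht
    have hθ := R.th_pos hβ0 s ht
    have hk := sub_nonpos.mpr (R.k_le hβ s ht)
    have e1 := bar_drift (σ := sg s) hε hp hθ (div_pos (sg_pos s) (by linarith [lam_pos s])).le
      (h s t ht).a2 (h s t ht).a3
    have e2 : ε * (1 - sg s) * (U 3 s t / U 2 s t - U 2 s t / U 1 s t) / U 2 s t ≤ 0 :=
      div_nonpos_of_nonpos_of_nonneg (mul_nonpos_of_nonneg_of_nonpos
        (mul_nonneg hε.le (by linarith [sg_lt_one s])) hk) hθ.le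
    have e3 := mul_pos hA k0
    have e4 := mul_pos (pow_pos hA 2) (R.z_pos hβ s ht)
    have e5 : 2 * (U 2 s t / U 1 s t ^ 2) * (U 3 s t / U 2 s t - U 2 s t / U 1 s t) ≤ 0 :=
      mul_nonpos_of_nonneg_of_nonpos (by positivity) hk
    linarith

lemma half_lam (s : ℝ) : lam s / 2 ≤ s - Real.log (lam s) := by
  have hl := lam_pos s
  have h1 : lam s / 2 ≤ Real.sinh (lam s / 2) := Real.self_le_sinh_iff.mpr (by linarith)
  rw [Real.sinh_eq] at h1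
  have h2 : Real.exp (lam s / 2) * Real.exp (lam s / 2) = 1 + Real.exp s := by
    rw [← Real.exp_add, add_halves, exp_lam]
  have h3 : Real.exp (-(lam s / 2)) * Real.exp (lam s / 2) = 1 := by
    rw [← Real.exp_add]; simp
  have h4 := mul_le_mul_of_nonneg_right h1 (Real.exp_pos (lam s / 2)).le
  have h5 : lam s ≤ Real.exp (s - lam s / 2) := by
    rw [Real.exp_sub, le_div_iff₀ (Real.exp_pos _)]; linarith
  linarith [(Real.log_le_iff_le_exp hl).mpr h5]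

/-- `z S ≥ 1` -/
lemma Rad.zS_ge (R : Rad β τ U) (hβ : 6 ≤ β) (s : ℝ) {t : ℝ} (ht : t ∈ Icc 0 τ) :
    1 ≤ zz U s t * (s - Real.log (U 1 s t)) := by
  have hτ := ht.1.trans ht.2
  have hβ0 : 0 < β := by linarith
  obtain ⟨C, hC, h⟩ := R.crude hβ hτ
  obtain ⟨-, J1, -, -⟩ := R.jets hβ0 hτ
  have Jz := R.jz hβ0 hτ
  have n1 : ∀ s, ∀ t ∈ Icc 0 τ, U 1 s t ≠ 0 := fun s t ht => (R.p_pos hβ0 s ht).ne'
  have n2 : ∀ s, ∀ t ∈ Icc 0 τ, U 2 s t ≠ 0 := fun s t ht => (R.th_pos hβ0 s ht).ne'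
  have Js : Jet τ (fun s _ => s) (fun _ _ => 1) (fun _ _ => 0) (fun _ _ => 0) :=
    Jet.space (h := fun s => s) (h1 := fun _ => 1) (h2 := fun _ => 0) (fun s => hasDerivAt_id s)
      fun s => hasDerivAt_const s 1
  have main := R.mp hβ hτ ((Jet.aff τ 1 0).sub (Jz.mul (Js.sub (J1.log n1))))
    (fun s t => 1 / U 1 s t)
    (fun s t => -((U 1 s t - U 2 s t) / U 1 s t * (zz U s t / U 1 s t + 2))) (fun s t ht => ?_)
    (fun s => ?_) (M := 1 + C) (fun s t ht => ?_) (C := C) (ε₀ := 1) (by linarith) one_pos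
    (fun ε hε _ s t ht _ => ?_) s t ht
  · linarith
  · have := n1 s t ht
    have := n2 s t ht
    simp only [E1]; field_simp; ring
  · have hl := lam_pos s
    have hL : 0 < lam s + β := by linarith
    rw [R.z_init hβ, R.init, p0, Real.log_div hl.ne' hL.ne']
    have e1 : 1 ≤ β / (lam s + β) * (s - (Real.log (lam s) - Real.log (lam s + β))) := by
      rw [div_mul_eq_mul_div, le_div_iff₀ hL]
      have e2 : lam s / 2 + 1 ≤ s - (Real.log (lam s) - Real.log (lam s + β)) := by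
        linarith [half_lam s, log_L hβ s]
      nlinarith [mul_le_mul_of_nonneg_left e2 hβ0.le]
    linarith
  · linarith [(h s t ht).a10]
  · have hp := R.p_pos hβ0 s ht
    have hz := R.z_pos hβ s ht
    have e1 : 0 ≤ (U 1 s t - U 2 s t) / U 1 s t * (zz U s t / U 1 s t + 2) :=
      mul_nonneg (div_nonneg (sub_nonneg.mpr (R.m_le hβ s ht)) hp.le) (by positivity)
    linarith [bar_box hε (sg_lt_one s) hp (h s t ht).a2]

end Pool.Agent.MP_67f0e4_gt.R48
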