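import Pool.Agent.MP_67f0e4_gt.R48.Est

/-! The maximum principle for `Q = z² (1/Θ - 1/p)`. -/

namespace Pool.Agent.MP_67f0e4_gt.R48

open Set Filter Topology

variable {β τ : ℝ} {U : ℕ → ℝ → ℝ → ℝ}

lemma Rad.d_m (R : Rad β τ U) (hβ : 6 ≤ β) (s : ℝ) {t : ℝ} (ht : t ∈ Icc 0 τ) :
    HasDerivAt (fun s => U 2 s t / U 1 s t)
      (U 2 s t / U 1 s t * (U 3 s t / U 2 s t - U 2 s t / U 1 s t)) s := by
  have n1 := (R.p_pos (by linarith) s ht).ne'
  have n2 := (R.th_pos (by linarith) s ht).ne'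
  have d1 : HasDerivAt (fun s => U 1 s t) (U 2 s t) s := R.ds 1 (by norm_num) s t ht
  have d2 : HasDerivAt (fun s => U 2 s t) (U 3 s t) s := R.ds 2 (by norm_num) s t ht
  exact (d2.div d1 n1).congr_deriv (by field_simp)

lemma Rad.m_anti (R : Rad β τ U) (hβ : 6 ≤ β) {t : ℝ} (ht : t ∈ Icc 0 τ) :
    Antitone fun s => U 2 s t / U 1 s t :=
  antitone_of_hasDerivAt_nonpos (fun s => R.d_m hβ s ht) fun s => mul_nonpos_of_nonneg_of_nonpos
    (div_pos (R.th_pos (by linarith) s ht) (R.p_pos (by linarith) s ht)).le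
    (sub_nonpos.mpr (R.k_le hβ s ht))

lemma Rad.d_logp (R : Rad β τ U) (hβ : 6 ≤ β) (s : ℝ) {t : ℝ} (ht : t ∈ Icc 0 τ) :
    HasDerivAt (fun s => Real.log (U 1 s t)) (U 2 s t / U 1 s t) s :=
  (R.ds 1 (by norm_num) s t ht).log (R.p_pos (by linarith) s ht).ne'

/-- two-sided crude bound of `p` near the origin -/
lemma Rad.p_left (R : Rad β τ U) (hβ : 6 ≤ β) : ∃ D, 0 < D ∧ ∀ s, s ≤ 0 → ∀ t ∈ Icc 0 τ,
    |s - Real.log (U 1 s t)| ≤ D := by
  have hβ0 : 0 < β := by linarith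
  obtain ⟨K, hK, h⟩ := R.apr
  refine ⟨2 * K * (β + 1), by positivity, fun s hs t ht => ?_⟩
  obtain ⟨h1, h2, -⟩ := h s t ht
  have hp := R.p_pos hβ0 s ht
  have hl := lam_pos s
  have he := Real.exp_pos s
  have he1 : Real.exp s ≤ 1 := Real.exp_le_one_iff.mpr hs
  have hD := Real.add_one_le_exp (2 * K * (β + 1))
  have e1 : p0 β s ≤ Real.exp s := (div_le_self hl.le (by linarith)).trans (lam_le_exp s)
  have e2 : U 1 s t ≤ Real.exp (2 * K * (β + 1) + s) := by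
    rw [Real.exp_add]
    exact h2.trans (mul_le_mul (by nlinarith) e1 (p0_pos hβ0 s).le (Real.exp_pos _).le)
  have e3 : Real.exp s / 2 ≤ sg s := div_le_div_of_nonneg_left he.le (by linarith) (by linarith)
  have e4 : Real.exp s / 2 / (β + 1) ≤ p0 β s :=
    div_le_div₀ hl.le (e3.trans (sg_le_lam s)) (by linarith) (by linarith [lam_le_exp s])
  have e5 : Real.exp (s - 2 * K * (β + 1)) ≤ U 1 s t := by
    rw [Real.exp_sub, div_le_iff₀ (Real.exp_pos _)]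
    have e6 := e4.trans h1
    rw [div_div, div_le_iff₀ (by linarith)] at e6
    nlinarith [mul_le_mul_of_nonneg_left hD hp.le]
  rw [abs_le]
  constructor
  · linarith [(Real.log_le_iff_le_exp hp).mpr e2]
  · linarith [(Real.le_log_iff_exp_le hp).mpr e5]

lemma Rad.m_left (R : Rad β τ U) (hβ : 6 ≤ β) : ∃ L, ∀ s, s ≤ -L → ∀ t ∈ Icc 0 τ,
    4 / 5 ≤ U 2 s t / U 1 s t := by
  obtain ⟨D, hD, h⟩ := R.p_left hβ
  refine ⟨10 * D, fun s hs t ht => ?_⟩
  obtain ⟨ξ, hξ, e⟩ := exists_hasDerivAt_eq_slope (fun s => Real.log (U 1 s t))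
    (fun s => U 2 s t / U 1 s t) (show s < s + 10 * D by linarith)
    (fun x _ => (R.d_logp hβ x ht).continuousAt.continuousWithinAt) fun x _ => R.d_logp hβ x ht
  refine le_trans ?_ (R.m_anti hβ ht hξ.1.le)
  have h1 := abs_le.mp (h s (by linarith) t ht)
  have h2 := abs_le.mp (h (s + 10 * D) (by linarith) t ht)
  simp only
  rw [e, le_div_iff₀ (by linarith)]
  linarith [h1.1, h2.2]

lemma sg_mono {s s' : ℝ} (h : s ≤ s') : sg s ≤ sg s' := by
  have h1 := Real.exp_pos s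
  have h2 := Real.exp_le_exp.mpr h
  rw [sg, sg, div_le_div_iff₀ (by linarith) (by linarith)]
  linarith

lemma Q_alg {p θ z : ℝ} (hp : 0 < p) (hθ : 0 < θ) (hm : θ ≤ p) :
    (θ / p) ^ 2 * ((1 / θ - 1 / p) * z) * (4 - (1 / θ - 1 / p) * z) + 6 * (1 - θ / p) -
      4 * (1 - θ / p) ^ 2 ≤ 4 := by
  have h1 : θ / p ≤ 1 := (div_le_one hp).mpr hm
  nlinarith [mul_nonneg (sq_nonneg (θ / p)) (sq_nonneg ((1 / θ - 1 / p) * z - 2))]

lemma Q_bar {C ε σ σ₀ A lg p θ z : ℝ} (hε : 0 < ε) (hp : 0 < p) (hθ : 0 < θ) (hz : 0 < z)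
    (hσ : 0 < σ) (hσ1 : σ < 1) (hσ₀ : 0 < σ₀) (hm : θ ≤ p) (hC : 1 ≤ C) (hA : 0 ≤ A) (hA1 : A ≤ 1)
    (hlg : 1 ≤ lg) (a1 : 2 * (σ * (1 - σ)) ≤ C * θ) (a2 : A ≤ C * p) (a4 : θ / p ≤ C * z)
    (alt : 4 / 5 ≤ θ / p ∨ σ₀ ≤ σ) :
    ε * (4 * (1 - σ) / σ ^ 2 + σ * (1 - σ)) / θ +
      ε * (-2 * (1 - σ) / σ ^ 2 + A) * (1 / p + 2 * (θ / p) / p + 4 * (θ / p) / z) ≤
      (8 * C + 2 * C / σ₀) * (ε * (1 / σ ^ 2 + lg)) := by
  have h1 : θ / p ≤ 1 := (div_le_one hp).mpr hm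
  have h0 : 0 < θ / p := div_pos hθ hp
  have e0 : ε * (4 * (1 - σ) / σ ^ 2 + σ * (1 - σ)) / θ +
      ε * (-2 * (1 - σ) / σ ^ 2 + A) * (1 / p + 2 * (θ / p) / p + 4 * (θ / p) / z) =
      ε * (1 / σ ^ 2 * (2 * (1 - σ) / θ * (2 - θ / p - 2 * (θ / p) ^ 2)) + σ * (1 - σ) / θ +
        A / p * (1 + 2 * (θ / p)) + 4 * A * (θ / p / z) -
        8 * (1 - σ) / σ ^ 2 * (θ / p / z)) := by
    field_simp; ring
  have hs : 0 < 1 - σ := by linarith
  have e1 : σ * (1 - σ) / θ ≤ C := by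
    rw [div_le_iff₀ hθ]; nlinarith [mul_pos hσ hs]
  have e2 : A / p * (1 + 2 * (θ / p)) ≤ C * 3 :=
    mul_le_mul ((div_le_iff₀ hp).mpr a2) (by linarith) (by linarith) (by linarith)
  have e3 : 4 * A * (θ / p / z) ≤ 4 * C :=
    mul_le_mul (by linarith) ((div_le_iff₀ hz).mpr a4) (by positivity) (by norm_num)
  have e4 : 0 ≤ 8 * (1 - σ) / σ ^ 2 * (θ / p / z) := by positivity
  have hCσ : 0 ≤ 2 * C / σ₀ := by positivity
  have e5 : 2 * (1 - σ) / θ * (2 - θ / p - 2 * (θ / p) ^ 2) ≤ 2 * C / σ₀ := by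
    have e6 : 0 ≤ 2 * (1 - σ) / θ := by positivity
    rcases alt with h | h
    · exact (mul_nonpos_of_nonneg_of_nonpos e6 (by nlinarith)).trans hCσ
    · have e7 : 2 * (1 - σ) / θ ≤ C / σ₀ := by
        rw [div_le_div_iff₀ hθ hσ₀]
        nlinarith [mul_le_mul_of_nonneg_right h hs.le]
      calc 2 * (1 - σ) / θ * (2 - θ / p - 2 * (θ / p) ^ 2) ≤ 2 * (1 - σ) / θ * 2 :=
            mul_le_mul_of_nonneg_left (by nlinarith) e6
        _ ≤ C / σ₀ * 2 := mul_le_mul_of_nonneg_right e7 (by norm_num)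
        _ = 2 * C / σ₀ := by ring
  have hi : 0 < 1 / σ ^ 2 := by positivity
  have e6 := mul_le_mul_of_nonneg_left e5 hi.le
  have e7 : 1 / σ ^ 2 * (2 * C / σ₀) + 8 * C ≤ (8 * C + 2 * C / σ₀) * (1 / σ ^ 2 + lg) := by
    nlinarith [mul_nonneg hCσ (by linarith : 0 ≤ lg), mul_nonneg (by linarith : 0 ≤ 8 * C) hi.le,
      mul_le_mul_of_nonneg_left hlg (by linarith : 0 ≤ 8 * C)]
  rw [e0, mul_left_comm (8 * C + 2 * C / σ₀) ε]
  exact mul_le_mul_of_nonneg_left (by linarith) hε.le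

/-- `Q ≤ β + 1 + 4 t` -/
lemma Rad.Q_le' (R : Rad β τ U) (hβ : 6 ≤ β) (s : ℝ) {t : ℝ} (ht : t ∈ Icc 0 τ) :
    zz U s t * zz U s t / U 2 s t - zz U s t * zz U s t / U 1 s t ≤ β + 1 + 4 * t := by
  have hτ := ht.1.trans ht.2
  have hβ0 : 0 < β := by linarith
  obtain ⟨C, hC, h⟩ := R.crude hβ hτ
  obtain ⟨L, hL⟩ := R.m_left hβ
  obtain ⟨-, J1, J2, -⟩ := R.jets hβ0 hτ
  have Jz := R.jz hβ0 hτ
  have n1 : ∀ s, ∀ t ∈ Icc 0 τ, U 1 s t ≠ 0 := fun s t ht => (R.p_pos hβ0 s ht).ne'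
  have n2 : ∀ s, ∀ t ∈ Icc 0 τ, U 2 s t ≠ 0 := fun s t ht => (R.th_pos hβ0 s ht).ne'
  have d1 : ∀ s, HasDerivAt (fun s => 1 / sg s ^ 2) (-2 * (1 - sg s) / sg s ^ 2) s := by
    intro s
    have := (sg_pos s).ne'
    refine ((hasDerivAt_const s (1 : ℝ)).div ((d_sg s).pow 2) (pow_ne_zero 2 this)).congr_deriv ?_
    simp only [Pi.pow_apply]; field_simp; ring
  have d2 : ∀ s, HasDerivAt (fun s => -2 * (1 - sg s) / sg s ^ 2)
      ((1 - sg s) * (4 - 2 * sg s) / sg s ^ 2) s := by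
    intro s
    have := (sg_pos s).ne'
    refine ((((d_sg s).const_sub 1).const_mul (-2)).div ((d_sg s).pow 2)
      (pow_ne_zero 2 this)).congr_deriv ?_
    simp only [Pi.pow_apply]; field_simp; ring
  have hσ₀ := sg_pos (-L)
  refine sub_nonpos.mp (((((Jz.mul Jz).div J2 n2).sub ((Jz.mul Jz).div J1 n1)).sub
    (Jet.aff τ (β + 1) 4)).maxb (h := fun s => 1 / sg s ^ 2 + Real.log (lam s + β))
    (fun s => (d1 s).add (d_logL hβ s)) (fun s => (d2 s).add (d_logL' hβ s)) (fun s => ?_)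
    (fun s => ?_) (fun ε hε => ?_) (C := 8 * C + 2 * C / sg (-L)) (ε₀ := 1) (by positivity)
    one_pos (fun ε hε _ s t ht _ k1 k2 => ?_) s t ht)
  · have : 0 < 1 / sg s ^ 2 := by have := sg_pos s; positivity
    linarith [log_L hβ s]
  · have hl := lam_pos s
    have hσ := sg_pos s
    have hL' : 0 < lam s + β := by linarith
    rw [R.z_init hβ, R.init2 hβ0 hτ, R.init]
    have e1 : β / (lam s + β) * (β / (lam s + β)) / th0 β s -
        β / (lam s + β) * (β / (lam s + β)) / p0 β s =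
        β + β * ((1 - sg s) / sg s - 1 / lam s) + β / (lam s + β) := by
      rw [th0, p0]; field_simp; ring
    have e2 : (1 - sg s) / sg s ≤ 1 / lam s := by
      rw [div_le_div_iff₀ hσ hl]; linarith [lam_mul_le s]
    have e3 : β / (lam s + β) ≤ 1 := (div_le_one hL').mpr (by linarith)
    rw [e1]
    linarith [mul_nonpos_of_nonneg_of_nonpos hβ0.le (sub_nonpos.mpr e2)]
  · obtain ⟨R', hR⟩ := hb_far hβ (C ^ 2 / ε) ε hε
    refine ⟨R', fun s hs t ht => ?_⟩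
    have hσ := sg_pos s
    have hθ := R.th_pos hβ0 s ht
    have hz := R.z_pos hβ s ht
    have e1 : zz U s t * zz U s t / U 2 s t ≤ C * (1 / sg s) := by
      rw [mul_one_div, div_le_div_iff₀ hθ hσ]; linarith [(h s t ht).a6]
    have e2 := div_pos (mul_pos hz hz) (R.p_pos hβ0 s ht)
    have e3 : lam s - s ≤ 1 / sg s := by
      rw [sg_eq, one_div, ← Real.exp_neg]
      linarith [Real.add_one_le_exp (-(s - lam s))]
    have e4 : 1 / sg s ≤ (1 / sg s) ^ 2 :=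
      le_self_pow₀ ((le_div_iff₀ hσ).mpr (by linarith [sg_lt_one s])) (by norm_num)
    have e5 := hR s hs
    rw [hb] at e5
    have e6 : 2 * (C * (1 / sg s)) ≤ ε * (1 / sg s) ^ 2 + C ^ 2 / ε := by
      have e7 : ε * (1 / sg s) ^ 2 + C ^ 2 / ε - 2 * (C * (1 / sg s)) =
          (ε * (1 / sg s) - C) ^ 2 / ε := by field_simp; ring
      have e8 : 0 ≤ (ε * (1 / sg s) - C) ^ 2 / ε := by positivity
      linarith
    have e7 := mul_le_mul_of_nonneg_left (e3.trans e4) hε.le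
    have e8 := mul_nonneg hε.le (zero_le_one.trans (log_L hβ s))
    rw [div_pow, one_pow] at e6 e7
    linarith [ht.1]
  · have hp := R.p_pos hβ0 s ht
    have hθ := R.th_pos hβ0 s ht
    have hz := R.z_pos hβ s ht
    have hσ := sg_pos s
    have hσ1 := sg_lt_one s
    have hL' : 0 < lam s + β := by linarith [lam_pos s]
    have e1 := Q_bar (A := sg s / (lam s + β)) hε hp hθ hz hσ hσ1 hσ₀ (R.m_le hβ s ht) hC
      (div_pos hσ hL').le ((div_le_one hL').mpr (by linarith [lam_pos s])) (log_L hβ s)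
      (h s t ht).a1 (h s t ht).a2 (h s t ht).a4
      ((le_total s (-L)).imp (fun h' => hL s h' t ht) sg_mono)
    have e2 := Q_alg (z := zz U s t) hp hθ (R.m_le hβ s ht)
    have e3 : (1 - sg s) * (4 - 2 * sg s) / sg s ^ 2 ≤ 4 * (1 - sg s) / sg s ^ 2 :=
      div_le_div_of_nonneg_right (by nlinarith) (sq_nonneg _)
    have e4 := div_le_div_of_nonneg_right (k2.trans (mul_le_mul_of_nonneg_left
      (add_le_add e3 (logL_two hβ s)) hε.le)) hθ.le
    simp only [Pi.add_apply] at k1 k2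
    rw [← k1] at e1
    refine le_trans ?_ e1
    refine le_trans ?_ (add_le_add_left e4 _)
    rw [← sub_nonneg] at e2 ⊢
    generalize hF : -U 2 s t * zz U s t + zz U s t * -U 2 s t = F
    refine le_trans (add_nonneg e2 (sq_nonneg (((F / U 2 s t - zz U s t * zz U s t * U 3 s t /
      U 2 s t ^ 2) - (F / U 1 s t - zz U s t * zz U s t * U 2 s t / U 1 s t ^ 2)) / zz U s t)))
      (le_of_eq ?_)
    subst hF
    simp only [E1, E2]
    field_simp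
    ring

lemma Rad.t_lt (R : Rad β τ U) (hβ : 6 ≤ β) {t : ℝ} (ht : t ∈ Icc 0 τ) : 0 < 1 - 2 * t := by
  have h1 := R.z_pos hβ 0 ht
  have h2 := R.p_pos (by linarith) 0 ht
  rw [zz] at h1; linarith

/-- `z² (1/Θ - 1/p) ≤ β + 3` -/
lemma Rad.Q_le (R : Rad β τ U) (hβ : 6 ≤ β) (s : ℝ) {t : ℝ} (ht : t ∈ Icc 0 τ) :
    zz U s t ^ 2 * (1 / U 2 s t - 1 / U 1 s t) ≤ β + 3 := by
  have h1 := R.Q_le' hβ s ht
  have h2 := R.t_lt hβ ht
  have h3 : zz U s t ^ 2 * (1 / U 2 s t - 1 / U 1 s t) =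
      zz U s t * zz U s t / U 2 s t - zz U s t * zz U s t / U 1 s t := by ring
  linarith

end Pool.Agent.MP_67f0e4_gt.R48
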