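import Pool.Agent.MP_67f0e4_gt.R48.Rad1

/-! Profile bounds of all orders and differentiability of the scale. -/

namespace Pool.Agent.MP_67f0e4_gt.R48

open Set Filter Topology Metric K
open scoped ContDiff

noncomputable section

lemma DL_bd {f : V → ℝ} (hf : ContDiff ℝ ∞ f) (k : ℕ) :
    ∃ M, 1 ≤ M ∧ ∀ l : List (Fin 4), l.length ≤ k → ∀ x ∈ ball (0 : V) 1, |DL l f x| ≤ M := by
  have h : ∀ l : List (Fin 4), ∃ M : ℝ, ∀ x ∈ closedBall (0 : V) 1, ‖DL l f x‖ ≤ M := fun l =>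
    (isCompact_closedBall 0 1).exists_bound_of_continuousOn
      fun x _ => (DL_smooth hf.contDiffAt l).continuousAt.continuousWithinAt
  choose M hM using h
  obtain ⟨B, hB⟩ := ((List.finite_length_le (Fin 4) k).image M).bddAbove
  exact ⟨max 1 B, le_max_left _ _, fun l hl x hx => ((hM l x (ball_subset_closedBall hx)).trans
    (hB (mem_image_of_mem M hl))).trans (le_max_right _ _)⟩

lemma DL_const (c : ℝ) (l : List (Fin 4)) : ∃ c', |c'| ≤ |c| ∧ DL l (fun _ => c) = fun _ => c' := by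
  induction l with
  | nil => exact ⟨c, le_rfl, rfl⟩
  | cons i l ih =>
    obtain ⟨c', -, h⟩ := ih
    exact ⟨0, by simp, by rw [DL, h, D_const]⟩

lemma DL_aff (s : ℝ) {κ : ℝ} (hκ : 0 ≤ κ) {l : List (Fin 4)} (hl : 1 ≤ l.length) (x : V) :
    |DL l (fun y : V => s + 2 * κ * cx 0 y) x| ≤ 2 * κ := by
  obtain rfl | ⟨l', i, rfl⟩ := l.eq_nil_or_concat
  · simp at hl
  rw [List.concat_eq_append, DL_append]
  obtain ⟨c', h1, h2⟩ := DL_const (2 * κ * (e i).1.re) l'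
  simp only [DL, D_aff, h2]
  refine h1.trans ?_
  rw [abs_mul, abs_of_nonneg (by linarith)]
  exact mul_le_of_le_one_right (by linarith)
    ((Complex.abs_re_le_norm _).trans ((norm_fst_le _).trans (norm_e i).le))

lemma lv_lg (y : V) : lv (fun y => Real.log (dq 0 (1 ^ 2) 1 y)) y =
    ![0, 4 / dq 0 (1 ^ 2) 1 y ^ 2, 0, 0] := by
  have s2 : ContDiffAt ℝ 2 (dq 0 (1 ^ 2) 1) y := ((dq_sm _ _ _).of_le two_le_inf).contDiffAt
  have h0 := (dq1_pos 1 y).ne'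
  rw [lv_log s2 h0, lv_dq]
  refine Hm_ext ?_ ?_ ?_ ?_ <;> simp only [rk, D_dq, Matrix.cons_val, Pi.sub_apply, Pi.smul_apply,
    smul_eq_mul]
  · simp [cx]
  · field_simp
    simp [cx, dq]; ring
  · simp [cx]
  · simp [cx]

lemma ell_alg {κ h a b c d x y : ℝ} (hκ : 1 ≤ κ) (h1 : 1 ≤ h) (h2 : h ≤ 5 / 4)
    (hx : x ^ 2 + y ^ 2 ≤ 1 / 4) :
    a ^ 2 + b ^ 2 + (c ^ 2 + d ^ 2) ≤ ((2 * κ * a + h⁻¹ * (2 * (c * x + d * y))) ^ 2 +
      (2 * κ * -b + h⁻¹ * (2 * (-d * x + c * y))) ^ 2) / κ ^ 2 + 4 / h ^ 2 * (c ^ 2 + d ^ 2) := by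
  have k0 : 0 < κ := by linarith
  have h0 : 0 < h := by linarith
  set m := h⁻¹ / κ with hm
  have m0 : 0 ≤ m := by positivity
  have m1 : m ≤ 1 := (div_le_one k0).mpr ((inv_le_one_of_one_le₀ h1).trans hκ)
  have e1 : ((2 * κ * a + h⁻¹ * (2 * (c * x + d * y))) ^ 2 +
      (2 * κ * -b + h⁻¹ * (2 * (-d * x + c * y))) ^ 2) / κ ^ 2 =
      (2 * a + 2 * m * (c * x + d * y)) ^ 2 + (2 * -b + 2 * m * (-d * x + c * y)) ^ 2 := by
    rw [hm]; field_simp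
  have e2 : 2 ≤ 4 / h ^ 2 := by rw [le_div_iff₀ (by positivity)]; nlinarith
  have e3 : 0 ≤ c ^ 2 + d ^ 2 := by positivity
  have e4 : m ^ 2 * ((x ^ 2 + y ^ 2) * (c ^ 2 + d ^ 2)) ≤ 1 * (1 / 4 * (c ^ 2 + d ^ 2)) :=
    mul_le_mul (pow_le_one₀ m0 m1) (mul_le_mul_of_nonneg_right hx e3) (by positivity) zero_le_one
  rw [e1]
  nlinarith [mul_le_mul_of_nonneg_right e2 e3, sq_nonneg (a + 2 * m * (c * x + d * y)),
    sq_nonneg (-b + 2 * m * (-d * x + c * y)), sq_nonneg a, sq_nonneg b]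

lemma nice_sig : ∃ M : ℕ → ℝ, ∀ s κ : ℝ, 1 ≤ κ → Nice M κ (1 / 2) (sig s κ 1) := by
  choose M1 a1 h1 using DL_bd (lg_sm 1)
  choose M2 a2 h2 using fun α k => DL_bd (f := fun y => lv (fun y => Real.log (dq 0 (1 ^ 2) 1 y)) y α)
    (contDiff_iff_contDiffAt.mpr fun x => lv_entry (lg_sm 1).contDiffAt α) k
  have sub : ball (0 : V) (1 / 2) ⊆ ball 0 1 := ball_subset_ball (by norm_num)
  have a3 : ∀ α k, M2 α k ≤ ∑ α, M2 α k := fun α k =>
    Finset.single_le_sum (f := fun α => M2 α k) (fun α _ => by linarith [a2 α k])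
      (Finset.mem_univ α)
  refine ⟨fun k => 2 + M1 k + ∑ α, M2 α k, fun s κ hκ => ⟨(sig_sm s κ 1).contDiffOn,
    fun l hl x hx => ?_, fun k l hl α x hx => ?_, fun x hx v => ?_, fun x hx v => ?_⟩⟩
  · have e := DL_add (x := x) (aff_sm s κ).contDiffAt (lg_sm 1).contDiffAt l
    refine (congrArg abs e).trans_le ((abs_add_le _ _).trans ?_)
    have e1 := DL_aff s (by linarith : 0 ≤ κ) hl x
    have e2 := h1 l.length l le_rfl x (sub hx)
    have e3 := a1 l.length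
    have e4 := (a2 0 l.length).trans (a3 0 l.length)
    nlinarith
  · simp only [lv_sig]
    linarith [h2 α k l hl x (sub hx), a3 α k, a1 k]
  · rw [lv_sig, lv_lg]
    simp only [qf, bf, Matrix.cons_val]
    have : 0 ≤ v.2.re * v.2.re + v.2.im * v.2.im := add_nonneg (mul_self_nonneg _) (mul_self_nonneg _)
    have := dq1_pos 1 x
    simp only [zero_mul, zero_add, add_zero]
    positivity
  · have hx2 : ‖x.2‖ ^ 2 ≤ (1 / 2) ^ 2 := pow_le_pow_left₀ (norm_nonneg _)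
      ((norm_snd_le x).trans (mem_ball_zero_iff.mp hx).le) 2
    have e1 := ell_alg (h := dq 0 (1 ^ 2) 1 x) (a := v.1.re) (b := v.1.im) (c := v.2.re)
      (d := v.2.im) (x := x.2.re) (y := x.2.im) hκ (by rw [dq_eq]; nlinarith [sq_nonneg ‖x.2‖])
      (by rw [dq_eq]; linarith)
      (by rw [Complex.sq_norm, Complex.normSq_apply] at hx2; linarith)
    have e2 : qf (rk (sig s κ 1) x) v / κ ^ 2 + qf (lv (sig s κ 1) x) v =
        ((2 * κ * v.1.re + (dq 0 (1 ^ 2) 1 x)⁻¹ * (2 * (v.2.re * x.2.re + v.2.im * x.2.im))) ^ 2 +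
        (2 * κ * -v.1.im + (dq 0 (1 ^ 2) 1 x)⁻¹ * (2 * (-v.2.im * x.2.re + v.2.re * x.2.im))) ^ 2) /
          κ ^ 2 + 4 / dq 0 (1 ^ 2) 1 x ^ 2 * (v.2.re ^ 2 + v.2.im ^ 2) := by
      rw [qf_rk, D_sig, D_sig, lv_sig, lv_lg]
      simp [qf, bf, sq]
    have e3 := qf_one_ge v
    have e4 : qf one v = v.1.re ^ 2 + v.1.im ^ 2 + (v.2.re ^ 2 + v.2.im ^ 2) := by
      simp [qf, bf, sq]
    rw [e2]
    refine (e3.trans (e4.trans_le e1)).trans (le_mul_of_one_le_left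
      (le_trans (by positivity) e1) ?_)
    linarith [a1 0, (a2 0 0).trans (a3 0 0)]

variable {τ : ℝ} {φ : ℝ → C3 → ℝ}

/-- the scale is an entry of the metric at the origin -/
lemma Pl.cc_eq (P : Pl τ φ) {C : ℝ} {θf : ℝ → ℝ} {Kf : ℝ → ℝ → ℝ}
    (E : Est C θf Kf τ (UJ (ru φ))) {t : ℝ} (ht : t ∈ Icc 0 τ) :
    K.cc (UJ (ru φ)) t = lv (φ t ∘ N0) 0 1 / 4 := by
  have anti : Antitone fun s => UJ (ru φ) 1 s t * Real.exp (-s) :=
    antitone_of_hasDerivAt_nonpos (fun s => (P.ds ht 1 s).mul (hasDerivAt_neg s).exp) fun s => by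
      have := mul_le_mul_of_nonneg_right (E.pos s t ht).2.1 (Real.exp_pos (-s)).le
      simp only [Pi.zero_apply]
      linarith
  have h1 := tendsto_atBot_ciSup anti ⟨K.cc (UJ (ru φ)) t, forall_mem_range.mpr
    fun s => by
      rw [Real.exp_neg, ← div_eq_mul_inv, div_le_iff₀ (Real.exp_pos s)]; exact E.cup s t ht⟩
  have h2 : Tendsto (fun s : ℝ => ((((Real.exp (s / 2) : ℝ) : ℂ), (0 : ℂ)) : V)) atBot (𝓝 0) := by
    have c : Continuous fun r : ℝ => (((r : ℂ), (0 : ℂ)) : V) := by fun_prop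
    exact (c.tendsto 0).comp (Real.tendsto_exp_atBot.comp (tendsto_id.atBot_div_const two_pos))
  have h3 := (((lv_entry ((P.fl N0 univ par_N0).sm.at isOpen_univ ht (mem_univ 0))
    1).continuousAt.tendsto).comp h2).div_const 4
  refine tendsto_nhds_unique h1 (h3.congr fun s => ?_)
  rw [Function.comp, P.lvs ht, Real.exp_neg]
  simp only [Matrix.cons_val]
  ring

lemma log_lip_deriv {c : ℝ → ℝ} {c' t τ C : ℝ} (ht : t ∈ Ioo 0 τ) (d : HasDerivAt c c' t)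
    (h0 : 0 < c t) (h : ∀ t' ∈ Icc 0 τ, t' ≤ t → |Real.log (c t) - Real.log (c t')| ≤ C * (t - t')) :
    |c'| ≤ C * c t := by
  have h1 := ((hasDerivAt_iff_tendsto_slope.mp (d.log h0.ne')).mono_left (nhdsLT_le_nhdsNE t)).abs
  have h2 : |c' / c t| ≤ C := by
    refine le_of_tendsto h1 ?_
    filter_upwards [Ioo_mem_nhdsLT ht.1] with x hx
    rw [slope_def_field, abs_div, abs_sub_comm, abs_sub_comm x, abs_of_pos (sub_pos.mpr hx.2),
      div_le_iff₀ (sub_pos.mpr hx.2)]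
    exact h x ⟨hx.1.le, (hx.2.trans ht.2).le⟩ hx.2.le
  rwa [abs_div, abs_of_pos h0, div_le_iff₀ h0] at h2

theorem high : rHIGH := by
  rintro ⟨d, hd, hL⟩ ⟨Cj, hI⟩ ⟨C, θf, Kf, cst, hE⟩ hR F U0 X φ h0 G
  have P : ∀ τ ∈ Ioo (0 : ℝ) (1 / 2), Pl τ φ := fun τ hτ =>
    ⟨hτ.1, X.psi1, (G τ hτ).1, (hR F U0 X τ hτ φ (G τ hτ) h0).2.2⟩
  have on : ∀ τ ∈ Ioo (0 : ℝ) (1 / 2), ROn C θf Kf τ (ru φ) := fun τ hτ =>
    have h := hR F U0 X τ hτ φ (G τ hτ) h0
    ⟨h.1, h.2.1, hE τ hτ _ h.2.1⟩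
  obtain ⟨M, hM⟩ := nice_sig
  obtain ⟨r0, hr0, hB⟩ := hL C θf Kf cst M (1 / 2) (by norm_num)
  choose Bk hB using hB
  refine ⟨C, θf, Kf, fun j => max (Cj j) (Bk j), cst, on, fun t ht => ?_, fun t ht => ?_⟩
  · rcases ht.1.eq_or_lt with rfl | ht0
    · have q : (1 / 4 : ℝ) ∈ Ioo (0 : ℝ) (1 / 2) := by norm_num
      have z : (0 : ℝ) ∈ Icc (0 : ℝ) (1 / 4) := by norm_num
      have h := hI _ (u_slice (on _ q).sm z) fun s =>
        ((P _ q).ds z 0 s).deriv.trans ((on _ q).rad.init s)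
      exact ⟨h.sm, h.pos, fun j s => (h.bd j s).trans
        (mul_le_mul_of_nonneg_right (le_max_left _ _) (h.pos s).1.le)⟩
    have q : t ∈ Ioo (0 : ℝ) (1 / 2) := ⟨ht0, ht.2⟩
    have z : t ∈ Icc 0 t := ⟨ht.1, le_rfl⟩
    have O := on t q
    refine ⟨u_slice O.sm z, fun s => ⟨(O.est.pos s t z).1, (O.est.pos s t z).2.1⟩, fun j s => ?_⟩
    obtain ⟨p2, p1, -⟩ := O.est.pos s t z
    set κ := kap (UJ (ru φ)) s t with hκ
    have k1 : 1 ≤ κ := Real.one_le_sqrt.mpr ((one_le_div p2).mpr p1)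
    have k0 : 0 < κ := by linarith
    have k2 : κ ^ 2 * UJ (ru φ) 2 s t = UJ (ru φ) 1 s t := by
      rw [hκ, kap, Real.sq_sqrt (div_pos (p2.trans_le p1) p2).le, div_mul_cancel₀ _ p2.ne']
    have s0 : sig s κ 1 0 - 0 = s := by rw [sig_axis _ _ _ rfl]; simp
    have Fl := ((G t q).1 _ _ (par_Tc ((s / 2 : ℝ) : ℂ) k0.ne' one_ne_zero)).mono Subset.rfl
      (subset_univ (ball 0 (1 / 2)))
    have ch : ∀ r ∈ Icc 0 t, φ r ∘ N0 ∘ Tc ((s / 2 : ℝ) : ℂ) κ 1 =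
        fun y => ru φ (sig s κ 1 y - 0) r := fun r hr => funext fun y => by
      simp only [Function.comp]
      rw [(P t q).chart hr, Complex.ofReal_re, sub_zero, mul_div_cancel₀ _ two_ne_zero]
    have h1 := hB j t (ru φ) (sig s κ 1) 0 _ _ ht0 O (by rw [s0]; exact hM s κ k1) Fl
      (fun x _ => congrFun (ch 0 ⟨le_rfl, ht.1⟩) x) (fun r hr x hx => by
        rw [← ch r hr]
        exact (Cl.refl _).mono (Fl.pos r hr x hx).nn hd.le)
      (List.replicate j 0) (by simp) 0 0 (mem_ball_self hr0.1)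
    have h2 := DL_sig (g := fun i s => UJ (ru φ) i s t) ((P t q).ds z) (u_slice O.sm z) s κ 1 j 0
    simp only [s0, ch t z, sub_zero] at h1
    rw [show (0 : V) = (((0 : ℝ) : ℂ), 0) from rfl] at h1
    have h3 := (congrArg abs h2.symm).trans_le h1
    rw [mul_zero, add_zero, abs_mul, abs_of_pos (by positivity), ← k2] at h3
    change |UJ (ru φ) (j + 2) s t| * κ ^ j ≤ _ * UJ (ru φ) 2 s t
    refine le_trans ?_ (mul_le_mul_of_nonneg_right (le_max_right _ _) p2.le)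
    refine le_of_mul_le_mul_left ?_ (pow_pos k0 2)
    have h4 : κ ^ j ≤ (2 * κ) ^ j := pow_le_pow_left₀ k0.le (by linarith) j
    have h5 := mul_le_mul_of_nonneg_left h4
      (mul_nonneg (sq_nonneg κ) (abs_nonneg (UJ (ru φ) (j + 2) s t)))
    have h6 : 0 ≤ κ ^ 2 * |UJ (ru φ) (j + 2) s t| * (2 * κ) ^ j := by positivity
    linarith
  · have q : (t + 1 / 2) / 2 ∈ Ioo (0 : ℝ) (1 / 2) := ⟨by linarith [ht.1], by linarith [ht.2]⟩
    have z : t ∈ Ioo 0 ((t + 1 / 2) / 2) := ⟨ht.1, by linarith [ht.2]⟩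
    have O := on _ q
    have hn := Icc_mem_nhds z.1 z.2
    have h1 := ((B.kit_smGm (nice_Icc q.1) isOpen_univ ((P _ q).fl N0 univ par_N0).sm 1).time
      (mem_univ 0)).contDiffAt hn
    have h2 := ((h1.differentiableAt (by simp)).hasDerivAt.div_const 4).congr_of_eventuallyEq
      (f₁ := K.cc (UJ (ru φ))) (mem_of_superset hn fun r hr => (P _ q).cc_eq O.est hr)
    refine ⟨_, h2, ?_⟩
    rw [mul_div_right_comm]
    refine log_lip_deriv z h2 (O.est.cpos t (Ioo_subset_Icc_self z)).1 fun t' ht' h => ?_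
    rw [← mul_div_right_comm]
    exact O.est.clip t (Ioo_subset_Icc_self z) t' ht' h

end

end Pool.Agent.MP_67f0e4_gt.R48
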