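import Mathlib

/-! Jets of functions of `(s,t)` and the maximum principle on `ℝ × [0,τ]`. -/

namespace Pool.Agent.MP_67f0e4_gt.R48

open Set Filter Topology

/-- `f1, f2` are the first two `s`-derivatives of `f` and `ft` is its `t`-derivative. -/
structure Jet (τ : ℝ) (f f1 f2 ft : ℝ → ℝ → ℝ) : Prop where
  cont : ContinuousOn (fun q : ℝ × ℝ => f q.1 q.2) (univ ×ˢ Icc 0 τ)
  d1 : ∀ s, ∀ t ∈ Icc 0 τ, HasDerivAt (fun s => f s t) (f1 s t) s
  d2 : ∀ s, ∀ t ∈ Icc 0 τ, HasDerivAt (fun s => f1 s t) (f2 s t) s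
  dt : ∀ s, ∀ t ∈ Icc 0 τ, HasDerivWithinAt (f s) (ft s t) (Icc 0 τ) t

variable {τ : ℝ} {f f1 f2 ft g g1 g2 gt : ℝ → ℝ → ℝ}

lemma Jet.add (F : Jet τ f f1 f2 ft) (G : Jet τ g g1 g2 gt) :
    Jet τ (fun s t => f s t + g s t) (fun s t => f1 s t + g1 s t) (fun s t => f2 s t + g2 s t)
      (fun s t => ft s t + gt s t) :=
  ⟨F.cont.add G.cont, fun s t h => (F.d1 s t h).add (G.d1 s t h),
    fun s t h => (F.d2 s t h).add (G.d2 s t h), fun s t h => (F.dt s t h).add (G.dt s t h)⟩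

lemma Jet.sub (F : Jet τ f f1 f2 ft) (G : Jet τ g g1 g2 gt) :
    Jet τ (fun s t => f s t - g s t) (fun s t => f1 s t - g1 s t) (fun s t => f2 s t - g2 s t)
      (fun s t => ft s t - gt s t) :=
  ⟨F.cont.sub G.cont, fun s t h => (F.d1 s t h).sub (G.d1 s t h),
    fun s t h => (F.d2 s t h).sub (G.d2 s t h), fun s t h => (F.dt s t h).sub (G.dt s t h)⟩

lemma Jet.mul (F : Jet τ f f1 f2 ft) (G : Jet τ g g1 g2 gt) :
    Jet τ (fun s t => f s t * g s t) (fun s t => f1 s t * g s t + f s t * g1 s t)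
      (fun s t => f2 s t * g s t + 2 * (f1 s t * g1 s t) + f s t * g2 s t)
      (fun s t => ft s t * g s t + f s t * gt s t) :=
  ⟨F.cont.mul G.cont, fun s t h => (F.d1 s t h).mul (G.d1 s t h),
    fun s t h => (((F.d2 s t h).mul (G.d1 s t h)).add ((F.d1 s t h).mul (G.d2 s t h))).congr_deriv
      (by ring), fun s t h => (F.dt s t h).mul (G.dt s t h)⟩

lemma Jet.div (F : Jet τ f f1 f2 ft) (G : Jet τ g g1 g2 gt) (h0 : ∀ s, ∀ t ∈ Icc 0 τ, g s t ≠ 0) :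
    Jet τ (fun s t => f s t / g s t) (fun s t => f1 s t / g s t - f s t * g1 s t / g s t ^ 2)
      (fun s t => f2 s t / g s t - 2 * (f1 s t * g1 s t) / g s t ^ 2 -
        f s t * g2 s t / g s t ^ 2 + 2 * (f s t * g1 s t ^ 2) / g s t ^ 3)
      (fun s t => ft s t / g s t - f s t * gt s t / g s t ^ 2) := by
  refine ⟨F.cont.div G.cont fun q hq => h0 _ _ hq.2, fun s t h => ?_, fun s t h => ?_,
    fun s t h => ?_⟩
  · have := h0 s t h
    exact ((F.d1 s t h).div (G.d1 s t h) this).congr_deriv (by field_simp)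
  · have := h0 s t h
    refine (((F.d2 s t h).div (G.d1 s t h) this).sub ((((F.d1 s t h).mul (G.d2 s t h)).div
      ((G.d1 s t h).pow 2) (pow_ne_zero 2 this)))).congr_deriv ?_
    simp only [Pi.mul_apply, Pi.pow_apply]
    field_simp
    ring
  · have := h0 s t h
    exact ((F.dt s t h).div (G.dt s t h) this).congr_deriv (by field_simp)

lemma Jet.log (F : Jet τ f f1 f2 ft) (h0 : ∀ s, ∀ t ∈ Icc 0 τ, f s t ≠ 0) :
    Jet τ (fun s t => Real.log (f s t)) (fun s t => f1 s t / f s t)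
      (fun s t => f2 s t / f s t - f1 s t ^ 2 / f s t ^ 2) (fun s t => ft s t / f s t) := by
  refine ⟨F.cont.log fun q hq => h0 _ _ hq.2, fun s t h => (F.d1 s t h).log (h0 s t h),
    fun s t h => ?_, fun s t h => (F.dt s t h).log (h0 s t h)⟩
  have := h0 s t h
  exact ((F.d2 s t h).div (F.d1 s t h) this).congr_deriv (by field_simp)

lemma Jet.space {h h1 h2 : ℝ → ℝ} (H1 : ∀ s, HasDerivAt h (h1 s) s)
    (H2 : ∀ s, HasDerivAt h1 (h2 s) s) :
    Jet τ (fun s _ => h s) (fun s _ => h1 s) (fun s _ => h2 s) (fun _ _ => 0) :=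
  ⟨((continuous_iff_continuousAt.mpr fun s => (H1 s).continuousAt).comp
      continuous_fst).continuousOn, fun s _ _ => H1 s, fun s _ _ => H2 s,
    fun s t _ => hasDerivWithinAt_const t _ (h s)⟩

lemma Jet.time {h h1 : ℝ → ℝ} (H1 : ∀ t, HasDerivAt h (h1 t) t) :
    Jet τ (fun _ t => h t) (fun _ _ => 0) (fun _ _ => 0) (fun _ t => h1 t) :=
  ⟨((continuous_iff_continuousAt.mpr fun s => (H1 s).continuousAt).comp
      continuous_snd).continuousOn, fun s t _ => hasDerivAt_const s (h t),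
    fun s _ _ => hasDerivAt_const s 0, fun _ t _ => (H1 t).hasDerivWithinAt⟩

lemma Jet.aff (τ a b : ℝ) :
    Jet τ (fun _ t => a + b * t) (fun _ _ => 0) (fun _ _ => 0) (fun _ _ => b) :=
  Jet.time (h := fun t => a + b * t) (h1 := fun _ => b) fun t => by
    simpa using ((hasDerivAt_id t).const_mul b).const_add a

lemma Jet.congr (F : Jet τ f f1 f2 ft) (h0 : ∀ s, ∀ t ∈ Icc 0 τ, g s t = f s t)
    (h1 : ∀ s, ∀ t ∈ Icc 0 τ, g1 s t = f1 s t) (h2 : ∀ s, ∀ t ∈ Icc 0 τ, g2 s t = f2 s t)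
    (ht : ∀ s, ∀ t ∈ Icc 0 τ, gt s t = ft s t) : Jet τ g g1 g2 gt := by
  refine ⟨F.cont.congr fun q hq => h0 _ _ hq.2, fun s t h => ?_, fun s t h => ?_, fun s t h => ?_⟩
  · rw [h1 s t h, show (fun s => g s t) = fun s => f s t from funext fun s => h0 s t h]
    exact F.d1 s t h
  · rw [h2 s t h, show (fun s => g1 s t) = fun s => f1 s t from funext fun s => h1 s t h]
    exact F.d2 s t h
  · rw [ht s t h]
    exact (F.dt s t h).congr (fun r hr => h0 s r hr) (h0 s t h)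

/-- second derivative test -/
lemma max_second {φ φ1 : ℝ → ℝ} {c s : ℝ} (h1 : ∀ x, HasDerivAt φ (φ1 x) x)
    (h2 : HasDerivAt φ1 c s) (hmax : ∀ x, φ x ≤ φ s) : φ1 s = 0 ∧ c ≤ 0 := by
  have e0 : φ1 s = 0 := IsLocalMax.hasDerivAt_eq_zero (Eventually.of_forall hmax) (h1 s)
  refine ⟨e0, le_of_not_gt fun hc => ?_⟩
  have h3 := (hasDerivAt_iff_tendsto_slope.mp h2).mono_left (nhdsGT_le_nhdsNE s)
  have h4 : ∀ᶠ x in 𝓝[>] s, 0 < slope φ1 s x := h3.eventually (lt_mem_nhds hc)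
  obtain ⟨u, hu, h5⟩ := (mem_nhdsGT_iff_exists_Ioo_subset).mp h4
  have hu' : s < u := hu
  have hm : s < (s + u) / 2 := by linarith
  obtain ⟨ξ, hξ, h6⟩ := exists_hasDerivAt_eq_slope φ φ1 hm
    (fun x _ => (h1 x).continuousAt.continuousWithinAt) (fun x _ => h1 x)
  have h7 : 0 < slope φ1 s ξ := h5 ⟨hξ.1, by linarith [hξ.2]⟩
  rw [slope_def_field, e0, sub_zero] at h7
  have h8 : 0 < φ1 ξ := by
    have := mul_pos h7 (sub_pos.mpr hξ.1)
    rwa [div_mul_cancel₀ _ (sub_pos.mpr hξ.1).ne'] at this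
  rw [h6] at h8
  have h9 := (div_pos_iff_of_pos_right (sub_pos.mpr hm)).mp h8
  linarith [hmax ((s + u) / 2)]

lemma max_time {φ : ℝ → ℝ} {c t : ℝ} (ht : t ∈ Ioc 0 τ) (h : HasDerivWithinAt φ c (Icc 0 τ) t)
    (hmax : ∀ r ∈ Icc 0 τ, φ r ≤ φ t) : 0 ≤ c := by
  have h1 : HasDerivWithinAt φ c (Ioo 0 t) t :=
    h.mono fun r hr => ⟨hr.1.le, hr.2.le.trans ht.2⟩
  have h2 := (hasDerivWithinAt_iff_tendsto_slope' (by simp)).mp h1
  have : (𝓝[Ioo 0 t] t).NeBot := right_nhdsWithin_Ioo_neBot ht.1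
  refine ge_of_tendsto h2 ?_
  filter_upwards [self_mem_nhdsWithin] with r hr
  rw [slope_def_field]
  exact div_nonneg_of_nonpos (sub_nonpos.mpr (hmax r ⟨hr.1.le, hr.2.le.trans ht.2⟩))
    (sub_nonpos.mpr hr.2.le)

/-- the maximum principle -/
lemma Jet.maxp (F : Jet τ f f1 f2 ft) (init : ∀ s, f s 0 ≤ 0)
    (far : ∃ R, ∀ s, R ≤ |s| → ∀ t ∈ Icc 0 τ, f s t ≤ 0)
    (key : ∀ s, ∀ t ∈ Icc 0 τ, 0 < f s t → f1 s t = 0 → f2 s t ≤ 0 → ft s t < 0) :
    ∀ s, ∀ t ∈ Icc 0 τ, f s t ≤ 0 := by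
  intro s t ht
  by_contra hpos
  have hpos : 0 < f s t := lt_of_not_ge hpos
  obtain ⟨R, hR⟩ := far
  have hs : |s| ≤ R := le_of_not_gt fun h => absurd (hR s h.le t ht) (not_le.mpr hpos)
  obtain ⟨q, hq, hmax⟩ := ((isCompact_Icc (a := -R) (b := R)).prod
    (isCompact_Icc (a := 0) (b := τ))).exists_isMaxOn ⟨(s, t), abs_le.mp hs, ht⟩
    (F.cont.mono (prod_mono (subset_univ _) subset_rfl))
  have h1 : f s t ≤ f q.1 q.2 := hmax (show (s, t) ∈ Icc (-R) R ×ˢ Icc 0 τ from ⟨abs_le.mp hs, ht⟩)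
  have h2 : 0 < f q.1 q.2 := hpos.trans_le h1
  have h3 : ∀ x, ∀ r ∈ Icc 0 τ, f x r ≤ f q.1 q.2 := by
    intro x r hr
    rcases le_total |x| R with hx | hx
    · exact hmax (show (x, r) ∈ Icc (-R) R ×ˢ Icc 0 τ from ⟨abs_le.mp hx, hr⟩)
    · exact (hR x hx r hr).trans h2.le
  have h4 : 0 < q.2 := lt_of_le_of_ne hq.2.1 fun h => by
    rw [← h] at h2; exact absurd (init q.1) (not_le.mpr h2)
  obtain ⟨h5, h6⟩ := max_second (fun x => F.d1 x q.2 hq.2) (F.d2 q.1 q.2 hq.2)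
    fun x => h3 x q.2 hq.2
  have h7 := max_time ⟨h4, hq.2.2⟩ (F.dt q.1 q.2 hq.2) fun r hr => h3 q.1 r hr
  exact absurd (key q.1 q.2 hq.2 h2 h5 h6) (not_lt.mpr h7)

/-- the maximum principle with a barrier `h ≥ 1` -/
lemma Jet.maxb (F : Jet τ f f1 f2 ft) {h h1 h2 : ℝ → ℝ} (H1 : ∀ s, HasDerivAt h (h1 s) s)
    (H2 : ∀ s, HasDerivAt h1 (h2 s) s) (H0 : ∀ s, 1 ≤ h s) (init : ∀ s, f s 0 ≤ 0)
    (far : ∀ ε : ℝ, 0 < ε → ∃ R, ∀ s, R ≤ |s| → ∀ t ∈ Icc 0 τ, f s t ≤ ε * h s)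
    {C ε₀ : ℝ} (hC : 0 ≤ C) (hε₀ : 0 < ε₀)
    (key : ∀ ε : ℝ, 0 < ε → ε ≤ ε₀ → ∀ s, ∀ t ∈ Icc 0 τ, ε * h s < f s t → f1 s t = ε * h1 s →
      f2 s t ≤ ε * h2 s → ft s t ≤ C * (ε * h s)) :
    ∀ s, ∀ t ∈ Icc 0 τ, f s t ≤ 0 := by
  have main : ∀ δ : ℝ, 0 < δ → δ * Real.exp ((C + 1) * τ) ≤ ε₀ → ∀ s, ∀ t ∈ Icc 0 τ,
      f s t - δ * Real.exp ((C + 1) * t) * h s ≤ 0 := by
    intro δ hδ hδ'
    have T : Jet τ (fun _ t => δ * Real.exp ((C + 1) * t)) (fun _ _ => 0) (fun _ _ => 0)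
        (fun _ t => δ * (Real.exp ((C + 1) * t) * (C + 1))) :=
      Jet.time (h := fun t => δ * Real.exp ((C + 1) * t))
        (h1 := fun t => δ * (Real.exp ((C + 1) * t) * (C + 1))) fun t => by
          simpa using (((hasDerivAt_id t).const_mul (C + 1)).exp).const_mul δ
    refine (F.sub (T.mul (Jet.space H1 H2))).maxp (fun s => ?_) ?_ fun s t ht k0 k1 k2 => ?_
    · have := init s
      have h3 : 0 < δ * Real.exp ((C + 1) * 0) * h s :=
        mul_pos (mul_pos hδ (Real.exp_pos _)) (one_pos.trans_le (H0 s))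
      linarith
    · obtain ⟨R, hR⟩ := far δ hδ
      refine ⟨R, fun s hs t ht => ?_⟩
      have h3 : 1 ≤ Real.exp ((C + 1) * t) := Real.one_le_exp (mul_nonneg (by linarith) ht.1)
      have h4 : δ * h s ≤ δ * Real.exp ((C + 1) * t) * h s :=
        mul_le_mul_of_nonneg_right (le_mul_of_one_le_right hδ.le h3) (zero_le_one.trans (H0 s))
      linarith [hR s hs t ht]
    · have e0 : 0 < δ * Real.exp ((C + 1) * t) := mul_pos hδ (Real.exp_pos _)
      have e1 : δ * Real.exp ((C + 1) * t) ≤ ε₀ := le_trans (mul_le_mul_of_nonneg_left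
        (Real.exp_le_exp.mpr (mul_le_mul_of_nonneg_left ht.2 (by linarith))) hδ.le) hδ'
      have h3 := key _ e0 e1 s t ht (by linarith) (by linarith) (by linarith)
      have h4 := mul_pos e0 (one_pos.trans_le (H0 s))
      linarith
  intro s t ht
  refine le_of_forall_pos_le_add fun η hη => ?_
  have hE : 0 < Real.exp ((C + 1) * τ) := Real.exp_pos _
  have hh : 0 < h s := one_pos.trans_le (H0 s)
  have h3 := main (min (ε₀ / Real.exp ((C + 1) * τ)) (η / (Real.exp ((C + 1) * t) * h s)))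
    (lt_min (div_pos hε₀ hE) (div_pos hη (mul_pos (Real.exp_pos _) hh)))
    ((le_div_iff₀ hE).mp (min_le_left _ _)) s t ht
  have h4 := (le_div_iff₀ (mul_pos (Real.exp_pos ((C + 1) * t)) hh)).mp
    (min_le_right (ε₀ / Real.exp ((C + 1) * τ)) (η / (Real.exp ((C + 1) * t) * h s)))
  linarith

end Pool.Agent.MP_67f0e4_gt.R48
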