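import Pool.Agent.MP_67f0e4_gt.K.Kit

/-! Charts of the plane and Levi forms of radial functions. -/

namespace Pool.Agent.MP_67f0e4_gt.R48

open Set Filter Topology Metric K
open scoped ContDiff

noncomputable section

/-- real coordinates -/
def cx : Fin 4 → V →L[ℝ] ℝ :=
  ![Complex.reCLM.comp (.fst ℝ ℂ ℂ), Complex.imCLM.comp (.fst ℝ ℂ ℂ),
    Complex.reCLM.comp (.snd ℝ ℂ ℂ), Complex.imCLM.comp (.snd ℝ ℂ ℂ)]

lemma D_clm (L : V →L[ℝ] ℝ) (v : V) : D v L = fun _ => L v :=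
  funext fun _ => D_of_has L.hasFDerivAt v

/-- diagonal quadratic functions -/
def dq (a b c : ℝ) (y : V) : ℝ :=
  c + a * (cx 0 y ^ 2 + cx 1 y ^ 2) + b * (cx 2 y ^ 2 + cx 3 y ^ 2)

lemma dq_eq (a b c : ℝ) (y : V) : dq a b c y = c + a * ‖y.1‖ ^ 2 + b * ‖y.2‖ ^ 2 := by
  rw [Complex.sq_norm, Complex.sq_norm, Complex.normSq_apply, Complex.normSq_apply]
  simp [dq, cx, sq]

lemma dq_sm (a b c : ℝ) : ContDiff ℝ ∞ (dq a b c) := by
  unfold dq; fun_prop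

lemma D_dq (a b c : ℝ) (v : V) : D v (dq a b c) =
    ((2 * a * v.1.re) • cx 0 + (2 * a * v.1.im) • cx 1 + (2 * b * v.2.re) • cx 2 +
      (2 * b * v.2.im) • cx 3 : V →L[ℝ] ℝ) := by
  funext y
  have h := fun i => ((cx i).hasFDerivAt (x := y)).pow 2
  refine (D_of_has (((((h 0).add (h 1)).const_mul a).const_add c).add
    (((h 2).add (h 3)).const_mul b)) v).trans ?_
  simp [cx]; ring

lemma lv_dq (a b c : ℝ) (y : V) : lv (dq a b c) y = ![4 * a, 4 * b, 0, 0] := by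
  refine Hm_ext ?_ ?_ ?_ ?_ <;> simp only [lv, lev, D_dq, D_clm, Matrix.cons_val] <;>
    simp [cx] <;> ring

lemma rk_dq (a b c : ℝ) {y : V} (hy : y.2 = 0) :
    rk (dq a b c) y = ![4 * a ^ 2 * ‖y.1‖ ^ 2, 0, 0, 0] := by
  rw [Complex.sq_norm, Complex.normSq_apply]
  refine Hm_ext ?_ ?_ ?_ ?_ <;> simp only [rk, D_dq, Matrix.cons_val] <;> simp [cx, hy] <;> ring

/-- the global chart -/
def N0 (q : V) : C3 := (q.1, q.2, q.1 * q.2)

lemma mem_X0 {p : C3} : p ∈ Xs a0 ↔ p.1 * p.2.1 = p.2.2 := by simp [Xs, Pz, a0]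

lemma N0_sm : ContDiff ℂ ∞ N0 := by unfold N0; fun_prop

/-- the projection to the plane -/
def pr : C3 →L[ℂ] V := (ContinuousLinearMap.fst ℂ ℂ (ℂ × ℂ)).prod
  ((ContinuousLinearMap.fst ℂ ℂ ℂ).comp (ContinuousLinearMap.snd ℂ ℂ (ℂ × ℂ)))

lemma pr_N0 (q : V) : pr (N0 q) = q := rfl

lemma N0_pr {p : C3} (hp : p ∈ Xs a0) : N0 (pr p) = p :=
  Prod.ext rfl (Prod.ext rfl (mem_X0.mp hp))

lemma par_N0 : Par (Xs a0) N0 univ := by
  refine ⟨isOpen_univ, N0_sm.contDiffOn, fun q _ => mem_X0.mpr rfl, fun q _ => ?_⟩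
  have h := pr.hasFDerivAt.comp q (N0_sm.differentiable (by simp) q).hasFDerivAt
  have e : pr.comp (fderiv ℂ N0 q) = ContinuousLinearMap.id ℂ V :=
    h.unique (hasFDerivAt_id q)
  refine Function.LeftInverse.injective (g := pr) fun v => ?_
  exact congrArg (fun L : V →L[ℂ] V => L v) e

lemma psi_N0 (h : PSI1) (q : V) : psi a0 (N0 q) = dq 1 1 0 q := by
  rw [h _ (par_N0.mem (mem_univ q)), dq_eq]; simp [N0]

lemma par_pr {N : V → C3} {U : Set V} (P : Par (Xs a0) N U) :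
    ContDiffOn ℂ ∞ (pr ∘ N) U ∧ ∀ x ∈ U, Function.Injective (fderiv ℂ (pr ∘ N) x) := by
  have h := pr.contDiff.comp_contDiffOn P.hol
  refine ⟨h, fun x hx => ?_⟩
  have e : N =ᶠ[𝓝 x] N0 ∘ (pr ∘ N) :=
    (P.op.eventually_mem hx).mono fun y hy => (N0_pr (P.mem hy)).symm
  have h1 := P.inj x hx
  rw [e.fderiv_eq, fderiv_comp x (N0_sm.differentiable (by simp) _)
    ((h.contDiffAt (P.op.mem_nhds hx)).differentiableAt (by simp))] at h1
  exact Function.Injective.of_comp (f := fderiv ℂ N0 ((pr ∘ N) x)) h1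

/-- unitary maps act on the plane -/
lemma aut_lin (h : PSI1) (A : V →L[ℂ] V) (hA : ∀ v, dq 1 1 0 (A v) = dq 1 1 0 v) :
    Aut (Xs a0) (psi a0) fun p => N0 (A (pr p)) := by
  have hi : Function.Injective A := (injective_iff_map_eq_zero A).mpr fun v hv => by
    have h1 := hA v
    rw [hv, dq_eq, dq_eq] at h1
    simp only [Prod.fst_zero, Prod.snd_zero, norm_zero] at h1
    have h2 : ‖v.1‖ ^ 2 = 0 := by nlinarith [sq_nonneg ‖v.1‖, sq_nonneg ‖v.2‖]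
    have h3 : ‖v.2‖ ^ 2 = 0 := by nlinarith [sq_nonneg ‖v.1‖, sq_nonneg ‖v.2‖]
    exact Prod.ext (by simpa using h2) (by simpa using h3)
  refine ⟨fun p _ => par_N0.mem (mem_univ _), fun N U P => ?_, fun p hp => ?_⟩
  · obtain ⟨h1, h2⟩ := par_pr P
    refine par_N0.comp (T := A ∘ (pr ∘ N)) P.op (A.contDiff.comp_contDiffOn h1)
      (fun _ _ => mem_univ _) fun y hy => ?_
    rw [fderiv_comp y A.differentiableAt
      ((h1.contDiffAt (P.op.mem_nhds hy)).differentiableAt (by simp)), A.fderiv]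
    exact hi.comp (h2 y hy)
  · rw [psi_N0 h, hA, ← psi_N0 h, N0_pr hp]

/-- the unitary map with first column `(a, b)` -/
def un (a b : ℂ) : V →L[ℂ] V := cols (a, b) (-(starRingEnd ℂ b), starRingEnd ℂ a)

lemma un_apply (a b : ℂ) (v : V) :
    un a b v = (v.1 * a - v.2 * starRingEnd ℂ b, v.1 * b + v.2 * starRingEnd ℂ a) := by
  rw [un, cols_apply]; ext <;> simp [sub_eq_add_neg]

lemma dq_un (a b : ℂ) (v : V) : dq 1 1 0 (un a b v) = dq 1 1 0 (a, b) * dq 1 1 0 v := by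
  rw [un_apply]; simp [dq, cx]; ring

/-- a function invariant under the automorphisms is radial -/
lemma radial (h : PSI1) {f : C3 → ℝ}
    (hf : ∀ σ, Aut (Xs a0) (psi a0) σ → ∀ p ∈ Xs a0, f (σ p) ≤ f p) {p : C3} (hp : p ∈ Xs a0)
    (h0 : 0 < psi a0 p) : f p = f ((Real.exp (Real.log (psi a0 p) / 2) : ℝ), 0, 0) := by
  obtain ⟨q, rfl⟩ : ∃ q, N0 q = p := ⟨_, N0_pr hp⟩
  set r := Real.exp (Real.log (psi a0 (N0 q)) / 2) with hr
  have r0 : (r : ℂ) ≠ 0 := Complex.ofReal_ne_zero.mpr (Real.exp_pos _).ne'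
  have r1 : r ≠ 0 := (Real.exp_pos _).ne'
  have r2 : r ^ 2 = dq 1 1 0 q := by
    rw [sq, hr, ← Real.exp_add, add_halves, Real.exp_log h0, psi_N0 h]
  have r3 : (r : ℂ) ^ 2 = q.1 * starRingEnd ℂ q.1 + q.2 * starRingEnd ℂ q.2 := by
    rw [Complex.mul_conj', Complex.mul_conj', ← Complex.ofReal_pow, r2, dq_eq]; simp
  have e : ((r : ℂ), (0 : ℂ), (0 : ℂ)) = N0 (r, 0) := by simp [N0]
  have u1 : dq 1 1 0 (q.1 / r, q.2 / r) = 1 := by
    rw [dq_eq] at r2 ⊢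
    simp only [norm_div, Complex.norm_real, Real.norm_eq_abs, div_pow, sq_abs]
    field_simp; linarith
  have u2 : dq 1 1 0 (starRingEnd ℂ q.1 / r, -q.2 / r) = 1 := by
    refine Eq.trans ?_ u1
    rw [dq_eq, dq_eq]; simp
  have h1 := hf _ (aut_lin h (un _ _) fun v => by rw [dq_un, u1, one_mul]) _
    (par_N0.mem (mem_univ ((r : ℂ), (0 : ℂ))))
  have h2 := hf _ (aut_lin h (un _ _) fun v => by rw [dq_un, u2, one_mul]) _ hp
  have e1 : un (q.1 / r) (q.2 / r) (pr (N0 (r, 0))) = q := by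
    rw [pr_N0, un_apply]; ext <;> simp <;> field_simp
  have e2 : un (starRingEnd ℂ q.1 / r) (-q.2 / r) (pr (N0 q)) = ((r : ℂ), (0 : ℂ)) := by
    rw [pr_N0, un_apply]
    ext
    · simp only [map_div₀, map_neg, Complex.conj_ofReal]
      field_simp
      rw [r3]; ring
    · simp only [map_div₀, Complex.conj_ofReal, Complex.conj_conj]
      ring
  simp only [e1] at h1
  simp only [e2] at h2
  rw [e]
  exact le_antisymm h1 h2

variable {g g1 : ℝ → ℝ} {g2 : ℝ}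

/-- the Levi form of a radial function on the first axis -/
lemma lv_rad {y : V} (hy : y.2 = 0) (h0 : y.1 ≠ 0) (d : ∀ s, HasDerivAt g (g1 s) s)
    (d' : HasDerivAt g1 g2 (Real.log (dq 1 1 0 y))) :
    lv (fun y => g (Real.log (dq 1 1 0 y))) y =
      ![4 * g2 / ‖y.1‖ ^ 2, 4 * g1 (Real.log (dq 1 1 0 y)) / ‖y.1‖ ^ 2, 0, 0] := by
  have e : dq 1 1 0 y = ‖y.1‖ ^ 2 := by rw [dq_eq, hy]; simp
  have n : ‖y.1‖ ≠ 0 := norm_ne_zero_iff.mpr h0
  have n' : dq 1 1 0 y ≠ 0 := by rw [e]; positivity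
  have s2 : ContDiffAt ℝ 2 (dq 1 1 0) y := ((dq_sm 1 1 0).of_le two_le_inf).contDiffAt
  rw [lv_comp (f := fun y => Real.log (dq 1 1 0 y)) (Eventually.of_forall d) d' (s2.log n'),
    lv_log s2 n', rk_log (s2.differentiableAt (by norm_num)) n', lv_dq, rk_dq _ _ _ hy]
  generalize g1 (Real.log (dq 1 1 0 y)) = g1
  rw [e]
  refine Hm_ext ?_ ?_ ?_ ?_ <;> simp <;> field_simp <;> ring

/-- `log ψ` in the logarithmic charts -/
def sig (s κ ρ : ℝ) (y : V) : ℝ := s + 2 * κ * cx 0 y + Real.log (dq 0 (ρ ^ 2) 1 y)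

lemma dq1_pos (ρ : ℝ) (y : V) : 0 < dq 0 (ρ ^ 2) 1 y := by rw [dq_eq]; positivity

lemma lg_sm (ρ : ℝ) : ContDiff ℝ ∞ fun y => Real.log (dq 0 (ρ ^ 2) 1 y) :=
  (dq_sm _ _ _).log fun y => (dq1_pos ρ y).ne'

lemma aff_sm (s κ : ℝ) : ContDiff ℝ ∞ fun y : V => s + 2 * κ * cx 0 y := by fun_prop

lemma sig_sm (s κ ρ : ℝ) : ContDiff ℝ ∞ (sig s κ ρ) := (aff_sm s κ).add (lg_sm ρ)

lemma D_aff (s κ : ℝ) (v : V) :
    D v (fun y : V => s + 2 * κ * cx 0 y) = fun _ => 2 * κ * v.1.re :=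
  funext fun y => D_of_has ((((cx 0).hasFDerivAt (x := y)).const_mul (2 * κ)).const_add s) v

lemma lv_sig (s κ ρ : ℝ) (y : V) :
    lv (sig s κ ρ) y = lv (fun y => Real.log (dq 0 (ρ ^ 2) 1 y)) y := by
  have h : lv (fun y : V => s + 2 * κ * cx 0 y) y = 0 := by
    refine Hm_ext ?_ ?_ ?_ ?_ <;> simp only [lv, lev, D_aff, D_const, Matrix.cons_val] <;> simp
  exact (lv_add ((aff_sm s κ).of_le two_le_inf).contDiffAt
    ((lg_sm ρ).of_le two_le_inf).contDiffAt).trans (by rw [h, zero_add])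

lemma D_sig (s κ ρ : ℝ) (v y : V) : D v (sig s κ ρ) y = 2 * κ * v.1.re +
    (dq 0 (ρ ^ 2) 1 y)⁻¹ * (2 * ρ ^ 2 * (v.2.re * y.2.re + v.2.im * y.2.im)) := by
  refine (D_add ((aff_sm s κ).differentiable (by simp) y)
    ((lg_sm ρ).differentiable (by simp) y) v).trans ?_
  rw [D_aff, D_comp (Real.hasDerivAt_log (dq1_pos ρ y).ne')
    ((dq_sm _ _ _).differentiable (by simp) y), D_dq]
  simp [cx]; ring_nf; simp

lemma sig_axis (s κ ρ : ℝ) {y : V} (hy : y.2 = 0) : sig s κ ρ y = s + 2 * κ * y.1.re := by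
  rw [sig, dq_eq, hy]; simp [cx]

/-- the Levi form of a radial function in a logarithmic chart, on the first axis -/
lemma lv_sig_comp {s κ ρ : ℝ} {y : V} (hy : y.2 = 0) (d : ∀ s, HasDerivAt g (g1 s) s)
    (d' : HasDerivAt g1 g2 (sig s κ ρ y)) :
    lv (fun y => g (sig s κ ρ y)) y = ![4 * κ ^ 2 * g2, 4 * ρ ^ 2 * g1 (sig s κ ρ y), 0, 0] := by
  have s2 : ContDiffAt ℝ 2 (dq 0 (ρ ^ 2) 1) y := ((dq_sm _ _ _).of_le two_le_inf).contDiffAt
  have e : dq 0 (ρ ^ 2) 1 y = 1 := by rw [dq_eq, hy]; simp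
  rw [lv_comp (Eventually.of_forall d) d' ((sig_sm s κ ρ).of_le two_le_inf).contDiffAt, lv_sig,
    lv_log s2 (dq1_pos ρ y).ne', lv_dq, rk_dq _ _ _ hy, e]
  refine Hm_ext ?_ ?_ ?_ ?_ <;> simp [rk, D_sig, hy] <;> ring

/-- the logarithmic charts -/
def Tc (w : ℂ) (κ ρ : ℝ) (y : V) : V :=
  (Complex.exp (w + κ * y.1), ρ * y.2 * Complex.exp (w + κ * y.1))

lemma dq_Tc (w : ℂ) (κ ρ : ℝ) (y : V) :
    dq 1 1 0 (Tc w κ ρ y) = Real.exp (sig (2 * w.re) κ ρ y) := by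
  rw [sig, Real.exp_add, Real.exp_log (dq1_pos ρ y), dq_eq, dq_eq, Tc]
  simp only [norm_mul, Complex.norm_exp, Complex.norm_real, Real.norm_eq_abs, mul_pow, sq_abs]
  have e : Real.exp (2 * w.re + 2 * κ * cx 0 y) = Real.exp (w + κ * y.1).re ^ 2 := by
    rw [sq, ← Real.exp_add]; congr 1; simp [cx]; ring
  rw [e]; ring

lemma cov_Tc (w : ℂ) (κ ρ : ℝ) (y : V) :
    cov a0 (w + κ * y.1, 0 + ρ * y.2) = N0 (Tc w κ ρ y) := by
  have h : Complex.exp (2 * (w + κ * y.1)) =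
      Complex.exp (w + κ * y.1) * Complex.exp (w + κ * y.1) := by rw [← Complex.exp_add]; ring_nf
  have h0 := Complex.exp_ne_zero (w + κ * y.1)
  simp only [cov, N0, Tc, Pz, a0, Nat.cast_one, one_mul, zero_add, sub_zero, h, Complex.exp_neg,
    Finset.univ_unique, Finset.prod_const, Finset.card_singleton, pow_one]
  refine Prod.ext rfl (Prod.ext ?_ ?_)
  · simp only; field_simp
  · simp only; ring

/-- derivative along the first axis -/
lemma D_axis {f : V → ℝ} {h : ℝ → ℝ} {c h' : ℝ} (hf : DifferentiableAt ℝ f ((c : ℂ), 0))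
    (he : ∀ᶠ r in 𝓝 c, f (((r : ℝ) : ℂ), 0) = h r) (d : HasDerivAt h h' c) :
    D (e 0) f ((c : ℂ), 0) = h' := by
  have h1 : HasDerivAt (fun r : ℝ => (((r : ℂ), (0 : ℂ)) : V)) (K.e 0) c :=
    (Complex.ofRealCLM.hasDerivAt (x := c)).prodMk (hasDerivAt_const c (0 : ℂ))
  exact (hf.hasFDerivAt.comp_hasDerivAt c h1).unique (d.congr_of_eventuallyEq he)

lemma DL_sig {g : ℕ → ℝ → ℝ} (d : ∀ i s, HasDerivAt (g i) (g (i + 1) s) s)
    (hg : ContDiff ℝ ∞ (g 0)) (s κ ρ : ℝ) (j : ℕ) (r : ℝ) :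
    DL (List.replicate j 0) (fun y => lv (fun y => g 0 (sig s κ ρ y)) y 0) ((r : ℂ), 0) =
      4 * κ ^ 2 * (2 * κ) ^ j * g (j + 2) (s + 2 * κ * r) := by
  induction j generalizing r with
  | zero =>
    have h := lv_sig_comp (s := s) (κ := κ) (ρ := ρ) (y := ((r : ℂ), 0)) rfl (d 0) (d 1 _)
    rw [sig_axis _ _ _ rfl] at h
    simp only [List.replicate, DL, h]
    simp
  | succ j ih =>
    rw [List.replicate_succ, DL]
    refine D_axis ((DL_smooth (lv_entry (hg.comp (sig_sm s κ ρ)).contDiffAt 0) _).differentiableAt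
      (by simp)) (Eventually.of_forall ih) ?_
    refine (((d (j + 2) _).comp r (((hasDerivAt_id r).const_mul (2 * κ)).const_add s)).const_mul
      (4 * κ ^ 2 * (2 * κ) ^ j)).congr_deriv ?_
    simp only [id]; ring

lemma par_Tc (w : ℂ) {κ ρ : ℝ} (hκ : κ ≠ 0) (hρ : ρ ≠ 0) :
    Par (Xs a0) (N0 ∘ Tc w κ ρ) univ := by
  refine par_N0.comp isOpen_univ (by unfold Tc; fun_prop) (fun _ _ => mem_univ _) fun y _ => ?_
  have h1 : HasFDerivAt (fun y : V => Complex.exp (w + κ * y.1))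
      (Complex.exp (w + κ * y.1) • ((κ : ℂ) • ContinuousLinearMap.fst ℂ ℂ ℂ)) y :=
    ((hasFDerivAt_fst.const_mul (κ : ℂ)).const_add w).cexp
  have h2 := h1.prodMk ((hasFDerivAt_snd.const_mul (ρ : ℂ)).mul h1)
  rw [show fderiv ℂ (Tc w κ ρ) y = _ from h2.fderiv]
  refine (injective_iff_map_eq_zero _).mpr fun v hv => ?_
  have e1 := congrArg Prod.fst hv
  have e2 := congrArg Prod.snd hv
  have h0 := Complex.exp_ne_zero (w + κ * y.1)
  have e3 : v.1 = 0 := by simpa [h0, hκ] using e1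
  have e4 : v.2 = 0 := by simpa [h0, hρ, e3] using e2
  exact Prod.ext e3 e4

end

end Pool.Agent.MP_67f0e4_gt.R48
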