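import Pool.Agent.MP_67f0e4_gt.R48.Cons

/-! The scale `c(t)` of the tip, measured at a fixed level `s₁ ≤ 0`. -/

namespace Pool.Agent.MP_67f0e4_gt.R48

open Set Filter Topology

/-- the scale of the tip -/
noncomputable def cc (U : ℕ → ℝ → ℝ → ℝ) (s₁ t : ℝ) : ℝ :=
  (U 0 s₁ t - U 0 (s₁ - 1) t) / (Real.exp s₁ - Real.exp (s₁ - 1))

/-- its time derivative -/
noncomputable def dcc (U : ℕ → ℝ → ℝ → ℝ) (s₁ t : ℝ) : ℝ :=
  (Real.log (U 1 s₁ t * U 2 s₁ t) - 2 * s₁ -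
    (Real.log (U 1 (s₁ - 1) t * U 2 (s₁ - 1) t) - 2 * (s₁ - 1))) /
    (Real.exp s₁ - Real.exp (s₁ - 1))

variable {β τ : ℝ} {U : ℕ → ℝ → ℝ → ℝ}

lemma exp_gap (s : ℝ) : 0 < Real.exp s - Real.exp (s - 1) :=
  sub_pos.mpr (Real.exp_lt_exp.mpr (by linarith))

lemma Rad.d_cc (R : Rad β τ U) (hβ : 6 ≤ β) (s₁ : ℝ) {t : ℝ} (ht : t ∈ Icc 0 τ) :
    HasDerivWithinAt (cc U s₁) (dcc U s₁ t) (Icc 0 τ) t := by
  have J := (R.jets (by linarith) (ht.1.trans ht.2)).1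
  exact ((J.dt s₁ t ht).sub (J.dt (s₁ - 1) t ht)).div_const _

/-- mean value form of increments of `u` -/
lemma Rad.u_inc (R : Rad β τ U) {s s' : ℝ} (h : s' < s) {t : ℝ} (ht : t ∈ Icc 0 τ) :
    ∃ ξ ∈ Ioo s' s, U 0 s t - U 0 s' t = U 1 ξ t / Real.exp ξ * (Real.exp s - Real.exp s') := by
  have d : ∀ x, HasDerivAt (fun s => U 0 s t) (U 1 x t) x := fun x => R.ds 0 (by norm_num) x t ht
  obtain ⟨ξ, hξ, e⟩ := exists_ratio_hasDerivAt_eq_ratio_slope (fun s => U 0 s t)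
    (fun s => U 1 s t) h (fun x _ => (d x).continuousAt.continuousWithinAt) (fun x _ => d x)
    Real.exp Real.exp Real.continuous_exp.continuousOn fun x _ => Real.hasDerivAt_exp x
  refine ⟨ξ, hξ, ?_⟩
  have := (Real.exp_pos ξ).ne'
  field_simp
  linarith

lemma Rad.cc_eq (R : Rad β τ U) (s₁ : ℝ) {t : ℝ} (ht : t ∈ Icc 0 τ) :
    ∃ ξ ∈ Ioo (s₁ - 1) s₁, cc U s₁ t = U 1 ξ t / Real.exp ξ := by
  obtain ⟨ξ, hξ, e⟩ := R.u_inc (show s₁ - 1 < s₁ by linarith) ht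
  exact ⟨ξ, hξ, by rw [cc, e, mul_div_cancel_right₀ _ (exp_gap s₁).ne']⟩

lemma Rad.cc_pos (R : Rad β τ U) (hβ : 6 ≤ β) (s₁ : ℝ) {t : ℝ} (ht : t ∈ Icc 0 τ) :
    0 < cc U s₁ t := by
  obtain ⟨ξ, -, e⟩ := R.cc_eq s₁ ht
  rw [e]; exact div_pos (R.p_pos (by linarith) ξ ht) (Real.exp_pos ξ)

lemma Rad.log_cc (R : Rad β τ U) (hβ : 6 ≤ β) (s₁ : ℝ) {t : ℝ} (ht : t ∈ Icc 0 τ) :
    ∃ ξ ∈ Ioo (s₁ - 1) s₁, Real.log (cc U s₁ t) = -(ξ - Real.log (U 1 ξ t)) := by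
  obtain ⟨ξ, hξ, e⟩ := R.cc_eq s₁ ht
  refine ⟨ξ, hξ, ?_⟩
  rw [e, Real.log_div (R.p_pos (by linarith) ξ ht).ne' (Real.exp_pos ξ).ne', Real.log_exp]
  ring

/-- `0 ≤ log c + s - log p ≤ (β+3) p / z²` above the level `s₁` -/
lemma Rad.cc_p (R : Rad β τ U) (hβ : 6 ≤ β) {s₁ s : ℝ} (hs : s₁ ≤ s) {t : ℝ} (ht : t ∈ Icc 0 τ) :
    0 ≤ Real.log (cc U s₁ t) + s - Real.log (U 1 s t) ∧
    Real.log (cc U s₁ t) + s - Real.log (U 1 s t) ≤ (β + 3) * (U 1 s t / zz U s t ^ 2) := by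
  obtain ⟨ξ, hξ, e⟩ := R.log_cc hβ s₁ ht
  have h1 := R.S_mono hβ ht (hξ.2.le.trans hs)
  have h2 := R.S_osc hβ (hξ.2.le.trans hs) ht
  simp only at h1
  constructor <;> linarith

/-- the same below the level `s₁` -/
lemma Rad.cc_p' (R : Rad β τ U) (hβ : 6 ≤ β) {s₁ s : ℝ} (hs : s ≤ s₁) {t : ℝ} (ht : t ∈ Icc 0 τ) :
    |Real.log (cc U s₁ t) + s - Real.log (U 1 s t)| ≤ (β + 3) * (U 1 s₁ t / zz U s₁ t ^ 2) := by
  obtain ⟨ξ, hξ, e⟩ := R.log_cc hβ s₁ ht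
  have h1 := R.S_mono hβ ht hs
  have h2 := R.S_mono hβ ht hξ.2.le
  have h3 := R.S_osc hβ hs ht
  have h4 := R.S_osc hβ hξ.2.le ht
  simp only at h1 h2
  rw [abs_le]
  constructor <;> linarith

lemma Rad.p_le_cc (R : Rad β τ U) (hβ : 6 ≤ β) {s₁ s : ℝ} (hs : s₁ ≤ s) {t : ℝ}
    (ht : t ∈ Icc 0 τ) : U 1 s t ≤ cc U s₁ t * Real.exp s := by
  have hc := R.cc_pos hβ s₁ ht
  rw [← Real.exp_log hc, ← Real.exp_add, ← Real.log_le_iff_le_exp (R.p_pos (by linarith) s ht)]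
  linarith [(R.cc_p hβ hs ht).1]

lemma Rad.cc_le_p (R : Rad β τ U) (hβ : 6 ≤ β) {s₁ s : ℝ} (hs : s₁ ≤ s) {t : ℝ}
    (ht : t ∈ Icc 0 τ) : cc U s₁ t * Real.exp s ≤
      U 1 s t * Real.exp ((β + 3) * (U 1 s t / zz U s t ^ 2)) := by
  have hc := R.cc_pos hβ s₁ ht
  have hp := R.p_pos (by linarith) s ht
  rw [← Real.exp_log hc, ← Real.exp_add, ← Real.log_le_log_iff (Real.exp_pos _) (by positivity),
    Real.log_mul hp.ne' (Real.exp_pos _).ne', Real.log_exp, Real.log_exp]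
  linarith [(R.cc_p hβ hs ht).2]

/-- in the inner region `p / z² ≤ 4 κ` -/
lemma Rad.inner (R : Rad β τ U) (hβ : 6 ≤ β) {κ s t : ℝ} (ht : t ∈ Icc 0 τ) (hκ : κ ≤ 1 / 2)
    (h : U 1 s t ≤ κ * (1 - 2 * t) ^ 2) :
    1 - 2 * t ≤ 2 * zz U s t ∧ U 1 s t / zz U s t ^ 2 ≤ 4 * κ := by
  have ha := R.t_lt hβ ht
  have hp := R.p_pos (by linarith) s ht
  have hκ0 : 0 < κ := (mul_pos_iff_of_pos_right (pow_pos ha 2)).mp (hp.trans_le h)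
  have h1 : 1 - 2 * t ≤ 2 * zz U s t := by
    have e1 : κ * (1 - 2 * t) ^ 2 ≤ 1 / 2 * (1 - 2 * t) :=
      mul_le_mul hκ (by nlinarith [ht.1]) (sq_nonneg _) (by norm_num)
    rw [zz]; linarith
  refine ⟨h1, (div_le_iff₀ (pow_pos (R.z_pos hβ s ht) 2)).mpr (h.trans ?_)⟩
  have := mul_le_mul_of_nonneg_left (pow_le_pow_left₀ ha.le h1 2) hκ0.le
  linarith

/-- `c ≤ exp (-1/a)` -/
lemma Rad.cc_le (R : Rad β τ U) (hβ : 6 ≤ β) (s₁ : ℝ) {t : ℝ} (ht : t ∈ Icc 0 τ) :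
    cc U s₁ t ≤ Real.exp (-(1 / (1 - 2 * t))) := by
  obtain ⟨ξ, -, e⟩ := R.cc_eq s₁ ht
  rw [e, div_le_iff₀' (Real.exp_pos ξ)]
  refine (R.p_exp hβ ξ ht).trans (mul_le_mul_of_nonneg_left (Real.exp_le_exp.mpr (neg_le_neg ?_))
    (Real.exp_pos ξ).le)
  exact one_div_le_one_div_of_le (R.z_pos hβ ξ ht) (R.z_lt hβ ξ ht).le

/-- `-C / a² ≤ c' / c ≤ 0` -/
lemma Rad.dcc_bd (R : Rad β τ U) (hβ : 6 ≤ β) {s₁ : ℝ} (hs : s₁ ≤ 0) {t : ℝ} (ht : t ∈ Icc 0 τ) :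
    -(36 * (β + 3) / (1 - 2 * t) ^ 2) ≤ dcc U s₁ t / cc U s₁ t ∧ dcc U s₁ t ≤ 0 := by
  have hβ0 : 0 < β := by linarith
  have hp := R.p_pos hβ0 s₁ ht
  have hp' := R.p_pos hβ0 (s₁ - 1) ht
  have hθ := R.th_pos hβ0 s₁ ht
  have hθ' := R.th_pos hβ0 (s₁ - 1) ht
  have hz := R.z_pos hβ s₁ ht
  have hle : s₁ - 1 ≤ s₁ := by linarith
  have hS := R.S_mono hβ ht hle
  have hS' := R.S_osc hβ hle ht
  have hm := Real.log_le_log (R.m_pos hβ s₁ ht) (R.m_anti hβ ht hle)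
  have hm' := Real.log_nonpos (R.m_pos hβ (s₁ - 1) ht).le (R.m_le_one hβ (s₁ - 1) ht)
  have hm'' := Real.log_le_sub_one_of_pos (div_pos hp hθ)
  have hq := R.minv_le hβ s₁ ht
  simp only at hS hm
  rw [Real.log_div hθ'.ne' hp'.ne'] at hm hm'
  rw [Real.log_div hθ.ne' hp.ne'] at hm
  rw [Real.log_div hp.ne' hθ.ne'] at hm''
  have hg := exp_gap s₁
  refine ⟨?_, div_nonpos_of_nonpos_of_nonneg ?_ hg.le⟩
  · obtain ⟨ξ, hξ, e⟩ := exists_hasDerivAt_eq_slope (fun s => U 0 s t) (fun s => U 1 s t)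
      (show s₁ - 1 < s₁ by linarith)
      (fun x _ => (R.ds 0 (by norm_num) x t ht).continuousAt.continuousWithinAt)
      fun x _ => R.ds 0 (by norm_num) x t ht
    have e1 : U 1 s₁ t ≤ 3 * U 1 ξ t := by
      have e2 := R.S_mono hβ ht hξ.2.le
      have hpξ := R.p_pos hβ0 ξ ht
      simp only at e2
      have e3 : Real.log (U 1 s₁ t) ≤ 1 + Real.log (U 1 ξ t) := by linarith [hξ.1]
      rw [Real.log_le_iff_le_exp hp, Real.exp_add, Real.exp_log hpξ] at e3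
      exact e3.trans (mul_le_mul_of_nonneg_right (by linarith [Real.exp_one_lt_d9]) hpξ.le)
    have e2 : U 0 s₁ t - U 0 (s₁ - 1) t = U 1 ξ t := by rw [e]; simp
    have ha := R.t_lt hβ ht
    have e3 : U 1 s₁ t / zz U s₁ t ^ 2 ≤ 12 / (1 - 2 * t) ^ 2 * U 1 ξ t := by
      rw [div_mul_eq_mul_div, div_le_div_iff₀ (pow_pos hz 2) (pow_pos ha 2)]
      have e4 := mul_le_mul e1 (pow_le_pow_left₀ ha.le (R.z_left hβ hs ht) 2) (sq_nonneg _)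
        (by linarith)
      linarith
    rw [dcc, cc, div_div_div_cancel_right₀ hg.ne', e2, le_div_iff₀ (R.p_pos hβ0 ξ ht),
      Real.log_mul hp.ne' hθ.ne', Real.log_mul hp'.ne' hθ'.ne']
    have e4 := mul_le_mul_of_nonneg_left e3 (by linarith : 0 ≤ β + 3)
    have e5 : -(36 * (β + 3) / (1 - 2 * t) ^ 2) * U 1 ξ t =
        -(3 * ((β + 3) * (12 / (1 - 2 * t) ^ 2 * U 1 ξ t))) := by ring
    linarith
  · rw [Real.log_mul hp.ne' hθ.ne', Real.log_mul hp'.ne' hθ'.ne']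
    linarith

/-- `log c + C / a` increases, `c` decreases -/
lemma Rad.cc_mono (R : Rad β τ U) (hβ : 6 ≤ β) {s₁ : ℝ} (hs : s₁ ≤ 0) {t t' : ℝ}
    (ht : t ∈ Icc 0 τ) (ht' : t' ∈ Icc 0 τ) (h : t ≤ t') : cc U s₁ t' ≤ cc U s₁ t ∧
    Real.log (cc U s₁ t) + 18 * (β + 3) / (1 - 2 * t) ≤
      Real.log (cc U s₁ t') + 18 * (β + 3) / (1 - 2 * t') := by
  have d : ∀ r ∈ Icc 0 τ, HasDerivWithinAt
      (fun r => Real.log (cc U s₁ r) + 18 * (β + 3) / (1 - 2 * r))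
      (dcc U s₁ r / cc U s₁ r + 36 * (β + 3) / (1 - 2 * r) ^ 2) (Icc 0 τ) r := fun r hr =>
    ((R.d_cc hβ s₁ hr).log (R.cc_pos hβ s₁ hr).ne').add
      (((hasDerivAt_const r (18 * (β + 3))).div (((hasDerivAt_id r).const_mul 2).const_sub 1)
        (R.t_lt hβ hr).ne').congr_deriv (by simp only [id]; ring)).hasDerivWithinAt
  constructor
  · exact antitoneOn_of_hasDerivWithinAt_nonpos (convex_Icc 0 τ)
      (fun r hr => (R.d_cc hβ s₁ hr).continuousWithinAt)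
      (fun r hr => (R.d_cc hβ s₁ (interior_subset hr)).mono interior_subset)
      (fun r hr => (R.dcc_bd hβ hs (interior_subset hr)).2) ht ht' h
  · exact monotoneOn_of_hasDerivWithinAt_nonneg (convex_Icc 0 τ)
      (fun r hr => (d r hr).continuousWithinAt)
      (fun r hr => (d r (interior_subset hr)).mono interior_subset)
      (fun r hr => by linarith [(R.dcc_bd hβ hs (interior_subset hr)).1]) ht ht' h

lemma p0_left (hβ : 6 ≤ β) {s : ℝ} (hs : s ≤ 0) : Real.exp s / (2 * (β + 1)) ≤ p0 β s := by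
  have he := Real.exp_pos s
  have he1 : Real.exp s ≤ 1 := Real.exp_le_one_iff.mpr hs
  have e3 : Real.exp s / 2 ≤ sg s := div_le_div_of_nonneg_left he.le (by linarith) (by linarith)
  rw [← div_div]
  exact div_le_div₀ (lam_pos s).le (e3.trans (sg_le_lam s)) (by linarith [lam_pos s])
    (by linarith [lam_le_exp s])

/-- lower bound of the scale -/
lemma Rad.cc_ge (R : Rad β τ U) (hβ : 6 ≤ β) {s₁ : ℝ} (hs : s₁ ≤ 0) {t : ℝ} (ht : t ∈ Icc 0 τ) :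
    Real.exp (-(18 * (β + 3) / (1 - 2 * t))) ≤ cc U s₁ t := by
  have h0 : (0 : ℝ) ∈ Icc 0 τ := ⟨le_rfl, ht.1.trans ht.2⟩
  have h1 := (R.cc_mono hβ hs h0 ht ht.1).2
  obtain ⟨ξ, hξ, e⟩ := R.cc_eq s₁ h0
  have h2 : 1 / (2 * (β + 1)) ≤ cc U s₁ 0 := by
    rw [e, R.init, le_div_iff₀ (Real.exp_pos ξ), one_div_mul_eq_div]
    exact p0_left hβ (hξ.2.le.trans hs)
  have h3 := Real.log_le_log (by positivity) h2
  rw [one_div, Real.log_inv] at h3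
  have h4 := Real.log_le_sub_one_of_pos (by linarith : 0 < 2 * (β + 1))
  rw [← Real.le_log_iff_exp_le (R.cc_pos hβ s₁ ht)]
  simp only [mul_zero, sub_zero, div_one] at h1
  linarith

/-- `u - u(s₁) = c (e^s - e^(s₁)) (1 + O(p / z²))` -/
lemma Rad.u_cc (R : Rad β τ U) (hβ : 6 ≤ β) {s₁ s : ℝ} (hs : s₁ ≤ s) {t : ℝ} (ht : t ∈ Icc 0 τ) :
    U 0 s t - U 0 s₁ t ≤ cc U s₁ t * (Real.exp s - Real.exp s₁) ∧
    (1 - (β + 3) * (U 1 s t / zz U s t ^ 2)) * (cc U s₁ t * (Real.exp s - Real.exp s₁)) ≤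
      U 0 s t - U 0 s₁ t := by
  rcases hs.eq_or_lt with rfl | h
  · simp
  obtain ⟨ξ, hξ, e⟩ := R.u_inc h ht
  have hg : 0 ≤ Real.exp s - Real.exp s₁ := sub_nonneg.mpr (Real.exp_le_exp.mpr hs)
  have hc := R.cc_pos hβ s₁ ht
  have hp := R.p_pos (by linarith) ξ ht
  rw [e, ← mul_assoc]
  refine ⟨mul_le_mul_of_nonneg_right ((div_le_iff₀ (Real.exp_pos ξ)).mpr
    (R.p_le_cc hβ hξ.1.le ht)) hg, mul_le_mul_of_nonneg_right ?_ hg⟩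
  have h1 := (R.cc_p hβ hs ht).2
  have h2 := R.S_mono hβ ht hξ.2.le
  simp only at h2
  have h3 := Real.add_one_le_exp (-((β + 3) * (U 1 s t / zz U s t ^ 2)))
  have h4 : Real.exp (-((β + 3) * (U 1 s t / zz U s t ^ 2))) * cc U s₁ t ≤
      U 1 ξ t / Real.exp ξ := by
    rw [← Real.exp_log hc, ← Real.exp_add, ← Real.exp_log hp, ← Real.exp_sub]
    exact Real.exp_le_exp.mpr (by linarith)
  exact le_trans (mul_le_mul_of_nonneg_right (by linarith) hc.le) h4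

end Pool.Agent.MP_67f0e4_gt.R48
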